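import Pool.Agent.PVG.Defs

namespace Pool.PVG

open Pool.Vis Finset

/- Abstract count of a union of stars. Proof: choose in every `F j` the element `M j` with the
largest value of `X`; the sets `F j \ {M j}` are pairwise disjoint by `hmax` and `hinj` (if `P` is
in `F i \ {M i}` and in `F j \ {M j}` then `P` is a maximum of one of them, hence equal to `M i`
or `M j`), and the element of the union with the largest `X` is in none of them (if it is in `F j`
it is a maximum of `F j`, hence equal to `M j`). -/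
theorem abs_count {ι α : Type*} [DecidableEq α] (J : Finset ι) (F : ι → Finset α) (X : α → ℝ)
    (hJ : J.Nonempty) (hne : ∀ j ∈ J, (F j).Nonempty)
    (hinj : ∀ j ∈ J, ∀ P ∈ F j, ∀ Q ∈ F j, X P = X Q → P = Q)
    (hmax : ∀ i ∈ J, ∀ j ∈ J, i ≠ j → ∀ P ∈ F i, P ∈ F j →
      (∀ Q ∈ F i, X Q ≤ X P) ∨ (∀ Q ∈ F j, X Q ≤ X P)) :
    1 + ∑ j ∈ J, ((F j).card - 1) ≤ (J.biUnion F).card := by
  classical
  have hM : ∀ j : ι, ∃ M : α, j ∈ J → M ∈ F j ∧ ∀ Q ∈ F j, X Q ≤ X M := by
    intro j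
    by_cases hj : j ∈ J
    · obtain ⟨M, h1, h2⟩ := (F j).exists_max_image X (hne j hj)
      exact ⟨M, fun _ => ⟨h1, h2⟩⟩
    · obtain ⟨j0, hj0⟩ := hJ
      obtain ⟨M, -⟩ := hne j0 hj0
      exact ⟨M, fun h => absurd h hj⟩
  choose M hM using hM
  have huniq : ∀ j ∈ J, ∀ P ∈ F j, (∀ Q ∈ F j, X Q ≤ X P) → P = M j := by
    intro j hj P hP hPm
    exact hinj j hj P hP (M j) (hM j hj).1 (le_antisymm ((hM j hj).2 P hP) (hPm _ (hM j hj).1))
  have hdis : ∀ i ∈ J, ∀ j ∈ J, i ≠ j → Disjoint ((F i).erase (M i)) ((F j).erase (M j)) := by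
    intro i hi j hj hij
    rw [Finset.disjoint_left]
    intro P hP hP'
    rw [mem_erase] at hP hP'
    rcases hmax i hi j hj hij P hP.2 hP'.2 with h | h
    · exact hP.1 (huniq i hi P hP.2 h)
    · exact hP'.1 (huniq j hj P hP'.2 h)
  have hcard : (J.biUnion fun j => (F j).erase (M j)).card = ∑ j ∈ J, ((F j).card - 1) := by
    rw [card_biUnion hdis]
    exact sum_congr rfl fun j hj => card_erase_of_mem (hM j hj).1
  have hne' : (J.biUnion F).Nonempty := by
    obtain ⟨j0, hj0⟩ := hJ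
    exact ⟨M j0, mem_biUnion.2 ⟨j0, hj0, (hM j0 hj0).1⟩⟩
  obtain ⟨P, hP, hPm⟩ := (J.biUnion F).exists_max_image X hne'
  have hPn : P ∉ J.biUnion fun j => (F j).erase (M j) := by
    intro h
    obtain ⟨j, hj, hPj⟩ := mem_biUnion.1 h
    rw [mem_erase] at hPj
    exact hPj.1 (huniq j hj P hPj.2 fun Q hQ => hPm Q (mem_biUnion.2 ⟨j, hj, hQ⟩))
  have hsub : insert P (J.biUnion fun j => (F j).erase (M j)) ⊆ J.biUnion F := by
    intro Q hQ
    rcases mem_insert.1 hQ with h | h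
    · rw [h]; exact hP
    · obtain ⟨j, hj, hQj⟩ := mem_biUnion.1 h
      exact mem_biUnion.2 ⟨j, hj, (mem_erase.1 hQj).2⟩
  have h1 := card_le_card hsub
  rw [card_insert_of_notMem hPn, hcard] at h1
  omega

end Pool.PVG
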