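import Pool.Agent.PVG.Nci

namespace Pool.PVG

open Pool.Vis Finset

/- Sort the three indices `a`, `b`, `m` and apply `flat`: if `q a .. q b` is contained in a flat arc,
this arc contains `u - 1` and `u`; otherwise the outside arc is flat and contains `0` and `h - 1`
(if `a = 0`, `b = h - 1` the first alternative is trivial). Use `ori_line` to change base points. -/
theorem badl (q : ℕ → Pt) (h : ℕ) (hOT : OT q h) (hinj : Inj q h) (u a b m : ℕ) (ha : a < u)
    (hb : u ≤ b) (hbh : b < h) (hm : m < h) (hma : m ≠ a) (hmb : m ≠ b)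
    (hcol : ori (q a) (q b) (q m) = 0) :
    (ori (q 0) (q (h - 1)) (q a) = 0 ∧ ori (q 0) (q (h - 1)) (q b) = 0) ∨
      (ori (q (u - 1)) (q u) (q a) = 0 ∧ ori (q (u - 1)) (q u) (q b) = 0) := by
  have key : ∀ i k : ℕ, i < k → k < h → ori (q i) (q k) (q a) = 0 → ori (q i) (q k) (q b) = 0 →
      ((ori (q i) (q k) (q (u - 1)) = 0 ∧ ori (q i) (q k) (q u) = 0) ∨
       (ori (q i) (q k) (q 0) = 0 ∧ ori (q i) (q k) (q (h - 1)) = 0)) →
      (ori (q 0) (q (h - 1)) (q a) = 0 ∧ ori (q 0) (q (h - 1)) (q b) = 0) ∨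
      (ori (q (u - 1)) (q u) (q a) = 0 ∧ ori (q (u - 1)) (q u) (q b) = 0) := by
    intro i k hik hk h1 h2 h3
    have hne : q i ≠ q k := by
      intro he
      have := hinj i (by omega) k hk he
      omega
    rcases h3 with ⟨h4, h5⟩ | ⟨h4, h5⟩
    · exact Or.inr ⟨ori_line hne h4 h5 h1, ori_line hne h4 h5 h2⟩
    · exact Or.inl ⟨ori_line hne h4 h5 h1, ori_line hne h4 h5 h2⟩
  rcases lt_or_gt_of_ne hma with hlt | hgt
  · -- m < a < b
    have hc : ori (q m) (q a) (q b) = 0 := by
      have := ori_cyc (q m) (q a) (q b)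
      rw [this]; exact hcol
    have hl := ori_self_right (q m) (q a)
    rcases flat q h hOT hinj m a b hlt (by omega) hbh hc with ⟨_, h1⟩ | ⟨_, h1, h2⟩ | ⟨_, h1, h2⟩
    · exact key m a hlt (by omega) hl hc
        (Or.inl ⟨h1 (u - 1) (by omega) (by omega), h1 u (by omega) (by omega)⟩)
    · exact key m a hlt (by omega) hl hc
        (Or.inl ⟨h1 (u - 1) (by omega) (by omega), h1 u (by omega) (by omega)⟩)
    · exact key m a hlt (by omega) hl hc
        (Or.inr ⟨h2 0 (by omega) (Or.inl (by omega)), h2 (h - 1) (by omega) (Or.inr (by omega))⟩)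
  · rcases lt_or_gt_of_ne hmb with hlt | hgt2
    · -- a < m < b
      have hc : ori (q a) (q m) (q b) = 0 := by
        have h1 := ori_cyc (q a) (q m) (q b)
        have h2 := ori_cyc (q m) (q b) (q a)
        have h3 := ori_swap (q b) (q a) (q m)
        rw [h1, h2, h3, hcol, neg_zero]
      have hl := ori_self_left (q a) (q m)
      rcases flat q h hOT hinj a m b hgt hlt hbh hc with ⟨_, h1⟩ | ⟨_, h1, h2⟩ | ⟨_, h1, h2⟩
      · exact key a m hgt (by omega) hl hc
          (Or.inl ⟨h1 (u - 1) (by omega) (by omega), h1 u (by omega) (by omega)⟩)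
      · exact key a m hgt (by omega) hl hc
          (Or.inr ⟨h2 0 (by omega) (Or.inl (by omega)), h2 (h - 1) (by omega) (Or.inr (by omega))⟩)
      · exact key a m hgt (by omega) hl hc
          (Or.inr ⟨h2 0 (by omega) (Or.inl (by omega)), h2 (h - 1) (by omega) (Or.inr (by omega))⟩)
    · -- a < b < m
      have hl := ori_self_left (q a) (q b)
      have hr := ori_self_right (q a) (q b)
      rcases flat q h hOT hinj a b m (by omega) hgt2 hm hcol with
        ⟨_, h1⟩ | ⟨_, h1, h2⟩ | ⟨_, h1, h2⟩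
      · exact key a b (by omega) hbh hl hr
          (Or.inl ⟨h1 (u - 1) (by omega) (by omega), h1 u (by omega) (by omega)⟩)
      · exact key a b (by omega) hbh hl hr
          (Or.inr ⟨h2 0 (by omega) (Or.inl (by omega)), h2 (h - 1) (by omega) (Or.inr (by omega))⟩)
      · exact key a b (by omega) hbh hl hr
          (Or.inl ⟨h1 (u - 1) (by omega) (by omega), h1 u (by omega) (by omega)⟩)

end Pool.PVG
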