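import Pool.Agent.PVG.Defs

namespace Pool.PVG

open Pool.Vis Finset

/-- Decomposition of a vector in the basis `u`, `rt u`. -/
private theorem corner_dec {u : Pt} (hu : UV u) (w : Pt) :
    w.1 = dot u w * u.1 + dot (rt u) w * (rt u).1 ∧
      w.2 = dot u w * u.2 + dot (rt u) w * (rt u).2 := by
  unfold UV at hu
  simp only [dot, rt]
  constructor
  · linear_combination (-w.1) * hu
  · linear_combination (-w.2) * hu

/-- Another point of the face, before `x`. -/
private theorem corner_pos {S : Finset Pt} {u x p : Pt} (hu : UV u) (hxu : x ∈ face u S)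
    (hp : p ∈ face u S) (hpm : ∀ y ∈ face u S, dot (rt u) p ≤ dot (rt u) y) (hxp : x ≠ p) :
    ∃ α : ℝ, 0 < α ∧ p.1 = x.1 - α * (rt u).1 ∧ p.2 = x.2 - α * (rt u).2 := by
  have h1 : dot u x = dot u p :=
    le_antisymm ((mem_face.1 hp).2 x (mem_face.1 hxu).1) ((mem_face.1 hxu).2 p (mem_face.1 hp).1)
  have h2 := hpm x hxu
  have hd := corner_dec hu (x.1 - p.1, x.2 - p.2)
  have e1 : dot u (x.1 - p.1, x.2 - p.2) = 0 := by
    simp only [dot] at h1 ⊢; linear_combination h1
  have e2 : dot (rt u) (x.1 - p.1, x.2 - p.2) = dot (rt u) x - dot (rt u) p := by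
    simp only [dot]; ring
  rw [e1, e2] at hd
  refine ⟨dot (rt u) x - dot (rt u) p, ?_, ?_, ?_⟩
  · rcases (sub_nonneg.2 h2).lt_or_eq with h3 | h3
    · exact h3
    · exfalso
      rw [← h3] at hd
      apply hxp
      refine Prod.ext ?_ ?_
      · have := hd.1; simp only [zero_mul, add_zero] at this; linarith
      · have := hd.2; simp only [zero_mul, add_zero] at this; linarith
  · have := hd.1; simp only [zero_mul, zero_add] at this; linarith
  · have := hd.2; simp only [zero_mul, zero_add] at this; linarith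

/- The start corner of an extreme set: `P` is in `face u S` and `dot (rt u)` is minimal at `P`. If
`x` is extreme in two directions `u ≠ v` and is the start corner of neither, take the start corners
`x - α rt u`, `x - β rt v` (`α, β > 0`); `dot u`, `dot v` at them give `dot u (rt v) ≥ 0` and
`dot v (rt u) ≥ 0`, and `dot u (rt v) = - dot v (rt u)`; so both are `0`, `v = -u` and `S` is
contained in a line. -/
theorem corner (S : Finset Pt) (hnc : ¬ Coll S) (u v x p r : Pt) (hu : UV u) (hv : UV v)
    (huv : u ≠ v) (hxu : x ∈ face u S) (hxv : x ∈ face v S) (hp : p ∈ face u S)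
    (hpm : ∀ y ∈ face u S, dot (rt u) p ≤ dot (rt u) y) (hr : r ∈ face v S)
    (hrm : ∀ y ∈ face v S, dot (rt v) r ≤ dot (rt v) y) : x = p ∨ x = r := by
  by_contra hc
  push Not at hc
  obtain ⟨α, hα, hp1, hp2⟩ := corner_pos hu hxu hp hpm hc.1
  obtain ⟨β, hβ, hr1, hr2⟩ := corner_pos hv hxv hr hrm hc.2
  have h1 := (mem_face.1 hxv).2 p (mem_face.1 hp).1
  have h2 := (mem_face.1 hxu).2 r (mem_face.1 hr).1
  simp only [dot, hp1, hp2, hr1, hr2, rt] at h1 h2
  set s : ℝ := v.2 * u.1 - v.1 * u.2 with hs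
  have h3 : 0 ≤ s := by
    have : 0 ≤ α * s := by rw [hs]; nlinarith
    exact nonneg_of_mul_nonneg_right this hα
  have h4 : s ≤ 0 := by
    have : 0 ≤ β * (-s) := by rw [hs]; nlinarith
    have := nonneg_of_mul_nonneg_right this hβ
    linarith
  have hs0 : s = 0 := le_antisymm h4 h3
  unfold UV at hu hv
  set c : ℝ := u.1 * v.1 + u.2 * v.2 with hcdef
  have hc2 : c ^ 2 = 1 := by
    have : c ^ 2 + s ^ 2 = (u.1 ^ 2 + u.2 ^ 2) * (v.1 ^ 2 + v.2 ^ 2) := by rw [hcdef, hs]; ring
    rw [hs0, hu, hv] at this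
    linarith
  have hv1 : v.1 = c * u.1 := by
    have : c * u.1 - s * u.2 = v.1 * (u.1 ^ 2 + u.2 ^ 2) := by rw [hcdef, hs]; ring
    rw [hs0, hu] at this
    linarith
  have hv2 : v.2 = c * u.2 := by
    have : c * u.2 + s * u.1 = v.2 * (u.1 ^ 2 + u.2 ^ 2) := by rw [hcdef, hs]; ring
    rw [hs0, hu] at this
    linarith
  have h6 : (c - 1) * (c + 1) = 0 := by linear_combination hc2
  rcases mul_eq_zero.1 h6 with h5 | h5
  · have hc1 : c = 1 := by linarith
    rw [hc1, one_mul] at hv1 hv2
    exact huv (Prod.ext hv1.symm hv2.symm)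
  · have hc1 : c = -1 := by linarith
    rw [hc1] at hv1 hv2
    refine hnc ⟨dtf u (dot u x), ?_, fun y hy => ?_⟩
    · by_contra hz
      unfold Fn.NZ dtf at hz
      push Not at hz
      exact uv_ne (u := u) hu (Prod.ext hz.1 hz.2)
    · rw [ev_dtf]
      have h7 := (mem_face.1 hxu).2 y hy
      have h8 := (mem_face.1 hxv).2 y hy
      simp only [dot, hv1, hv2] at h7 h8 ⊢
      linarith

/- The centroid `o` of `S` has `φ(o) < 0` for every functional `φ` which is `≤ 0` on `S` and not `0`
on all of `S`. For `x ∈ face u S` take `φ = dot u - dot u x`. -/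
theorem centroid (S : Finset Pt) (hnc : ¬ Coll S) :
    ∃ o : Pt, ∀ u x, UV u → x ∈ face u S → Bd S o x := by
  have hne : S.Nonempty := by
    rw [Finset.nonempty_iff_ne_empty]
    rintro rfl
    exact hnc ⟨⟨1, 0, 0⟩, Or.inl one_ne_zero, fun p hp => absurd hp (Finset.notMem_empty p)⟩
  have hn : (0:ℝ) < S.card := by exact_mod_cast hne.card_pos
  refine ⟨((∑ y ∈ S, y.1) / S.card, (∑ y ∈ S, y.2) / S.card), fun u x hu hx => ?_⟩
  refine ⟨dtf u (dot u x), by rw [ev_dtf]; ring, ?_, fun y hy => ?_⟩
  · rw [ev_dtf]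
    have h1 : dot u ((∑ y ∈ S, y.1) / S.card, (∑ y ∈ S, y.2) / S.card) =
        (∑ y ∈ S, dot u y) / S.card := by
      simp only [dot, Finset.sum_add_distrib, ← Finset.mul_sum]
      ring
    rw [h1, sub_neg, div_lt_iff₀ hn]
    have h2 : ∑ y ∈ S, dot u y < ∑ _y ∈ S, dot u x := by
      refine Finset.sum_lt_sum (fun y hy => (mem_face.1 hx).2 y hy) ?_
      by_contra hc
      push Not at hc
      refine hnc ⟨dtf u (dot u x), ?_, fun y hy => ?_⟩
      · by_contra hz
        unfold Fn.NZ dtf at hz
        push Not at hz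
        exact uv_ne hu (Prod.ext hz.1 hz.2)
      · rw [ev_dtf]
        have h3 := (mem_face.1 hx).2 y hy
        have h4 := hc y hy
        linarith
    rw [Finset.sum_const, nsmul_eq_mul] at h2
    linarith
  · rw [ev_dtf]
    have := (mem_face.1 hx).2 y hy
    linarith

/-- If a convex combination is extreme then so are the end points. -/
private theorem three_mid {S : Finset Pt} {v a b m : Pt} (hm : m ∈ face v S) (ha : a ∈ S)
    (hb : b ∈ S) {s t : ℝ} (hs : 0 < s) (ht : 0 < t) (hst : s + t = 1)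
    (h1 : m.1 = s * a.1 + t * b.1) (h2 : m.2 = s * a.2 + t * b.2) :
    a ∈ face v S ∧ b ∈ face v S := by
  have hma := (mem_face.1 hm).2 a ha
  have hmb := (mem_face.1 hm).2 b hb
  have he : dot v m = s * dot v a + t * dot v b := by
    simp only [dot, h1, h2]; ring
  have ht' : t = 1 - s := by linarith
  have hea : dot v a = dot v m := by
    by_contra hc
    have hlt : dot v a < dot v m := lt_of_le_of_ne hma hc
    have h5 : s * dot v a < s * dot v m := mul_lt_mul_of_pos_left hlt hs
    have h6 : t * dot v b ≤ t * dot v m := mul_le_mul_of_nonneg_left hmb ht.le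
    have h7 : s * dot v m + t * dot v m = dot v m := by rw [← add_mul, hst, one_mul]
    linarith
  have heb : dot v b = dot v m := by
    by_contra hc
    have hlt : dot v b < dot v m := lt_of_le_of_ne hmb hc
    have h5 : t * dot v b < t * dot v m := mul_lt_mul_of_pos_left hlt ht
    have h6 : s * dot v a ≤ s * dot v m := mul_le_mul_of_nonneg_left hma hs.le
    have h7 : s * dot v m + t * dot v m = dot v m := by rw [← add_mul, hst, one_mul]
    linarith
  constructor
  · exact mem_face.2 ⟨ha, fun y hy => by rw [hea]; exact (mem_face.1 hm).2 y hy⟩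
  · exact mem_face.2 ⟨hb, fun y hy => by rw [heb]; exact (mem_face.1 hm).2 y hy⟩

/- Three different collinear points of `S` which are extreme in some directions: the middle one is
extreme in direction `v`; then the two others are extreme in direction `v` as well. -/
theorem three (S : Finset Pt) (x y z : Pt) (hx : ∃ u, UV u ∧ x ∈ face u S)
    (hy : ∃ u, UV u ∧ y ∈ face u S) (hz : ∃ u, UV u ∧ z ∈ face u S) (hxy : x ≠ y) (hyz : y ≠ z)
    (hxz : x ≠ z) (hcol : ori x y z = 0) :
    ∃ v, UV v ∧ x ∈ face v S ∧ y ∈ face v S ∧ z ∈ face v S := by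
  obtain ⟨ux, hux, hxf⟩ := hx
  obtain ⟨uy, huy, hyf⟩ := hy
  obtain ⟨uz, huz, hzf⟩ := hz
  have hxS := (mem_face.1 hxf).1
  have hyS := (mem_face.1 hyf).1
  have hzS := (mem_face.1 hzf).1
  -- the parameter of `z` on the line
  have hq : 0 < (y.1 - x.1) ^ 2 + (y.2 - x.2) ^ 2 := by
    by_contra hc
    have h1 : (y.1 - x.1) ^ 2 = 0 := by nlinarith [sq_nonneg (y.1 - x.1), sq_nonneg (y.2 - x.2)]
    have h2 : (y.2 - x.2) ^ 2 = 0 := by nlinarith [sq_nonneg (y.1 - x.1), sq_nonneg (y.2 - x.2)]
    have h3 := pow_eq_zero_iff (two_ne_zero) |>.1 h1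
    have h4 := pow_eq_zero_iff (two_ne_zero) |>.1 h2
    exact hxy (Prod.ext (by linarith) (by linarith))
  obtain ⟨t, ht1, ht2⟩ : ∃ t : ℝ, z.1 - x.1 = t * (y.1 - x.1) ∧ z.2 - x.2 = t * (y.2 - x.2) := by
    refine ⟨((y.1 - x.1) * (z.1 - x.1) + (y.2 - x.2) * (z.2 - x.2)) /
      ((y.1 - x.1) ^ 2 + (y.2 - x.2) ^ 2), ?_, ?_⟩
    · unfold ori at hcol
      field_simp
      linear_combination (-(y.2 - x.2)) * hcol
    · unfold ori at hcol
      field_simp
      linear_combination (y.1 - x.1) * hcol
  have ht0 : t ≠ 0 := by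
    rintro rfl
    exact hxz (Prod.ext (by linarith) (by linarith))
  have ht1' : t ≠ 1 := by
    rintro rfl
    exact hyz (Prod.ext (by linarith) (by linarith))
  rcases lt_trichotomy t 0 with h | h | h
  · -- `x` is between `y` and `z`
    have hd : 0 < 1 - t := by linarith
    obtain ⟨h1, h2⟩ := three_mid hxf hyS hzS (s := -t / (1 - t)) (t := 1 / (1 - t))
      (div_pos (by linarith) hd) (by positivity) (by field_simp; ring)
      (by field_simp; linear_combination -ht1) (by field_simp; linear_combination -ht2)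
    exact ⟨ux, hux, hxf, h1, h2⟩
  · exact absurd h ht0
  · rcases lt_or_gt_of_ne ht1' with h' | h'
    · -- `z` is between `x` and `y`
      obtain ⟨h1, h2⟩ := three_mid hzf hxS hyS (s := 1 - t) (t := t)
        (by linarith) h (by ring) (by linear_combination ht1) (by linear_combination ht2)
      exact ⟨uz, huz, h1, h2, hzf⟩
    · -- `y` is between `x` and `z`
      obtain ⟨h1, h2⟩ := three_mid hyf hxS hzS (s := (t - 1) / t) (t := 1 / t)
        (div_pos (by linarith) h) (by positivity) (by field_simp; ring)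
        (by field_simp; linear_combination -ht1) (by field_simp; linear_combination -ht2)
      exact ⟨uy, huy, h1, hyf, h2⟩

end Pool.PVG
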