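import Pool.Agent.PVG.Defs

namespace Pool.PVG

open Pool.Vis Finset

private lemma Cpx_neg {u : Pt} (h : UV u) : UV (-u) := by
  simp only [UV, Prod.fst_neg, Prod.snd_neg] at h ⊢
  linarith

private lemma Cpx_two {a b : Pt} {u v : Pt} (hab : a ≠ b) (hu : UV u) (hv : UV v)
    (h1 : dot u a = dot u b) (h2 : dot v a = dot v b) : u = v ∨ u = -v := by
  have hd : a.1 - b.1 ≠ 0 ∨ a.2 - b.2 ≠ 0 := by
    by_contra hc
    push Not at hc
    exact hab (Prod.ext (by linarith [hc.1]) (by linarith [hc.2]))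
  simp only [UV, dot] at hu hv h1 h2
  have e1 : u.1 * (a.1 - b.1) + u.2 * (a.2 - b.2) = 0 := by linarith
  have e2 : v.1 * (a.1 - b.1) + v.2 * (a.2 - b.2) = 0 := by linarith
  have hdet : u.1 * v.2 - u.2 * v.1 = 0 := by
    rcases hd with hd | hd
    · have : (u.1 * v.2 - u.2 * v.1) * (a.1 - b.1) = 0 := by
        linear_combination v.2 * e1 - u.2 * e2
      exact (mul_eq_zero.1 this).resolve_right hd
    · have : (u.1 * v.2 - u.2 * v.1) * (a.2 - b.2) = 0 := by
        linear_combination u.1 * e2 - v.1 * e1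
      exact (mul_eq_zero.1 this).resolve_right hd
  have hdot : (u.1 * v.1 + u.2 * v.2) ^ 2 = 1 := by
    have : (u.1 * v.1 + u.2 * v.2) ^ 2 + (u.1 * v.2 - u.2 * v.1) ^ 2 =
        (u.1 ^ 2 + u.2 ^ 2) * (v.1 ^ 2 + v.2 ^ 2) := by ring
    rw [hdet, hu, hv] at this
    linarith
  have hcase : u.1 * v.1 + u.2 * v.2 = 1 ∨ u.1 * v.1 + u.2 * v.2 = -1 := by
    have : (u.1 * v.1 + u.2 * v.2 - 1) * (u.1 * v.1 + u.2 * v.2 + 1) = 0 := by
      linear_combination hdot
    rcases mul_eq_zero.1 this with h | h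
    · left
      linarith
    · right
      linarith
  rcases hcase with h | h
  · left
    have hs : (u.1 - v.1) ^ 2 + (u.2 - v.2) ^ 2 = 0 := by nlinarith
    have hx : u.1 - v.1 = 0 := by nlinarith [sq_nonneg (u.1 - v.1), sq_nonneg (u.2 - v.2)]
    have hy : u.2 - v.2 = 0 := by nlinarith [sq_nonneg (u.1 - v.1), sq_nonneg (u.2 - v.2)]
    exact Prod.ext (by linarith) (by linarith)
  · right
    have hs : (u.1 + v.1) ^ 2 + (u.2 + v.2) ^ 2 = 0 := by nlinarith
    have hx : u.1 + v.1 = 0 := by nlinarith [sq_nonneg (u.1 + v.1), sq_nonneg (u.2 + v.2)]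
    have hy : u.2 + v.2 = 0 := by nlinarith [sq_nonneg (u.1 + v.1), sq_nonneg (u.2 + v.2)]
    exact Prod.ext (by simp only [Prod.fst_neg]; linarith) (by simp only [Prod.snd_neg]; linarith)

/-- the unit normal of the line through two points -/
private noncomputable def Cpx_nrm (p q : Pt) : Pt :=
  (-(q.2 - p.2) / Real.sqrt ((q.1 - p.1) ^ 2 + (q.2 - p.2) ^ 2),
    (q.1 - p.1) / Real.sqrt ((q.1 - p.1) ^ 2 + (q.2 - p.2) ^ 2))

private lemma Cpx_nrm_uv {p q : Pt} (h : p ≠ q) :
    UV (Cpx_nrm p q) ∧ dot (Cpx_nrm p q) p = dot (Cpx_nrm p q) q := by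
  have hpos : 0 < (q.1 - p.1) ^ 2 + (q.2 - p.2) ^ 2 := by
    have hd : q.1 - p.1 ≠ 0 ∨ q.2 - p.2 ≠ 0 := by
      by_contra hc
      push Not at hc
      exact h (Prod.ext (by linarith [hc.1]) (by linarith [hc.2]))
    rcases hd with hd | hd
    · positivity
    · positivity
  have hs : 0 < Real.sqrt ((q.1 - p.1) ^ 2 + (q.2 - p.2) ^ 2) := Real.sqrt_pos.2 hpos
  have hs2 := Real.sq_sqrt hpos.le
  constructor
  · unfold UV Cpx_nrm
    simp only
    rw [div_pow, div_pow, hs2, ← add_div, div_eq_one_iff_eq hpos.ne']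
    ring
  · unfold dot Cpx_nrm
    simp only
    field_simp
    ring

/- `D` = all the vectors `± rt (q - p) / |q - p|`; a unit vector orthogonal to `q - p ≠ 0` is one of
these two. -/
theorem exists_cpl (S : Finset Pt) : ∃ D : Finset Pt, Cpl D S := by
  classical
  refine ⟨(S.offDiag.image fun x => Cpx_nrm x.1 x.2) ∪
    (S.offDiag.image fun x => -Cpx_nrm x.1 x.2), ?_, ?_⟩
  · intro u hu
    rcases mem_union.1 hu with h | h
    · obtain ⟨x, hx, rfl⟩ := mem_image.1 h
      exact (Cpx_nrm_uv (mem_offDiag.1 hx).2.2).1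
    · obtain ⟨x, hx, rfl⟩ := mem_image.1 h
      exact Cpx_neg (Cpx_nrm_uv (mem_offDiag.1 hx).2.2).1
  · intro p hp q hq hpq u hu he
    obtain ⟨h1, h2⟩ := Cpx_nrm_uv hpq
    have hm : (p, q) ∈ S.offDiag := mem_offDiag.2 ⟨hp, hq, hpq⟩
    rcases Cpx_two hpq hu h1 he h2 with h | h
    · exact mem_union_left _ (mem_image.2 ⟨(p, q), hm, h.symm⟩)
    · exact mem_union_right _ (mem_image.2 ⟨(p, q), hm, h.symm⟩)

theorem Cpl.mono {D S S' : Finset Pt} (h : Cpl D S) (hs : S' ⊆ S) : Cpl D S' :=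
  ⟨h.1, fun p hp q hq => h.2 p (hs hp) q (hs hq)⟩

/- For `n = 1` the claim is trivial. Otherwise take `a ∈ A`, `b ∈ B` and the two unit normals
`u ≠ -u` of the line; both are in `D`, and the extreme set in both directions is all of `A ∪ B`. -/
theorem W_coll (D A B : Finset Pt) (n : ℕ) (hn : 1 ≤ n) (hd : Disjoint A B) (hA : A.card = n)
    (hB : B.card = n) (hD : Cpl D (A ∪ B)) (hc : Coll (A ∪ B)) : 2 * (n - 1) ≤ W D A B := by
  classical
  obtain ⟨a, ha⟩ := card_pos.1 (by omega : 0 < A.card)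
  obtain ⟨b, hb⟩ := card_pos.1 (by omega : 0 < B.card)
  have hab : a ≠ b := fun h => (disjoint_left.1 hd ha) (h ▸ hb)
  obtain ⟨f, hf, hfz⟩ := hc
  obtain ⟨h1, h2⟩ := Cpx_nrm_uv hab
  set u := Cpx_nrm a b with hu
  have haS : a ∈ A ∪ B := mem_union_left _ ha
  have hbS : b ∈ A ∪ B := mem_union_right _ hb
  have huD : u ∈ D := hD.2 a haS b hbS hab u h1 h2
  have h2' : dot (-u) a = dot (-u) b := by
    simp only [dot, Prod.fst_neg, Prod.snd_neg] at h2 ⊢
    linarith
  have hnD : -u ∈ D := hD.2 a haS b hbS hab (-u) (Cpx_neg h1) h2'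
  have hne : u ≠ -u := by
    intro h
    have e1 := congrArg Prod.fst h
    have e2 := congrArg Prod.snd h
    simp only [Prod.fst_neg, Prod.snd_neg] at e1 e2
    have e3 : u.1 = 0 := by linarith
    have e4 : u.2 = 0 := by linarith
    simp only [UV, e3, e4] at h1
    norm_num at h1
  -- all points have the same scalar product with `u`
  have hconst : ∀ x ∈ A ∪ B, dot u x = dot u a := by
    intro x hx
    have e1 := hfz x hx
    have e2 := hfz a haS
    have e3 := hfz b hbS
    simp only [Fn.ev] at e1 e2 e3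
    simp only [dot] at h2 ⊢
    have d1 : f.a * (x.1 - a.1) + f.b * (x.2 - a.2) = 0 := by linarith
    have d2 : f.a * (b.1 - a.1) + f.b * (b.2 - a.2) = 0 := by linarith
    have d3 : u.1 * (b.1 - a.1) + u.2 * (b.2 - a.2) = 0 := by linarith
    have hba : b.1 - a.1 ≠ 0 ∨ b.2 - a.2 ≠ 0 := by
      by_contra hc'
      push Not at hc'
      exact hab (Prod.ext (by linarith [hc'.1]) (by linarith [hc'.2]))
    have hdet : f.a * u.2 - f.b * u.1 = 0 := by
      rcases hba with h | h
      · have : (f.a * u.2 - f.b * u.1) * (b.1 - a.1) = 0 := by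
          linear_combination u.2 * d2 - f.b * d3
        exact (mul_eq_zero.1 this).resolve_right h
      · have : (f.a * u.2 - f.b * u.1) * (b.2 - a.2) = 0 := by
          linear_combination f.a * d3 - u.1 * d2
        exact (mul_eq_zero.1 this).resolve_right h
    have hz : u.1 * (x.1 - a.1) + u.2 * (x.2 - a.2) = 0 := by
      rcases hf with h | h
      · have : f.a * (u.1 * (x.1 - a.1) + u.2 * (x.2 - a.2)) = 0 := by
          linear_combination u.1 * d1 + (x.2 - a.2) * hdet
        exact (mul_eq_zero.1 this).resolve_left h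
      · have : f.b * (u.1 * (x.1 - a.1) + u.2 * (x.2 - a.2)) = 0 := by
          linear_combination u.2 * d1 - (x.1 - a.1) * hdet
        exact (mul_eq_zero.1 this).resolve_left h
    linarith
  have hmu : ∀ v, (∀ x ∈ A ∪ B, dot v x = dot v a) → mu v A B = n := by
    intro v hv
    have hface : face v (A ∪ B) = A ∪ B := by
      ext x
      rw [mem_face]
      refine ⟨fun h => h.1, fun h => ⟨h, fun y hy => ?_⟩⟩
      rw [hv y hy, hv x h]
    unfold mu
    rw [hface, inter_eq_right.2 subset_union_left, inter_eq_right.2 subset_union_right, hA, hB,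
      min_self]
  have hmu1 := hmu u hconst
  have hmu2 := hmu (-u) (fun x hx => by
    have := hconst x hx
    simp only [dot, Prod.fst_neg, Prod.snd_neg] at this ⊢
    linarith)
  unfold W
  have hsub : ({u, -u} : Finset Pt) ⊆ D := by
    intro x hx
    rw [mem_insert, mem_singleton] at hx
    rcases hx with rfl | rfl
    · exact huD
    · exact hnD
  refine le_trans ?_ (sum_le_sum_of_subset hsub)
  rw [sum_pair hne, hmu1, hmu2]
  omega

end Pool.PVG
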