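import Pool.Agent.PVG.Corner
import Pool.Agent.PVG.Cpx

namespace Pool.PVG

open Pool.Vis Finset

private lemma Trim_muk {A B : Finset Pt} {k : ℕ} (hk : HK k A B) {u : Pt} (hu : UV u)
    (hpos : 0 < mu u A B) : mu u A B ≤ k := by
  classical
  have hne : (face u (A ∪ B) ∩ A).Nonempty := by
    rw [← card_pos]
    exact lt_of_lt_of_le hpos (min_le_left _ _)
  obtain ⟨a, ha⟩ := hne
  rw [mem_inter] at ha
  obtain ⟨haS, ham⟩ := mem_face.1 ha.1
  have hnz : (dtf u (dot u a)).NZ := by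
    unfold Fn.NZ dtf
    by_contra hc
    push Not at hc
    exact uv_ne hu (Prod.ext hc.1 hc.2)
  have hz : ∀ x ∈ face u (A ∪ B), (dtf u (dot u a)).ev x = 0 := by
    intro x hx
    obtain ⟨hxS, hxm⟩ := mem_face.1 hx
    rw [ev_dtf]
    have h1 := ham x hxS
    have h2 := hxm a haS
    linarith
  refine hk (dtf u (dot u a)) hnz (mu u A B) ?_ ?_
  · refine (min_le_left _ _).trans (card_le_card fun x hx => ?_)
    rw [mem_inter] at hx
    exact mem_filter.2 ⟨hx.2, hz x hx.1⟩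
  · refine (min_le_right _ _).trans (card_le_card fun x hx => ?_)
    rw [mem_inter] at hx
    exact mem_filter.2 ⟨hx.2, hz x hx.1⟩

/-- the trimmed extreme set of a rich direction -/
private lemma Trim_one {A B : Finset Pt} (hd : Disjoint A B) {u : Pt} (h : 2 ≤ mu u A B) :
    ∃ (P : Pt) (E : Finset Pt), P ∈ face u (A ∪ B) ∧
      (∀ y ∈ face u (A ∪ B), dot (rt u) P ≤ dot (rt u) y) ∧ E ⊆ face u (A ∪ B) ∧ P ∉ E ∧
      E.card = 2 * mu u A B - 1 ∧ (∃ a ∈ E, a ∈ A) ∧ ∃ b ∈ E, b ∈ B := by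
  classical
  have hA : mu u A B ≤ (face u (A ∪ B) ∩ A).card := min_le_left _ _
  have hB : mu u A B ≤ (face u (A ∪ B) ∩ B).card := min_le_right _ _
  have hne : (face u (A ∪ B)).Nonempty := by
    obtain ⟨a, ha⟩ := card_pos.1 (by omega : 0 < (face u (A ∪ B) ∩ A).card)
    exact ⟨a, (mem_inter.1 ha).1⟩
  obtain ⟨P, hP, hPm⟩ := exists_min_image (face u (A ∪ B)) (fun y => dot (rt u) y) hne
  have hA' : 0 < (((face u (A ∪ B)) ∩ A).erase P).card := by
    have := pred_card_le_card_erase (s := (face u (A ∪ B)) ∩ A) (a := P)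
    omega
  have hB' : 0 < (((face u (A ∪ B)) ∩ B).erase P).card := by
    have := pred_card_le_card_erase (s := (face u (A ∪ B)) ∩ B) (a := P)
    omega
  obtain ⟨a, ha⟩ := card_pos.1 hA'
  obtain ⟨b, hb⟩ := card_pos.1 hB'
  rw [mem_erase, mem_inter] at ha hb
  have hab : a ≠ b := fun h' => (disjoint_left.1 hd ha.2.2) (h' ▸ hb.2.2)
  have hcard : 2 * mu u A B - 1 ≤ ((face u (A ∪ B)).erase P).card := by
    have h1 : (face u (A ∪ B) ∩ A).card + (face u (A ∪ B) ∩ B).card ≤ (face u (A ∪ B)).card := by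
      rw [← card_union_of_disjoint (disjoint_of_subset_left inter_subset_right
        (disjoint_of_subset_right inter_subset_right hd))]
      exact card_le_card (union_subset inter_subset_left inter_subset_left)
    have := pred_card_le_card_erase (s := face u (A ∪ B)) (a := P)
    omega
  have hsub : ({a, b} : Finset Pt) ⊆ (face u (A ∪ B)).erase P := by
    intro x hx
    rw [mem_insert, mem_singleton] at hx
    rcases hx with rfl | rfl
    · exact mem_erase.2 ⟨ha.1, ha.2.1⟩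
    · exact mem_erase.2 ⟨hb.1, hb.2.1⟩
  have h2 : ({a, b} : Finset Pt).card ≤ 2 * mu u A B - 1 := by
    rw [card_pair hab]
    omega
  obtain ⟨E, hE1, hE2, hE3⟩ := exists_subsuperset_card_eq hsub h2 hcard
  refine ⟨P, E, hP, hPm, fun x hx => (mem_erase.1 (hE2 hx)).2,
    fun hPE => (mem_erase.1 (hE2 hPE)).1 rfl, hE3, ⟨a, hE1 (mem_insert_self _ _), ha.2.2⟩,
    b, hE1 (mem_insert_of_mem (mem_singleton_self _)), hb.2.2⟩

private lemma Trim_line {u p r x : Pt} (hpr : p ≠ r) (he : dot u p = dot u r)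
    (ho : ori p r x = 0) : dot u x = dot u p := by
  have hd : r.1 - p.1 ≠ 0 ∨ r.2 - p.2 ≠ 0 := by
    by_contra hc
    push Not at hc
    exact hpr (Prod.ext (by linarith [hc.1]) (by linarith [hc.2]))
  simp only [dot, ori] at *
  rcases hd with h | h
  · have : (u.1 * x.1 + u.2 * x.2 - (u.1 * p.1 + u.2 * p.2)) * (r.1 - p.1) = 0 := by
      linear_combination u.2 * ho - (x.1 - p.1) * he
    have := (mul_eq_zero.1 this).resolve_right h
    linarith
  · have : (u.1 * x.1 + u.2 * x.2 - (u.1 * p.1 + u.2 * p.2)) * (r.2 - p.2) = 0 := by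
      linear_combination (-u.1) * ho - (x.2 - p.2) * he
    have := (mul_eq_zero.1 this).resolve_right h
    linarith

/- For every rich direction `u ∈ Ric D A B` let `P_u` be the start corner of `face u S`, `S = A ∪ B`,
and choose `E_u ⊆ face u S \ {P_u}` with `2 mu_u - 1` elements and containing a point of `A` and a
point of `B` (the set has at least `2 mu_u - 1 ≥ 3` points, and at least `mu_u - 1 ≥ 1` of each
colour). `H = ⋃ E_u`. By `corner` the `E_u` are pairwise disjoint. If three points of `H` are on a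
line `ℓ` then by `three` the line is the line of `face v S` (`v` unit, in `D` by completeness) and,
by `corner`, `H ∩ face v S ⊆ E_v ∪ {P_v}` (if `v` is rich), at most `2 mu_v ≤ 2 k` points, or has at
most one point (if `v` is not rich: `|face v S| ≥ 2`; a point of `E_u`, `u ≠ v`, on it is `P_v`). If
a line has at most two points of `H` use `1 ≤ k`. Not collinear: two rich directions `u ≠ v`: the
line of `face u S` does not contain two points of `E_v` (else `face u S`, `face v S` are on the same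
line, `v = ± u`; `v = -u` would make `S` collinear). -/
theorem trim (D A B : Finset Pt) (k : ℕ) (hd : Disjoint A B) (hk : HK k A B)
    (hD : Cpl D (A ∪ B)) (hnc : ¬ Coll (A ∪ B)) (h2 : 2 ≤ (Ric D A B).card) :
    ∃ (H : Finset Pt) (o : Pt), H ⊆ A ∪ B ∧ (∀ x ∈ H, Bd H o x) ∧ (H ∩ A).Nonempty ∧
      (H ∩ B).Nonempty ∧
      (∀ p ∈ H, ∀ r ∈ H, p ≠ r → (H.filter (fun x => ori p r x = 0)).card ≤ 2 * k) ∧
      (∀ p ∈ H, ∀ r ∈ H, p ≠ r → ∃ x ∈ H, ori p r x ≠ 0) ∧
      H.card = ∑ u ∈ Ric D A B, (2 * mu u A B - 1) := by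
  classical
  set S := A ∪ B with hS
  have hric : ∀ u ∈ Ric D A B, UV u ∧ 2 ≤ mu u A B := by
    intro u hu
    unfold Ric at hu
    rw [mem_filter] at hu
    exact ⟨hD.1 u hu.1, hu.2⟩
  have hchoice : ∀ u : Pt, ∃ (P : Pt) (E : Finset Pt), u ∈ Ric D A B → P ∈ face u (A ∪ B) ∧
      (∀ y ∈ face u (A ∪ B), dot (rt u) P ≤ dot (rt u) y) ∧ E ⊆ face u (A ∪ B) ∧ P ∉ E ∧
      E.card = 2 * mu u A B - 1 ∧ (∃ a ∈ E, a ∈ A) ∧ ∃ b ∈ E, b ∈ B := by
    intro u
    by_cases hu : u ∈ Ric D A B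
    · obtain ⟨P, E, h⟩ := Trim_one hd (hric u hu).2
      exact ⟨P, E, fun _ => h⟩
    · exact ⟨0, ∅, fun h => absurd h hu⟩
  choose P E hPE using hchoice
  -- points of trimmed sets in other extreme sets
  have hcor : ∀ u ∈ Ric D A B, ∀ x ∈ E u, ∀ v, UV v → v ≠ u → x ∈ face v S →
      ∀ r ∈ face v S, (∀ y ∈ face v S, dot (rt v) r ≤ dot (rt v) y) → x = r := by
    intro u hu x hx v hv hvu hxv r hr hrm
    obtain ⟨hP1, hP2, hP3, hP4, -⟩ := hPE u hu
    rcases corner S hnc u v x (P u) r (hric u hu).1 hv (Ne.symm hvu) (hP3 hx) hxv hP1 hP2 hr hrm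
      with h | h
    · exact absurd (h ▸ hx) hP4
    · exact h
  have hdisj : (Ric D A B : Set Pt).PairwiseDisjoint E := by
    intro u hu v hv huv
    rw [Function.onFun, disjoint_left]
    intro x hxu hxv
    have h1 := hcor u hu x hxu v (hric v hv).1 (Ne.symm huv) ((hPE v hv).2.2.1 hxv) (P v)
      (hPE v hv).1 (hPE v hv).2.1
    exact (hPE v hv).2.2.2.1 (h1 ▸ hxv)
  obtain ⟨o, ho⟩ := centroid S hnc
  obtain ⟨u₀, hu₀, v₀, hv₀, huv₀⟩ := one_lt_card.1 (by omega : 1 < (Ric D A B).card)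
  have hk2 : 2 ≤ k := (hric u₀ hu₀).2.trans (Trim_muk hk (hric u₀ hu₀).1
    (by have := (hric u₀ hu₀).2; omega))
  have hHmem : ∀ x, x ∈ (Ric D A B).biUnion E ↔ ∃ u ∈ Ric D A B, x ∈ E u := fun x => mem_biUnion
  have hHS : (Ric D A B).biUnion E ⊆ S := by
    intro x hx
    obtain ⟨u, hu, hxu⟩ := (hHmem x).1 hx
    exact (mem_face.1 ((hPE u hu).2.2.1 hxu)).1
  refine ⟨(Ric D A B).biUnion E, o, hHS, ?_, ?_, ?_, ?_, ?_, ?_⟩
  · intro x hx
    obtain ⟨u, hu, hxu⟩ := (hHmem x).1 hx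
    obtain ⟨φ, h1, h3, h4⟩ := ho u x (hric u hu).1 ((hPE u hu).2.2.1 hxu)
    exact ⟨φ, h1, h3, fun y hy => h4 y (hHS hy)⟩
  · obtain ⟨a, ha, haA⟩ := (hPE u₀ hu₀).2.2.2.2.2.1
    exact ⟨a, mem_inter.2 ⟨(hHmem a).2 ⟨u₀, hu₀, ha⟩, haA⟩⟩
  · obtain ⟨b, hb, hbB⟩ := (hPE u₀ hu₀).2.2.2.2.2.2
    exact ⟨b, mem_inter.2 ⟨(hHmem b).2 ⟨u₀, hu₀, hb⟩, hbB⟩⟩
  · intro p hp r hr hpr
    by_cases hz : ∃ z ∈ (Ric D A B).biUnion E, z ≠ p ∧ z ≠ r ∧ ori p r z = 0
    · obtain ⟨z, hzH, hzp, hzr, hzo⟩ := hz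
      have hext : ∀ x ∈ (Ric D A B).biUnion E, ∃ u, UV u ∧ x ∈ face u S := by
        intro x hx
        obtain ⟨u, hu, hxu⟩ := (hHmem x).1 hx
        exact ⟨u, (hric u hu).1, (hPE u hu).2.2.1 hxu⟩
      obtain ⟨v, hv, hpv, hrv, hzv⟩ := three S p r z (hext p hp) (hext r hr) (hext z hzH) hpr
        (Ne.symm hzr) (Ne.symm hzp) hzo
      have hpS := (mem_face.1 hpv).1
      have hrS := (mem_face.1 hrv).1
      have hdot : dot v p = dot v r :=
        le_antisymm ((mem_face.1 hrv).2 p hpS) ((mem_face.1 hpv).2 r hrS)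
      have hvD : v ∈ D := hD.2 p hpS r hrS hpr v hv hdot
      have hin : ∀ x ∈ ((Ric D A B).biUnion E).filter (fun x => ori p r x = 0), x ∈ face v S := by
        intro x hx
        rw [mem_filter] at hx
        have h1 := Trim_line hpr hdot hx.2
        refine mem_face.2 ⟨hHS hx.1, fun y hy => ?_⟩
        rw [h1]
        exact (mem_face.1 hpv).2 y hy
      by_cases hvR : v ∈ Ric D A B
      · obtain ⟨hP1, hP2, hP3, hP4, hP5, -⟩ := hPE v hvR
        have hsub : ((Ric D A B).biUnion E).filter (fun x => ori p r x = 0) ⊆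
            insert (P v) (E v) := by
          intro x hx
          have hxv := hin x hx
          rw [mem_filter] at hx
          obtain ⟨u, hu, hxu⟩ := (hHmem x).1 hx.1
          by_cases huv : v = u
          · subst huv
            exact mem_insert_of_mem hxu
          · rw [hcor u hu x hxu v hv huv hxv (P v) hP1 hP2]
            exact mem_insert_self _ _
        have h3 := card_le_card hsub
        rw [card_insert_of_notMem hP4, hP5] at h3
        have h4 := Trim_muk hk hv (by have := (hric v hvR).2; omega)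
        have h5 := (hric v hvR).2
        omega
      · exfalso
        obtain ⟨q, hq, hqm⟩ := exists_min_image (face v S) (fun y => dot (rt v) y) ⟨p, hpv⟩
        have hall : ∀ x ∈ (Ric D A B).biUnion E, x ∈ face v S → x = q := by
          intro x hx hxv
          obtain ⟨u, hu, hxu⟩ := (hHmem x).1 hx
          have huv : v ≠ u := fun h => hvR (h ▸ hu)
          exact hcor u hu x hxu v hv huv hxv q hq hqm
        exact hpr ((hall p hp hpv).trans (hall r hr hrv).symm)
    · have hsub : ((Ric D A B).biUnion E).filter (fun x => ori p r x = 0) ⊆ {p, r} := by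
        intro x hx
        rw [mem_filter] at hx
        rw [mem_insert, mem_singleton]
        by_contra hc
        push Not at hc
        exact hz ⟨x, hx.1, hc.1, hc.2, hx.2⟩
      have h3 := card_le_card hsub
      rw [card_pair hpr] at h3
      omega
  · intro p hp r hr hpr
    by_contra hc
    push Not at hc
    obtain ⟨a, ha, haA⟩ := (hPE u₀ hu₀).2.2.2.2.2.1
    obtain ⟨b, hb, hbB⟩ := (hPE u₀ hu₀).2.2.2.2.2.2
    obtain ⟨a', ha', haA'⟩ := (hPE v₀ hv₀).2.2.2.2.2.1
    obtain ⟨b', hb', hbB'⟩ := (hPE v₀ hv₀).2.2.2.2.2.2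
    have hab : a ≠ b := fun h' => (disjoint_left.1 hd haA) (h' ▸ hbB)
    have hab' : a' ≠ b' := fun h' => (disjoint_left.1 hd haA') (h' ▸ hbB')
    have hmH : ∀ u ∈ Ric D A B, ∀ x ∈ E u, ori p r x = 0 := fun u hu x hx =>
      hc x ((hHmem x).2 ⟨u, hu, hx⟩)
    -- any two points of H determine the same line
    have hcol : ∀ w z x : Pt, ori p r w = 0 → ori p r z = 0 → ori p r x = 0 → ori w z x = 0 := by
      intro w z x hw hz hx
      have hd' : r.1 - p.1 ≠ 0 ∨ r.2 - p.2 ≠ 0 := by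
        by_contra hc'
        push Not at hc'
        exact hpr (Prod.ext (by linarith [hc'.1]) (by linarith [hc'.2]))
      simp only [ori] at *
      rcases hd' with h | h
      · have : ((z.1 - w.1) * (x.2 - w.2) - (z.2 - w.2) * (x.1 - w.1)) * (r.1 - p.1) = 0 := by
          linear_combination (z.1 - w.1) * (hx - hw) - (x.1 - w.1) * (hz - hw)
        exact (mul_eq_zero.1 this).resolve_right h
      · have : ((z.1 - w.1) * (x.2 - w.2) - (z.2 - w.2) * (x.1 - w.1)) * (r.2 - p.2) = 0 := by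
          linear_combination (z.2 - w.2) * (hx - hw) - (x.2 - w.2) * (hz - hw)
        exact (mul_eq_zero.1 this).resolve_right h
    have hav : ∀ x ∈ E u₀, x ∈ face v₀ S := by
      intro x hx
      have h1 : ori a' b' x = 0 := hcol a' b' x (hmH v₀ hv₀ a' ha') (hmH v₀ hv₀ b' hb')
        (hmH u₀ hu₀ x hx)
      have fa := mem_face.1 ((hPE v₀ hv₀).2.2.1 ha')
      have fb := mem_face.1 ((hPE v₀ hv₀).2.2.1 hb')
      have h3 : dot v₀ a' = dot v₀ b' := le_antisymm (fb.2 a' fa.1) (fa.2 b' fb.1)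
      have h4 := Trim_line hab' h3 h1
      refine mem_face.2 ⟨(mem_face.1 ((hPE u₀ hu₀).2.2.1 hx)).1, fun y hy => ?_⟩
      rw [h4]
      exact fa.2 y hy
    have e1 := hcor u₀ hu₀ a ha v₀ (hric v₀ hv₀).1 (Ne.symm huv₀) (hav a ha) (P v₀)
      (hPE v₀ hv₀).1 (hPE v₀ hv₀).2.1
    have e2 := hcor u₀ hu₀ b hb v₀ (hric v₀ hv₀).1 (Ne.symm huv₀) (hav b hb) (P v₀)
      (hPE v₀ hv₀).1 (hPE v₀ hv₀).2.1
    exact hab (e1.trans e2.symm)
  · rw [card_biUnion (fun u hu v hv huv => hdisj hu hv huv)]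
    exact sum_congr rfl fun u hu => (hPE u hu).2.2.2.2.1

end Pool.PVG
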