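import Pool.Agent.PVG.Defs

namespace Pool.PVG

open Pool.Vis Finset

/-- the angle of `x` seen from `o` -/
noncomputable def ordTh (o x : Pt) : ℝ := Complex.arg ⟨x.1 - o.1, x.2 - o.2⟩

/-- the distance of `x` from `o` -/
noncomputable def ordR (o x : Pt) : ℝ := ‖(⟨x.1 - o.1, x.2 - o.2⟩ : ℂ)‖

theorem ord_cos (o x : Pt) : ordR o x * Real.cos (ordTh o x) = x.1 - o.1 :=
  Complex.norm_mul_cos_arg _

theorem ord_sin (o x : Pt) : ordR o x * Real.sin (ordTh o x) = x.2 - o.2 :=
  Complex.norm_mul_sin_arg _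

theorem ordR_nonneg (o x : Pt) : 0 ≤ ordR o x := norm_nonneg _

theorem ori_eq_sin (o x y : Pt) :
    ori o x y = ordR o x * ordR o y * Real.sin (ordTh o y - ordTh o x) := by
  rw [Real.sin_sub, ori, ← ord_cos o x, ← ord_sin o x, ← ord_cos o y, ← ord_sin o y]
  ring

theorem ordTh_mem (o x : Pt) : -Real.pi < ordTh o x ∧ ordTh o x ≤ Real.pi :=
  ⟨Complex.neg_pi_lt_arg _, Complex.arg_le_pi _⟩

/-- three consecutive points -/
theorem ord_tri {H : Finset Pt} {o x y z : Pt} (hB : Bd H o y) (hx : x ∈ H) (hz : z ∈ H)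
    (h1 : 0 ≤ ori o x y) (h2 : 0 ≤ ori o y z) : 0 ≤ ori x y z := by
  obtain ⟨φ, h0, hm, hle⟩ := hB
  have hx' := hle x hx
  have hz' := hle z hz
  have e1 : ori x y z = ori o x y + ori o y z - ori o x z := by
    simp only [ori]; ring
  have e2 : ori o x z * (φ.ev y - φ.ev o) =
      ori o y z * (φ.ev x - φ.ev o) + ori o x y * (φ.ev z - φ.ev o) := by
    simp only [ori, Fn.ev]; ring
  rw [h0] at e2
  have e3 : 0 ≤ (ori o x y + ori o y z - ori o x z) * (0 - φ.ev o) := by
    have a1 : 0 ≤ ori o y z * (0 - φ.ev x) := mul_nonneg h2 (by linarith)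
    have a2 : 0 ≤ ori o x y * (0 - φ.ev z) := mul_nonneg h1 (by linarith)
    nlinarith [a1, a2, e2]
  rw [e1]
  exact nonneg_of_mul_nonneg_left e3 (by linarith)

/-- the angle is injective -/
theorem ord_r_le {H : Finset Pt} {o x y : Pt} (hB : Bd H o x) (hy : y ∈ H)
    (h : ordTh o x = ordTh o y) : ordR o y ≤ ordR o x := by
  obtain ⟨φ, h0, hm, hle⟩ := hB
  have hy' := hle y hy
  by_contra hc
  push Not at hc
  have c1 := ord_cos o x
  have c2 := ord_sin o x
  have c3 := ord_cos o y
  have c4 := ord_sin o y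
  rw [← h] at c3 c4
  set c := Real.cos (ordTh o x)
  set s := Real.sin (ordTh o x)
  set r := ordR o x
  set R := ordR o y
  have e1 : φ.ev x = φ.ev o + r * (φ.a * c + φ.b * s) := by
    simp only [Fn.ev]
    linear_combination (-φ.a) * c1 - φ.b * c2
  have e2 : φ.ev y = φ.ev o + R * (φ.a * c + φ.b * s) := by
    simp only [Fn.ev]
    linear_combination (-φ.a) * c3 - φ.b * c4
  have hr : 0 ≤ r := ordR_nonneg o x
  have hR : 0 < R := lt_of_le_of_lt hr hc
  set m := φ.a * c + φ.b * s
  have hpos : 0 < r * m := by linarith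
  have hm0 : 0 < m := by
    by_contra hm0
    push Not at hm0
    have := mul_nonpos_of_nonneg_of_nonpos hr hm0
    linarith
  have : r * m < R * m := mul_lt_mul_of_pos_right hc hm0
  linarith

theorem ord_inj {H : Finset Pt} {o : Pt} (hB : ∀ x ∈ H, Bd H o x) {x y : Pt} (hx : x ∈ H)
    (hy : y ∈ H) (h : ordTh o x = ordTh o y) : x = y := by
  have hr : ordR o x = ordR o y :=
    le_antisymm (ord_r_le (hB y hy) hx h.symm) (ord_r_le (hB x hx) hy h)
  have c1 := ord_cos o x
  have c2 := ord_sin o x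
  have c3 := ord_cos o y
  have c4 := ord_sin o y
  rw [h, hr] at c1 c2
  exact Prod.ext (by linarith) (by linarith)

/- Sort `H` by the angle `θ(x) = Complex.arg (x - o)` (in `(-π, π]`). `θ` is injective on `H`: if
`y - o = λ (x - o)`, `λ > 1` then `x` is strictly between `o` and `y`, but the functional of `Bd` at
`x` is negative at `o` and `≤ 0` at `y`. For `i < j < l` with vectors `x, y, z` from `o`
(`θ x < θ y < θ z`): `ori = x × y + y × z + z × x` and `x × y = |x||y| sin (θ y - θ x)` etc. If none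
of the three cyclic angle differences exceeds `π` all three terms are `≥ 0`. If one of them does,
say (after a cyclic exchange) the one from `z` to `x`, then `x × z > 0` and `y = α x + β z` with
`α = (y × z)/(x × z) > 0`, `β = (x × y)/(x × z) > 0` and `ori = (α + β - 1)(x × z)`; `α + β < 1` would
make the functional of `Bd` at `y` negative at `y`. -/
theorem ord (H : Finset Pt) (o : Pt) (hB : ∀ x ∈ H, Bd H o x) :
    ∃ q : ℕ → Pt, OT q H.card ∧ Inj q H.card ∧ (∀ i < H.card, q i ∈ H) ∧
      ∀ x ∈ H, ∃ i < H.card, q i = x := by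
  classical
  have hinj : Set.InjOn (ordTh o) (H : Set Pt) := fun x hx y hy h => ord_inj hB hx hy h
  have hcard : (H.image (ordTh o)).card = H.card := Finset.card_image_of_injOn hinj
  set e := (H.image (ordTh o)).orderEmbOfFin hcard with he
  have hg : ∀ k : Fin H.card, ∃ x ∈ H, ordTh o x = e k := by
    intro k
    exact Finset.mem_image.1 (Finset.orderEmbOfFin_mem _ hcard k)
  choose g hgH hgT using hg
  have hlt : ∀ a b : Fin H.card, a < b → ordTh o (g a) < ordTh o (g b) := by
    intro a b hab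
    rw [hgT, hgT]
    exact e.strictMono hab
  refine ⟨fun i => if h : i < H.card then g ⟨i, h⟩ else 0, ?_, ?_, ?_, ?_⟩
  · intro i j l hij hjl hl
    have hj : j < H.card := by omega
    have hi : i < H.card := by omega
    simp only [dif_pos hi, dif_pos hj, dif_pos hl]
    have a1 := hlt ⟨i, hi⟩ ⟨j, hj⟩ hij
    have a2 := hlt ⟨j, hj⟩ ⟨l, hl⟩ hjl
    have m1 := hgH ⟨i, hi⟩
    have m2 := hgH ⟨j, hj⟩
    have m3 := hgH ⟨l, hl⟩
    generalize g ⟨i, hi⟩ = x at *
    generalize g ⟨j, hj⟩ = y at *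
    generalize g ⟨l, hl⟩ = z at *
    have bx := ordTh_mem o x
    have bz := ordTh_mem o z
    have hpi := Real.pi_pos
    have s1 : ordTh o y - ordTh o x ≤ Real.pi → 0 ≤ ori o x y := by
      intro h
      rw [ori_eq_sin]
      exact mul_nonneg (mul_nonneg (ordR_nonneg _ _) (ordR_nonneg _ _))
        (Real.sin_nonneg_of_nonneg_of_le_pi (by linarith) h)
    have s2 : ordTh o z - ordTh o y ≤ Real.pi → 0 ≤ ori o y z := by
      intro h
      rw [ori_eq_sin]
      exact mul_nonneg (mul_nonneg (ordR_nonneg _ _) (ordR_nonneg _ _))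
        (Real.sin_nonneg_of_nonneg_of_le_pi (by linarith) h)
    have s3 : Real.pi ≤ ordTh o z - ordTh o x → 0 ≤ ori o z x := by
      intro h
      rw [ori_eq_sin]
      refine mul_nonneg (mul_nonneg (ordR_nonneg _ _) (ordR_nonneg _ _)) ?_
      rw [← Real.sin_add_two_pi]
      exact Real.sin_nonneg_of_nonneg_of_le_pi (by linarith) (by linarith)
    by_cases c1 : ordTh o y - ordTh o x ≤ Real.pi
    · by_cases c2 : ordTh o z - ordTh o y ≤ Real.pi
      · exact ord_tri (hB y m2) m1 m3 (s1 c1) (s2 c2)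
      · have c3 : Real.pi ≤ ordTh o z - ordTh o x := by linarith
        rw [ori_cyc, ori_cyc]
        exact ord_tri (hB x m1) m3 m2 (s3 c3) (s1 c1)
    · have c2 : ordTh o z - ordTh o y ≤ Real.pi := by linarith
      have c3 : Real.pi ≤ ordTh o z - ordTh o x := by linarith
      rw [ori_cyc]
      exact ord_tri (hB z m3) m2 m1 (s2 c2) (s3 c3)
  · intro i hi j hj h
    simp only [dif_pos hi, dif_pos hj] at h
    have h' : (⟨i, hi⟩ : Fin H.card) = ⟨j, hj⟩ := by
      apply e.injective
      rw [← hgT, ← hgT, h]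
    exact Fin.mk.inj_iff.1 h'
  · intro i hi
    simp only [dif_pos hi]
    exact hgH _
  · intro x hx
    have hx' : ordTh o x ∈ Set.range e := by
      rw [he, Finset.range_orderEmbOfFin]
      exact Finset.mem_coe.2 (Finset.mem_image_of_mem _ hx)
    obtain ⟨k, hk⟩ := hx'
    refine ⟨k, k.2, ?_⟩
    simp only [dif_pos k.2]
    exact ord_inj hB (hgH k) hx ((hgT k).trans hk)

end Pool.PVG
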