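import Pool.Agent.PVG.Defs

namespace Pool.PVG

open Pool.Vis Finset

/-- the value of a rotated index -/
theorem rot_val {h s i : ℕ} (hs : s < h) (hi : i < h) :
    (i + s < h ∧ (i + s) % h = i + s) ∨ (h ≤ i + s ∧ (i + s) % h = i + s - h) := by
  by_cases hc : i + s < h
  · exact Or.inl ⟨hc, Nat.mod_eq_of_lt hc⟩
  · push Not at hc
    refine Or.inr ⟨hc, ?_⟩
    rw [Nat.mod_eq_sub_mod hc, Nat.mod_eq_of_lt (by omega)]

theorem rot_OT (q : ℕ → Pt) (h s : ℕ) (hs : s < h) (hOT : OT q h) :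
    OT (fun i => q ((i + s) % h)) h := by
  intro i j l hij hjl hl
  change 0 ≤ ori (q ((i + s) % h)) (q ((j + s) % h)) (q ((l + s) % h))
  rcases rot_val hs (show i < h by omega) with ⟨h1, e1⟩ | ⟨h1, e1⟩ <;>
  rcases rot_val hs (show j < h by omega) with ⟨h2, e2⟩ | ⟨h2, e2⟩ <;>
  rcases rot_val hs hl with ⟨h3, e3⟩ | ⟨h3, e3⟩ <;>
  rw [e1, e2, e3]
  · exact hOT _ _ _ (by omega) (by omega) (by omega)
  · rw [ori_cyc, ori_cyc]
    exact hOT _ _ _ (by omega) (by omega) (by omega)
  · omega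
  · rw [ori_cyc]
    exact hOT _ _ _ (by omega) (by omega) (by omega)
  · omega
  · omega
  · omega
  · exact hOT _ _ _ (by omega) (by omega) (by omega)

theorem rot_Inj (q : ℕ → Pt) (h s : ℕ) (hs : s < h) (hinj : Inj q h) :
    Inj (fun i => q ((i + s) % h)) h := by
  intro i hi j hj hij
  have hh : 0 < h := by omega
  have e := hinj _ (Nat.mod_lt (i + s) hh) _ (Nat.mod_lt (j + s) hh) hij
  rcases rot_val hs hi with ⟨h1, e1⟩ | ⟨h1, e1⟩ <;>
  rcases rot_val hs hj with ⟨h2, e2⟩ | ⟨h2, e2⟩ <;>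
  rw [e1, e2] at e <;> omega

/- Otherwise `f` is constant on `{0, …, h-1}`. -/
theorem rot_col (f : ℕ → Bool) (h i j : ℕ) (hi : i < h) (hj : j < h) (hij : f i ≠ f j) :
    ∃ s < h, f ((0 + s) % h) ≠ f ((h - 1 + s) % h) := by
  by_contra hc
  push Not at hc
  have key : ∀ k < h, f k = f 0 := by
    intro k
    induction k with
    | zero => intro _; rfl
    | succ k ih =>
      intro hk
      have h1 := hc (k + 1) hk
      have e1 : (0 + (k + 1)) % h = k + 1 := by
        rw [zero_add]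
        exact Nat.mod_eq_of_lt hk
      have e2 : (h - 1 + (k + 1)) % h = k := by
        have : h - 1 + (k + 1) = k + h := by omega
        rw [this, Nat.add_mod_right]
        exact Nat.mod_eq_of_lt (by omega)
      rw [e1, e2] at h1
      rw [h1]
      exact ih (by omega)
  exact hij ((key i hi).trans (key j hj).symm)

end Pool.PVG
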