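import Pool.Agent.PVG.Zidx
import Pool.Agent.PVG.Ord
import Pool.Agent.PVG.Rot

namespace Pool.PVG

open Pool.Vis Finset

/- `ord`, then rotate (`rot_col` with `f i = decide (q i ∈ A)`), then `zidx`. -/
theorem zig (A B C H : Finset Pt) (o : Pt) (L : ℕ) (hd : Disjoint A B) (hH : H ⊆ A ∪ B)
    (hB : ∀ x ∈ H, Bd H o x) (hHA : (H ∩ A).Nonempty) (hHB : (H ∩ B).Nonempty)
    (hL : ∀ p ∈ H, ∀ r ∈ H, p ≠ r → (H.filter (fun x => ori p r x = 0)).card ≤ L)
    (hnc : ∀ p ∈ H, ∀ r ∈ H, p ≠ r → ∃ x ∈ H, ori p r x ≠ 0)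
    (hblk : Blk A B C) : H.card + 1 ≤ C.card + 2 * L := by
  classical
  obtain ⟨q, hOT, hinj, hqH, hsurj⟩ := ord H o hB
  obtain ⟨a, ha⟩ := hHA
  obtain ⟨b, hb⟩ := hHB
  rw [mem_inter] at ha hb
  obtain ⟨i, hi, hia⟩ := hsurj a ha.1
  obtain ⟨j, hj, hjb⟩ := hsurj b hb.1
  have hfi : decide (q i ∈ A) = true := by rw [hia]; exact decide_eq_true ha.2
  have hfj : decide (q j ∈ A) = false := by
    rw [hjb]; exact decide_eq_false (fun h => Finset.disjoint_left.1 hd h hb.2)
  have hij : decide (q i ∈ A) ≠ decide (q j ∈ A) := by rw [hfi, hfj]; decide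
  have hne : i ≠ j := by rintro rfl; exact hij rfl
  obtain ⟨s, hs, hsf⟩ := rot_col (fun l => decide (q l ∈ A)) H.card i j hi hj hij
  have hpos : 0 < H.card := by omega
  have hmod : ∀ l, (l + s) % H.card < H.card := fun l => Nat.mod_lt _ hpos
  have hOT' := rot_OT q H.card s hs hOT
  have hinj' := rot_Inj q H.card s hs hinj
  refine zidx (fun l => q ((l + s) % H.card)) H.card (fun l => decide (q ((l + s) % H.card) ∈ A))
    A B C (by omega) hOT' hinj' ?_ hsf L ?_ ?_ hblk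
  · intro l _
    refine ⟨fun h => of_decide_eq_true h, fun h => ?_⟩
    have h1 := of_decide_eq_false h
    rcases mem_union.1 (hH (hqH _ (hmod l))) with h2 | h2
    · exact absurd h2 h1
    · exact h2
  · intro x hx y hy hxy
    have hqne : q ((x + s) % H.card) ≠ q ((y + s) % H.card) := fun h => hxy (hinj' x hx y hy h)
    refine le_trans ?_ (hL _ (hqH _ (hmod x)) _ (hqH _ (hmod y)) hqne)
    refine card_le_card_of_injOn (fun l => q ((l + s) % H.card)) ?_ ?_
    · intro l hl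
      have hl' := mem_filter.1 hl
      exact mem_filter.2 ⟨hqH _ (hmod l), hl'.2⟩
    · intro l hl l' hl' h
      have h1 := mem_filter.1 (Finset.mem_coe.1 hl)
      have h2 := mem_filter.1 (Finset.mem_coe.1 hl')
      exact hinj' l (mem_range.1 h1.1) l' (mem_range.1 h2.1) h
  · intro x hx y hy hxy
    have hqne : q ((x + s) % H.card) ≠ q ((y + s) % H.card) := fun h => hxy (hinj' x hx y hy h)
    obtain ⟨z, hz, hz'⟩ := hnc _ (hqH _ (hmod x)) _ (hqH _ (hmod y)) hqne
    obtain ⟨l, hl, hlz⟩ := hsurj z hz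
    refine ⟨(l + (H.card - s)) % H.card, Nat.mod_lt _ hpos, ?_⟩
    have h1 : ((l + (H.card - s)) % H.card + s) % H.card = l := by
      rw [Nat.mod_add_mod, add_assoc, Nat.sub_add_cancel hs.le, Nat.add_mod_right,
        Nat.mod_eq_of_lt hl]
    simp only [h1, hlz]
    exact hz'

end Pool.PVG
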