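import Pool.Agent.PVG.Rpr
import Pool.Agent.PVG.Zig
import Pool.Agent.PVG.Trim

namespace Pool.PVG

open Pool.Vis Finset

/- `mu u A B ≤ k` for every unit vector `u`. -/
theorem mu_le (A B : Finset Pt) (k : ℕ) (hk : HK k A B) (u : Pt) (hu : UV u) : mu u A B ≤ k := by
  classical
  rcases (face u (A ∪ B)).eq_empty_or_nonempty with h0 | ⟨x0, hx0⟩
  · unfold mu
    rw [h0]
    simp
  have hnz : (dtf u (dot u x0)).NZ := by
    unfold Fn.NZ dtf
    by_contra hc
    push Not at hc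
    apply uv_ne hu
    exact Prod.ext hc.1 hc.2
  have hx := mem_face.1 hx0
  have hsub : ∀ T : Finset Pt, face u (A ∪ B) ∩ T ⊆
      T.filter (fun p => (dtf u (dot u x0)).ev p = 0) := by
    intro T p hp
    rw [mem_inter] at hp
    rw [mem_filter, ev_dtf]
    have h1 := mem_face.1 hp.1
    have h2 := h1.2 x0 hx.1
    have h3 := hx.2 p h1.1
    exact ⟨hp.2, by linarith⟩
  refine hk _ hnz _ ?_ ?_
  · exact (min_le_left _ _).trans (card_le_card (hsub A))
  · exact (min_le_right _ _).trans (card_le_card (hsub B))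

/- `W D A B = ∑ u ∈ Ric D A B, (mu u A B - 1)`. -/
theorem W_ric (D A B : Finset Pt) : W D A B = ∑ u ∈ Ric D A B, (mu u A B - 1) := by
  unfold W Ric
  symm
  apply sum_filter_of_ne
  intro u _ h
  omega

/- With `M = W D A B`, `E = (Ric D A B).card`: `rprime` gives `2 n ≤ c + 1 + M`. If `E ≤ 2`,
`M ≤ 2 (k - 1)`. If `E ≥ 3`, `trim` and `zig` with `L = 2 k` give `2 M + E + 1 ≤ c + 4 k`. -/
theorem mainc (k n : ℕ) (A B C : Finset Pt) (hA : A.card = n) (hB : B.card = n) (hn : 1 ≤ n)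
    (hd : Disjoint A B) (hk : HK k A B) (hk1 : 1 ≤ k) (hblk : Blk A B C)
    (hnc : ¬ Coll (A ∪ B)) :
    2 * n + 1 ≤ C.card + 2 * k ∨ 4 * n + 2 ≤ 3 * C.card + 4 * k := by
  obtain ⟨D, hD⟩ := exists_cpl (A ∪ B)
  have h1 := rprime D n A B C hA hB hn hd hD hblk
  rw [W_ric] at h1
  by_cases hE : (Ric D A B).card ≤ 2
  · left
    have h2 : ∑ u ∈ Ric D A B, (mu u A B - 1) ≤ (Ric D A B).card * (k - 1) := by
      rw [← smul_eq_mul]
      apply sum_le_card_nsmul
      intro u hu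
      have := mu_le A B k hk u (hD.1 u (mem_filter.1 hu).1)
      omega
    have h3 : (Ric D A B).card * (k - 1) ≤ 2 * (k - 1) := Nat.mul_le_mul_right _ hE
    omega
  · right
    obtain ⟨H, o, hH, hBd, hHA, hHB, hL, hnc', hcard⟩ := trim D A B k hd hk hD hnc (by omega)
    have h2 := zig A B C H o (2 * k) hd hH hBd hHA hHB hL hnc' hblk
    have h3 : ∑ u ∈ Ric D A B, (2 * mu u A B - 1) =
        2 * ∑ u ∈ Ric D A B, (mu u A B - 1) + (Ric D A B).card := by
      rw [mul_sum, card_eq_sum_ones, ← sum_add_distrib]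
      apply sum_congr rfl
      intro u hu
      have := (mem_filter.1 hu).2
      omega
    rw [hcard, h3] at h2
    omega

end Pool.PVG
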