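import Pool.Agent.PVG.Count

namespace Pool.PVG

open Pool.Vis Finset

/- The same count with the number of rich directions bounded below by `M / (k - 1)`. -/
theorem mainc2 (k n : ℕ) (A B C : Finset Pt) (hA : A.card = n) (hB : B.card = n) (hn : 1 ≤ n)
    (hd : Disjoint A B) (hk : HK k A B) (hk1 : 1 ≤ k) (hblk : Blk A B C)
    (hnc : ¬ Coll (A ∪ B)) :
    2 * n + 1 ≤ C.card + 2 * k ∨ (4 * n + 2 ≤ 3 * C.card + 4 * k ∧
      (4 * k - 2) * n + 3 * k ≤ (3 * k - 2) * C.card + 4 * k ^ 2) := by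
  obtain ⟨D, hD⟩ := exists_cpl (A ∪ B)
  have h1 := rprime D n A B C hA hB hn hd hD hblk
  rw [W_ric] at h1
  have hM : ∑ u ∈ Ric D A B, (mu u A B - 1) ≤ (Ric D A B).card * (k - 1) := by
    rw [← smul_eq_mul]
    apply sum_le_card_nsmul
    intro u hu
    have := mu_le A B k hk u (hD.1 u (mem_filter.1 hu).1)
    omega
  by_cases hE : (Ric D A B).card ≤ 2
  · left
    have h3 : (Ric D A B).card * (k - 1) ≤ 2 * (k - 1) := Nat.mul_le_mul_right _ hE
    omega
  · right
    obtain ⟨H, o, hH, hBd, hHA, hHB, hL, hnc', hcard⟩ := trim D A B k hd hk hD hnc (by omega)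
    have h2 := zig A B C H o (2 * k) hd hH hBd hHA hHB hL hnc' hblk
    have h3 : ∑ u ∈ Ric D A B, (2 * mu u A B - 1) =
        2 * ∑ u ∈ Ric D A B, (mu u A B - 1) + (Ric D A B).card := by
      rw [mul_sum, card_eq_sum_ones, ← sum_add_distrib]
      apply sum_congr rfl
      intro u hu
      have := (mem_filter.1 hu).2
      omega
    rw [hcard, h3] at h2
    refine ⟨by omega, ?_⟩
    obtain ⟨j, rfl⟩ : ∃ j, k = j + 1 := ⟨k - 1, by omega⟩
    generalize (∑ u ∈ Ric D A B, (mu u A B - 1)) = M at *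
    generalize (Ric D A B).card = E at *
    generalize C.card = c at *
    have e1 : 4 * (j + 1) - 2 = 4 * j + 2 := by omega
    have e2 : 3 * (j + 1) - 2 = 3 * j + 1 := by omega
    rw [e1, e2]
    simp only [Nat.add_sub_cancel] at hM
    zify at *
    nlinarith [mul_le_mul_of_nonneg_left h1 (by positivity : (0 : ℤ) ≤ 2 * (j : ℤ) + 1),
      mul_le_mul_of_nonneg_left h2 (by positivity : (0 : ℤ) ≤ (j : ℤ))]

end Pool.PVG
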