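import Pool.Agent.PVG.Key

namespace Pool.PVG

open Pool.Vis Finset

/- Both centres are first contact points of both functionals (`cross_core`), hence equal; in the
mixed case `key P.2 ≤ key P'.2` gives `key P.1 ≤ key P'.1 ≤ key P.1`. Note that `cross_core` applied
twice (also with the roles exchanged) and `key_inj` give `P.1 = P'.1 ↔ P.2 = P'.2`. `ψ.NZ` holds
because `ψ` takes values of both signs. -/
theorem cross_star {S1 S2 : Finset Pt} {ψ g g' : Fn} (hg : Cf S1 S2 ψ g) (hg' : Cf S1 S2 ψ g')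
    {F F' : Finset (Pt × Pt)} (hF : St1 S1 S2 ψ g F ∨ St2 S1 S2 ψ g F)
    (hF' : St1 S1 S2 ψ g' F' ∨ St2 S1 S2 ψ g' F') {P P' : Pt × Pt} (hP : P ∈ F) (hP' : P' ∈ F')
    {c : Pt} (hc : c ∈ openSegment ℝ P.1 P.2) (hc' : c ∈ openSegment ℝ P'.1 P'.2) : P = P' := by
  have hC : Ct S1 S2 ψ g P := by
    rcases hF with h | h
    · exact h.1 P hP
    · exact h.1 P hP
  have hC' : Ct S1 S2 ψ g' P' := by
    rcases hF' with h | h
    · exact h.1 P' hP'
    · exact h.1 P' hP'
  obtain ⟨⟨x1, x2⟩, ⟨x3, x4⟩, hk⟩ := cross_core hg hg' hC hC' hc hc'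
  obtain ⟨-, -, hk'⟩ := cross_core hg' hg hC' hC hc' hc
  obtain ⟨p1, p2, p3, p4⟩ := hC
  obtain ⟨q1, q2, q3, q4⟩ := hC'
  have h1 : key ψ P.1 ≤ key ψ P'.1 ∧ key ψ P.2 ≤ key ψ P'.2 := by
    rcases hF with h | h
    · obtain ⟨-, y, hy, hall⟩ := h
      have := hy.2.2 P'.2 q2 x2
      rw [← hall P hP] at this
      exact ⟨hk.mpr this, this⟩
    · obtain ⟨-, y, hy, hall⟩ := h
      have := hy.2.2 P'.1 q1 x1
      rw [← hall P hP] at this
      exact ⟨this, hk.mp this⟩
  have h2 : key ψ P'.1 ≤ key ψ P.1 ∧ key ψ P'.2 ≤ key ψ P.2 := by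
    rcases hF' with h | h
    · obtain ⟨-, y, hy, hall⟩ := h
      have := hy.2.2 P.2 p2 x4
      rw [← hall P' hP'] at this
      exact ⟨hk'.mpr this, this⟩
    · obtain ⟨-, y, hy, hall⟩ := h
      have := hy.2.2 P.1 p1 x3
      rw [← hall P' hP'] at this
      exact ⟨this, hk'.mp this⟩
  have n1 := hg.neg _ p1
  have n2 := hg.neg _ q1
  have n3 := hg.pos _ p2
  have n4 := hg.pos _ q2
  have hNZ : ψ.NZ := by
    by_contra hc
    unfold Fn.NZ at hc
    push Not at hc
    simp only [Fn.ev, hc.1, hc.2, zero_mul, zero_add] at n1 n3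
    linarith
  exact Prod.ext (key_inj ψ hNZ _ _ n1.ne n2.ne (le_antisymm h1.1 h2.1))
    (key_inj ψ hNZ _ _ n3.ne' n4.ne' (le_antisymm h1.2 h2.2))

/- On the open segment of a contact pair `g > 0` and `ψ - g < 0`; these exclude the two hulls (the
sets `{g ≤ 0}` and `{0 ≤ ψ - g}` are convex and contain `S1`, respectively `S2`). -/
theorem out_hull {S1 S2 : Finset Pt} {ψ g : Fn} (hg : Cf S1 S2 ψ g) {P : Pt × Pt}
    (hP : Ct S1 S2 ψ g P) {c : Pt} (hc : c ∈ openSegment ℝ P.1 P.2) :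
    c ∉ convexHull ℝ (S1 : Set Pt) ∧ c ∉ convexHull ℝ (S2 : Set Pt) := by
  have hconv : ∀ f : Fn, Convex ℝ {p : Pt | f.ev p ≤ 0} := by
    intro f p hp q hq r s hr hs hrs
    simp only [Set.mem_setOf_eq] at hp hq ⊢
    have h : r = 1 - s := by linarith
    have e : f.ev (r • p + s • q) = r * f.ev p + s * f.ev q := by
      subst h
      simp only [Fn.ev, Prod.fst_add, Prod.snd_add, Prod.smul_fst, Prod.smul_snd, smul_eq_mul]
      ring
    rw [e]
    nlinarith [mul_nonneg hr (neg_nonneg.mpr hp), mul_nonneg hs (neg_nonneg.mpr hq)]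
  obtain ⟨p1, p2, p3, p4⟩ := hP
  have n1 := hg.neg _ p1
  have n3 := hg.pos _ p2
  have h1 : 0 < g.ev c := seg_pos_r g hc p3.ge (by rw [p4]; exact n3)
  have h2 : 0 < (g.comb ψ (-1)).ev c := by
    apply seg_pos_l _ hc
    · rw [ev_comb, p3]; linarith
    · rw [ev_comb, p4]; linarith
  constructor
  · intro hmem
    have : c ∈ {p : Pt | g.ev p ≤ 0} :=
      convexHull_min (fun x hx => hg.le1 x (Finset.mem_coe.mp hx)) (hconv g) hmem
    simp only [Set.mem_setOf_eq] at this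
    linarith
  · intro hmem
    have : c ∈ {p : Pt | (g.comb ψ (-1)).ev p ≤ 0} := by
      apply convexHull_min _ (hconv _) hmem
      intro x hx
      simp only [Set.mem_setOf_eq]
      rw [ev_comb]
      have := hg.le2 x (Finset.mem_coe.mp hx)
      linarith
    simp only [Set.mem_setOf_eq] at this
    linarith

end Pool.PVG
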