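import Pool.Agent.PVG.Lines

namespace Pool.PVG

open Pool.Vis Finset

lemma rich5_face_eq {u : Pt} {S : Finset Pt} {p q : Pt} (hp : p ∈ face u S) (hq : q ∈ face u S) :
    dot u p = dot u q :=
  le_antisymm ((mem_face.1 hq).2 p (mem_face.1 hp).1) ((mem_face.1 hp).2 q (mem_face.1 hq).1)

lemma rich5_perp {u v p q : Pt} (hu : UV u) (hv : UV v) (hpq : p ≠ q) (h1 : dot u p = dot u q)
    (h2 : dot v p = dot v q) (huv : u ≠ v) : ∀ x : Pt, dot v x = - dot u x := by
  obtain ⟨u1, u2⟩ := u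
  obtain ⟨v1, v2⟩ := v
  obtain ⟨p1, p2⟩ := p
  obtain ⟨q1, q2⟩ := q
  simp only [UV, dot] at hu hv h1 h2 ⊢
  have hdet : u1 * v2 - u2 * v1 = 0 := by
    by_contra hne
    apply hpq
    have e1 : (u1 * v2 - u2 * v1) * (p1 - q1) = 0 := by linear_combination v2 * h1 - u2 * h2
    have e2 : (u1 * v2 - u2 * v1) * (p2 - q2) = 0 := by linear_combination u1 * h2 - v1 * h1
    have e3 : p1 - q1 = 0 := (mul_eq_zero.1 e1).resolve_left hne
    have e4 : p2 - q2 = 0 := (mul_eq_zero.1 e2).resolve_left hne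
    rw [sub_eq_zero.1 e3, sub_eq_zero.1 e4]
  -- `v = t u` with `t = u1 v1 + u2 v2`
  set t := u1 * v1 + u2 * v2 with ht
  have hv1 : v1 = t * u1 := by
    rw [ht]; linear_combination (-v1) * hu - u2 * hdet
  have hv2 : v2 = t * u2 := by
    rw [ht]; linear_combination (-v2) * hu + u1 * hdet
  have ht2 : t ^ 2 = 1 := by
    have : t ^ 2 * (u1 ^ 2 + u2 ^ 2) = 1 := by
      rw [← hv, hv1, hv2]; ring
    rwa [hu, mul_one] at this
  have ht1 : t ≠ 1 := by
    intro h
    apply huv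
    rw [hv1, hv2, h, one_mul, one_mul]
  have htm : t = -1 := by
    have : (t - 1) * (t + 1) = 0 := by linear_combination ht2
    rcases mul_eq_zero.1 this with h | h
    · exact absurd (sub_eq_zero.1 h) ht1
    · linarith
  intro x
  rw [hv1, hv2, htm]
  ring

/- `u ↦ T_u = P.filter (dot u x = max of dot u on A ∪ B)` is injective on `Ric D A B` (two different
unit vectors `u ≠ v` with the same line: `v = -u` and `A ∪ B` would be collinear; note that `T_u`
contains at least two points of `A ∪ B`) and `T_u` contains `mu_u` points of each colour and a point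
of `C` between them. -/
theorem ric_le (D P A B C : Finset Pt) (hD : ∀ u ∈ D, UV u) (hA : A ⊆ P) (hB : B ⊆ P)
    (hC : C ⊆ P) (hd : Disjoint A B) (hAC : Disjoint A C) (hBC : Disjoint B C)
    (hblk : Blk A B C) (hnc : ¬ Coll (A ∪ B)) : (Ric D A B).card ≤ (richLines P).card ∧
      ∀ u ∈ Ric D A B, ∃ T ∈ richLines P, 2 * mu u A B + 1 ≤ T.card := by
  classical
  obtain ⟨T, hT⟩ : ∃ T : Pt → Finset Pt, ∀ u x, x ∈ T u ↔ x ∈ P ∧
      ∃ p ∈ face u (A ∪ B), dot u x = dot u p :=
    ⟨fun u => P.filter (fun x => ∃ p ∈ face u (A ∪ B), dot u x = dot u p), fun u x => by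
      rw [mem_filter]⟩
  have hRD : ∀ u ∈ Ric D A B, u ∈ D ∧ 2 ≤ mu u A B := fun u hu => by
    unfold Ric at hu
    exact mem_filter.1 hu
  have hAf : ∀ u ∈ Ric D A B, 2 ≤ (face u (A ∪ B) ∩ A).card := fun u hu =>
    (hRD u hu).2.trans (min_le_left _ _)
  have hBf : ∀ u ∈ Ric D A B, 2 ≤ (face u (A ∪ B) ∩ B).card := fun u hu =>
    (hRD u hu).2.trans (min_le_right _ _)
  have hcard : ∀ u ∈ Ric D A B, 2 * mu u A B + 1 ≤ (T u).card := by
    intro u hu
    obtain ⟨a, ha⟩ := card_pos.1 (lt_of_lt_of_le two_pos (hAf u hu))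
    obtain ⟨b, hb⟩ := card_pos.1 (lt_of_lt_of_le two_pos (hBf u hu))
    rw [mem_inter] at ha hb
    obtain ⟨c, hc, hcs⟩ := hblk a ha.2 b hb.2
    have hcT : dot u c = dot u a := by
      obtain ⟨s, t, hs, ht, hst, rfl⟩ := hcs
      have hab := rich5_face_eq ha.1 hb.1
      simp only [dot, Prod.fst_add, Prod.snd_add, Prod.smul_fst, Prod.smul_snd, smul_eq_mul] at hab ⊢
      linear_combination (u.1 * a.1 + u.2 * a.2) * hst - t * hab
    have hsub : insert c ((face u (A ∪ B) ∩ A) ∪ (face u (A ∪ B) ∩ B)) ⊆ T u := by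
      intro x hx
      rw [mem_insert, mem_union, mem_inter, mem_inter] at hx
      rw [hT]
      rcases hx with rfl | hx | hx
      · exact ⟨hC hc, a, ha.1, hcT⟩
      · exact ⟨hA hx.2, x, hx.1, rfl⟩
      · exact ⟨hB hx.2, x, hx.1, rfl⟩
    have hcn : c ∉ ((face u (A ∪ B) ∩ A) ∪ (face u (A ∪ B) ∩ B)) := by
      rw [mem_union, mem_inter, mem_inter]
      rintro (h | h)
      · exact disjoint_left.1 hAC h.2 hc
      · exact disjoint_left.1 hBC h.2 hc
    have hdis : Disjoint (face u (A ∪ B) ∩ A) (face u (A ∪ B) ∩ B) :=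
      hd.mono inter_subset_right inter_subset_right
    have h1 := card_le_card hsub
    rw [card_insert_of_notMem hcn, card_union_of_disjoint hdis] at h1
    have h2 : mu u A B ≤ (face u (A ∪ B) ∩ A).card := min_le_left _ _
    have h3 : mu u A B ≤ (face u (A ∪ B) ∩ B).card := min_le_right _ _
    omega
  have hrich : ∀ u ∈ Ric D A B, T u ∈ richLines P := by
    intro u hu
    obtain ⟨a, ha⟩ := card_pos.1 (lt_of_lt_of_le two_pos (hAf u hu))
    rw [mem_inter] at ha
    rw [mem_richLines]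
    refine ⟨fun x hx => ((hT u x).1 hx).1, ?_, u.1, u.2, dot u a, ?_, ?_⟩
    · have h1 := hcard u hu
      have h2 := (hRD u hu).2
      omega
    · by_contra hc
      push Not at hc
      have := hD u (hRD u hu).1
      rw [UV, hc.1, hc.2] at this
      norm_num at this
    · intro x hx
      rw [hT]
      constructor
      · rintro ⟨_, p, hp, h⟩
        rw [rich5_face_eq ha.1 hp]
        exact h
      · intro h
        exact ⟨hx, a, ha.1, h⟩
  refine ⟨card_le_card_of_injOn T hrich ?_, fun u hu => ⟨T u, hrich u hu, hcard u hu⟩⟩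
  intro u hu v hv huv
  by_contra hne
  have hu' : u ∈ Ric D A B := hu
  have hv' : v ∈ Ric D A B := hv
  obtain ⟨p, hp, q, hq, hpq⟩ := one_lt_card.1 (lt_of_lt_of_le one_lt_two (hAf u hu'))
  obtain ⟨w, hw⟩ := card_pos.1 (lt_of_lt_of_le two_pos (hAf v hv'))
  rw [mem_inter] at hp hq hw
  have hpT : p ∈ T v := by
    have : p ∈ T u := (hT u p).2 ⟨hA hp.2, p, hp.1, rfl⟩
    exact huv ▸ this
  have hqT : q ∈ T v := by
    have : q ∈ T u := (hT u q).2 ⟨hA hq.2, q, hq.1, rfl⟩
    exact huv ▸ this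
  obtain ⟨_, p', hp', hpp'⟩ := (hT v p).1 hpT
  obtain ⟨_, q', hq', hqq'⟩ := (hT v q).1 hqT
  have h1 : dot v p = dot v q := by
    rw [hpp', hqq', rich5_face_eq hp' hq']
  have h2 := rich5_perp (hD u (hRD u hu').1) (hD v (hRD v hv').1) hpq (rich5_face_eq hp.1 hq.1) h1
    hne
  apply hnc
  refine ⟨dtf u (dot u p), ?_, ?_⟩
  · by_contra hc
    unfold Fn.NZ dtf at hc
    push Not at hc
    simp only at hc
    have := hD u (hRD u hu').1
    rw [UV, hc.1, hc.2] at this
    norm_num at this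
  · intro x hx
    rw [ev_dtf]
    have h3 : dot u x ≤ dot u p := (mem_face.1 hp.1).2 x hx
    have h4 : dot v x ≤ dot v p := by
      rw [hpp']
      exact (mem_face.1 hp').2 x hx
    rw [h2, h2] at h4
    linarith

end Pool.PVG
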