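import Pool.Agent.PVG.Count
import Pool.Agent.PVG.Rich5

namespace Pool.PVG

open Pool.Vis Finset

/- Two terms are bounded by `k`, the others by `x / 2`. -/
theorem sum_le (R : Finset Pt) (t : Pt → ℕ) (k m x : ℕ) (h1 : ∀ u ∈ R, t u ≤ k)
    (h2 : ∀ u ∈ R, 2 * t u ≤ x) (hm : R.card ≤ m) (hm2 : 2 ≤ m) :
    2 * ∑ u ∈ R, t u ≤ 4 * k + (m - 2) * x := by
  classical
  rcases Nat.lt_or_ge R.card 2 with hR | hR
  · have h3 : ∑ u ∈ R, t u ≤ R.card • k := sum_le_card_nsmul R t k h1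
    rw [smul_eq_mul] at h3
    have h4 : R.card * k ≤ 1 * k := Nat.mul_le_mul_right k (by omega)
    have h5 : 0 ≤ (m - 2) * x := Nat.zero_le _
    omega
  · obtain ⟨R2, hR2, hc⟩ := exists_subset_card_eq hR
    rw [← sum_sdiff hR2]
    have h3 : ∑ u ∈ R2, t u ≤ R2.card • k :=
      sum_le_card_nsmul R2 t k (fun u hu => h1 u (hR2 hu))
    rw [smul_eq_mul, hc] at h3
    have h4 : ∑ u ∈ R \ R2, 2 * t u ≤ (R \ R2).card • x :=
      sum_le_card_nsmul _ _ x (fun u hu => h2 u (mem_sdiff.mp hu).1)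
    rw [smul_eq_mul, card_sdiff_of_subset hR2, hc, ← mul_sum] at h4
    have h5 : (R.card - 2) * x ≤ (m - 2) * x := Nat.mul_le_mul_right x (by omega)
    omega

/- As `Pool.Vis.cut_bound`: `k` from `exists_k`, `1 ≤ k`; `deg_line` gives `d + k ≤ A.card + C.card`;
`1 ≤ C.card`. If `A.card ≤ k` then `d ≤ C.card` and both claims follow. Otherwise take a balanced
non-collinear pair `A, B'` with `B' ⊆ B` (see `cut_bound`); `n = A.card`. First claim: `mainc`.
Second claim: with `M = W D A B'`, `2 n ≤ c + 1 + M` (`rprime`); by `W_ric`, `mu_le` and `ric_le`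
(for `A, B'`) `M` is a sum of `r ≤ m` terms, each `≤ k - 1` and each `≤ (l - 3) / 2`; so
`2 M ≤ 4 (k - 1) + (m - 2) (l - 3)` (two of the terms are bounded by `k - 1`, the others by
`(l - 3) / 2`; `sum_le` below), and `2 d + 2 k ≤ 2 n + 2 c`. -/
theorem cutb (P A B C : Finset Pt) (hPe : P = (A ∪ B) ∪ C) (hd : Disjoint A B)
    (hAC : Disjoint A C) (hBC : Disjoint B C) (hA : A.Nonempty) (hle : A.card ≤ B.card)
    (hno : ∀ a ∈ A, ∀ b ∈ B, ∃ z ∈ P, z ∈ openSegment ℝ a b) (d : ℕ)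
    (hdeg : ∀ a ∈ A, ∃ N : Finset Pt, N ⊆ P ∧ a ∉ N ∧
      (∀ y ∈ N, ∀ z ∈ P, z ∉ openSegment ℝ a y) ∧ d ≤ N.card) :
    4 * d + 2 ≤ 7 * C.card ∧ ∀ m l : ℕ, 2 ≤ m → (richLines P).card ≤ m →
      (∀ T ∈ richLines P, T.card ≤ l) → 4 * d + 2 ≤ 6 * C.card + (m - 2) * (l - 3) := by
  classical
  have hblk : Blk A B C := by
    refine blk_of_cut P A B C (fun z hz => ?_) hd hno
    rw [hPe, mem_union, mem_union, or_assoc] at hz
    exact hz
  have hBn : B.Nonempty := card_pos.mp (lt_of_lt_of_le (card_pos.mpr hA) hle)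
  obtain ⟨a1, ha1⟩ := hA
  obtain ⟨b1, hb1⟩ := hBn
  have hab1 : a1 ≠ b1 := fun h => (disjoint_left.mp hd ha1) (h ▸ hb1)
  obtain ⟨k, hHK, hk⟩ := exists_k A B
  have hk1 : 1 ≤ k := by
    obtain ⟨f, hf, hfa, hfb⟩ := line_through a1 b1 hab1
    exact hHK f hf 1 (card_pos.mpr ⟨a1, mem_filter.mpr ⟨ha1, hfa⟩⟩)
      (card_pos.mpr ⟨b1, mem_filter.mpr ⟨hb1, hfb⟩⟩)
  obtain ⟨f, hf, hkA, hkB⟩ := hk.resolve_left (by omega)
  obtain ⟨a, ha, hN⟩ := deg_line P A B C hPe hd hAC hblk f hf k hk1 hkA hkB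
  obtain ⟨N, hNP, haN, hNs, hdN⟩ := hdeg a ha
  have hdk : d + k ≤ A.card + C.card := by
    have := hN N hNP haN hNs
    omega
  have hC1 : 1 ≤ C.card := by
    obtain ⟨c, hc, _⟩ := hblk a1 ha1 b1 hb1
    exact card_pos.mpr ⟨c, hc⟩
  by_cases hnk : A.card ≤ k
  · have hdc : d ≤ C.card := by omega
    refine ⟨by omega, fun m l _ _ _ => ?_⟩
    have h5 : 0 ≤ (m - 2) * (l - 3) := Nat.zero_le _
    omega
  -- a balanced subfamily
  have hbal : ∃ B' ⊆ B, B'.card = A.card ∧ ¬ Coll (A ∪ B') := by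
    by_cases hAc : Coll A
    · obtain ⟨u, hu, huA⟩ := hAc
      have hb : ∃ b ∈ B, u.ev b ≠ 0 := by
        by_contra hcon
        push Not at hcon
        apply hnk
        refine hHK u hu A.card ?_ ?_
        · rw [filter_true_of_mem huA]
        · rw [filter_true_of_mem hcon]; exact hle
      obtain ⟨b, hb, hub⟩ := hb
      obtain ⟨B', hB1, hB2, hB3⟩ := exists_subsuperset_card_eq (singleton_subset_iff.mpr hb)
        (by rw [card_singleton]; exact card_pos.mpr ⟨a1, ha1⟩) hle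
      refine ⟨B', hB2, hB3, ?_⟩
      rintro ⟨v, hv, hvz⟩
      obtain ⟨e1, he1, e2, he2, hne⟩ := one_lt_card.mp (show 1 < A.card by omega)
      exact hub (same_line u v hv e1 e2 b hne (huA e1 he1) (huA e2 he2)
        (hvz e1 (mem_union_left _ he1)) (hvz e2 (mem_union_left _ he2))
        (hvz b (mem_union_right _ (singleton_subset_iff.mp hB1))))
    · obtain ⟨B', hB1, hB2⟩ := exists_subset_card_eq hle
      refine ⟨B', hB1, hB2, ?_⟩
      rintro ⟨v, hv, hvz⟩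
      exact hAc ⟨v, hv, fun p hp => hvz p (mem_union_left _ hp)⟩
  obtain ⟨B', hB's, hB'c, hnc⟩ := hbal
  have hd' : Disjoint A B' := disjoint_of_subset_right hB's hd
  have hHK' : HK k A B' := hHK.mono (subset_refl _) hB's
  have hblk' : Blk A B' C := fun x hx y hy => hblk x hx y (hB's hy)
  have hm := mainc k A.card A B' C rfl hB'c (card_pos.mpr ⟨a1, ha1⟩) hd' hHK' hk1 hblk' hnc
  refine ⟨by omega, fun m l hm2 hm3 hl => ?_⟩
  obtain ⟨D, hD⟩ := exists_cpl (A ∪ B')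
  have h1 := rprime D A.card A B' C rfl hB'c (card_pos.mpr ⟨a1, ha1⟩) hd' hD hblk'
  rw [W_ric] at h1
  have hAP : A ⊆ P := by
    rw [hPe]
    exact subset_union_left.trans subset_union_left
  have hBP : B' ⊆ P := by
    rw [hPe]
    exact hB's.trans (subset_union_right.trans subset_union_left)
  have hCP : C ⊆ P := by
    rw [hPe]
    exact subset_union_right
  obtain ⟨r1, r2⟩ := ric_le D P A B' C hD.1 hAP hBP hCP hd' hAC
    (disjoint_of_subset_left hB's hBC) hblk' hnc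
  have h2 := sum_le (Ric D A B') (fun u => mu u A B' - 1) (k - 1) m (l - 3)
    (fun u hu => by
      have h3 := mu_le A B' k hHK' u (hD.1 u (mem_filter.mp hu).1)
      show mu u A B' - 1 ≤ k - 1
      omega)
    (fun u hu => by
      obtain ⟨T, hT, hT2⟩ := r2 u hu
      have h3 := hl T hT
      show 2 * (mu u A B' - 1) ≤ l - 3
      omega)
    (r1.trans hm3) hm2
  have h3 : 2 * ∑ u ∈ Ric D A B', (mu u A B' - 1) ≤ 4 * (k - 1) + (m - 2) * (l - 3) := h2
  omega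

end Pool.PVG
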