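import Pool.Agent.PVG.Count2
import Pool.Agent.PVG.Rich5

namespace Pool.PVG

open Pool.Vis Finset

lemma cutb3_arith (k j c d : ℕ) (hk : 1 ≤ k) (hkj : k ≤ j) (hc : 1 ≤ c)
    (h : d ≤ c ∨ 2 * d + 1 ≤ 3 * c ∨ (4 * k - 2) * d + k ≤ (7 * k - 4) * c) :
    (4 * j - 2) * d + j ≤ (7 * j - 4) * c := by
  obtain ⟨i, rfl⟩ : ∃ i, k = i + 1 := ⟨k - 1, by omega⟩
  obtain ⟨t, rfl⟩ : ∃ t, j = i + 1 + t := ⟨j - (i + 1), by omega⟩
  have e1 : 4 * (i + 1) - 2 = 4 * i + 2 := by omega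
  have e3 : 7 * (i + 1) - 4 = 7 * i + 3 := by omega
  have e4 : 4 * (i + 1 + t) - 2 = 4 * (i + t) + 2 := by omega
  have e5 : 7 * (i + 1 + t) - 4 = 7 * (i + t) + 3 := by omega
  rw [e1, e3] at h
  rw [e4, e5]
  zify at *
  have hi : (0 : ℤ) ≤ i := by positivity
  have ht : (0 : ℤ) ≤ t := by positivity
  have hd0 : (0 : ℤ) ≤ d := by positivity
  rcases h with h | h | h
  · nlinarith [mul_le_mul_of_nonneg_left h (by positivity : (0 : ℤ) ≤ 4 * ((i : ℤ) + t) + 2),
      mul_nonneg (add_nonneg hi ht) (by linarith : (0 : ℤ) ≤ (c : ℤ) - 1)]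
  · nlinarith [mul_le_mul_of_nonneg_left h (by positivity : (0 : ℤ) ≤ 2 * ((i : ℤ) + t) + 1),
      mul_nonneg (add_nonneg hi ht) (by linarith : (0 : ℤ) ≤ (c : ℤ) - 1)]
  · have h4 := mul_le_mul_of_nonneg_left h (by positivity : (0 : ℤ) ≤ 4 * ((i : ℤ) + t) + 2)
    have h5 : (0 : ℤ) ≤ 2 * t * (c + 1) := by positivity
    have h6 : (4 * (i : ℤ) + 2) * ((4 * (i + t) + 2) * d + (i + 1 + t)) ≤
        (4 * i + 2) * ((7 * (i + t) + 3) * c) := by nlinarith
    exact le_of_mul_le_mul_left h6 (by positivity)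

/- The bound for point sets with at most `2 j + 2` points on every line. -/
theorem cutb3 (P A B C : Finset Pt) (hPe : P = (A ∪ B) ∪ C) (hd : Disjoint A B)
    (hAC : Disjoint A C) (hBC : Disjoint B C) (hA : A.Nonempty) (hle : A.card ≤ B.card)
    (hno : ∀ a ∈ A, ∀ b ∈ B, ∃ z ∈ P, z ∈ openSegment ℝ a b) (d : ℕ)
    (hdeg : ∀ a ∈ A, ∃ N : Finset Pt, N ⊆ P ∧ a ∉ N ∧
      (∀ y ∈ N, ∀ z ∈ P, z ∉ openSegment ℝ a y) ∧ d ≤ N.card) :
    ∀ j : ℕ, 1 ≤ j → (∀ T ∈ richLines P, T.card ≤ 2 * j + 2) →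
      (4 * j - 2) * d + j ≤ (7 * j - 4) * C.card := by
  classical
  have hblk : Blk A B C := by
    refine blk_of_cut P A B C (fun z hz => ?_) hd hno
    rw [hPe, mem_union, mem_union, or_assoc] at hz
    exact hz
  have hBn : B.Nonempty := card_pos.mp (lt_of_lt_of_le (card_pos.mpr hA) hle)
  obtain ⟨a1, ha1⟩ := hA
  obtain ⟨b1, hb1⟩ := hBn
  have hab1 : a1 ≠ b1 := fun h => (disjoint_left.mp hd ha1) (h ▸ hb1)
  obtain ⟨k, hHK, hk⟩ := exists_k A B
  have hk1 : 1 ≤ k := by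
    obtain ⟨f, hf, hfa, hfb⟩ := line_through a1 b1 hab1
    exact hHK f hf 1 (card_pos.mpr ⟨a1, mem_filter.mpr ⟨ha1, hfa⟩⟩)
      (card_pos.mpr ⟨b1, mem_filter.mpr ⟨hb1, hfb⟩⟩)
  obtain ⟨f, hf, hkA, hkB⟩ := hk.resolve_left (by omega)
  obtain ⟨a, ha, hN⟩ := deg_line P A B C hPe hd hAC hblk f hf k hk1 hkA hkB
  obtain ⟨N, hNP, haN, hNs, hdN⟩ := hdeg a ha
  have hdk : d + k ≤ A.card + C.card := by
    have := hN N hNP haN hNs
    omega
  have hC1 : 1 ≤ C.card := by
    obtain ⟨c, hc, _⟩ := hblk a1 ha1 b1 hb1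
    exact card_pos.mpr ⟨c, hc⟩
  intro j hj hT
  have hkj : k ≤ j := by
    by_contra hcon
    have hk2 : 2 ≤ k := by omega
    obtain ⟨a2, ha2⟩ : (A.filter (fun p => f.ev p = 0)).Nonempty := card_pos.mp (by omega)
    obtain ⟨b2, hb2⟩ : (B.filter (fun p => f.ev p = 0)).Nonempty := card_pos.mp (by omega)
    obtain ⟨ha2A, hfa2⟩ := mem_filter.mp ha2
    obtain ⟨hb2B, hfb2⟩ := mem_filter.mp hb2
    obtain ⟨c, hc, hcs⟩ := hblk a2 ha2A b2 hb2B
    have hsub : insert c ((A.filter (fun p => f.ev p = 0)) ∪ (B.filter (fun p => f.ev p = 0))) ⊆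
        P.filter (fun p => f.ev p = 0) := by
      intro x hx
      rw [mem_insert, mem_union, mem_filter, mem_filter] at hx
      rw [mem_filter, hPe, mem_union, mem_union]
      rcases hx with rfl | h | h
      · exact ⟨Or.inr hc, seg_zero f hcs hfa2 hfb2⟩
      · exact ⟨Or.inl (Or.inl h.1), h.2⟩
      · exact ⟨Or.inl (Or.inr h.1), h.2⟩
    have hcn : c ∉ (A.filter (fun p => f.ev p = 0)) ∪ (B.filter (fun p => f.ev p = 0)) := by
      intro h
      rw [mem_union, mem_filter, mem_filter] at h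
      rcases h with h | h
      · exact (disjoint_left.mp hAC h.1) hc
      · exact (disjoint_left.mp hBC h.1) hc
    have hcard : 2 * k + 1 ≤ (insert c ((A.filter (fun p => f.ev p = 0)) ∪
        (B.filter (fun p => f.ev p = 0)))).card := by
      rw [card_insert_of_notMem hcn, card_union_of_disjoint (disjoint_filter_filter hd)]
      omega
    have hcard2 := hcard.trans (card_le_card hsub)
    have hmem : P.filter (fun p => f.ev p = 0) ∈ richLines P := by
      rw [mem_richLines]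
      refine ⟨filter_subset _ _, by omega, f.a, f.b, -f.c, hf, fun x hx => ?_⟩
      rw [mem_filter]
      simp only [Fn.ev]
      constructor
      · rintro ⟨_, h⟩; linarith
      · intro h; exact ⟨hx, by linarith⟩
    have := hT _ hmem
    omega
  refine cutb3_arith k j C.card d hk1 hkj hC1 ?_
  by_cases hnk : A.card ≤ k
  · left; omega
  right
  -- a balanced subfamily
  have hbal : ∃ B' ⊆ B, B'.card = A.card ∧ ¬ Coll (A ∪ B') := by
    by_cases hAc : Coll A
    · obtain ⟨u, hu, huA⟩ := hAc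
      have hb : ∃ b ∈ B, u.ev b ≠ 0 := by
        by_contra hcon
        push Not at hcon
        apply hnk
        refine hHK u hu A.card ?_ ?_
        · rw [filter_true_of_mem huA]
        · rw [filter_true_of_mem hcon]; exact hle
      obtain ⟨b, hb, hub⟩ := hb
      obtain ⟨B', hB1, hB2, hB3⟩ := exists_subsuperset_card_eq (singleton_subset_iff.mpr hb)
        (by rw [card_singleton]; exact card_pos.mpr ⟨a1, ha1⟩) hle
      refine ⟨B', hB2, hB3, ?_⟩
      rintro ⟨v, hv, hvz⟩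
      obtain ⟨e1, he1, e2, he2, hne⟩ := one_lt_card.mp (show 1 < A.card by omega)
      exact hub (same_line u v hv e1 e2 b hne (huA e1 he1) (huA e2 he2)
        (hvz e1 (mem_union_left _ he1)) (hvz e2 (mem_union_left _ he2))
        (hvz b (mem_union_right _ (singleton_subset_iff.mp hB1))))
    · obtain ⟨B', hB1, hB2⟩ := exists_subset_card_eq hle
      refine ⟨B', hB1, hB2, ?_⟩
      rintro ⟨v, hv, hvz⟩
      exact hAc ⟨v, hv, fun p hp => hvz p (mem_union_left _ hp)⟩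
  obtain ⟨B', hB's, hB'c, hnc⟩ := hbal
  have hd' : Disjoint A B' := disjoint_of_subset_right hB's hd
  have hHK' : HK k A B' := hHK.mono (subset_refl _) hB's
  have hblk' : Blk A B' C := fun x hx y hy => hblk x hx y (hB's hy)
  have hm := mainc2 k A.card A B' C rfl hB'c (card_pos.mpr ⟨a1, ha1⟩) hd' hHK' hk1 hblk' hnc
  rcases hm with hm | ⟨_, hm⟩
  · left; omega
  · right
    obtain ⟨i, rfl⟩ : ∃ i, k = i + 1 := ⟨k - 1, by omega⟩
    have e1 : 4 * (i + 1) - 2 = 4 * i + 2 := by omega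
    have e2 : 3 * (i + 1) - 2 = 3 * i + 1 := by omega
    have e3 : 7 * (i + 1) - 4 = 7 * i + 3 := by omega
    rw [e1, e2] at hm
    rw [e1, e3]
    have h9 := Nat.mul_le_mul_left (4 * i + 2) hdk
    generalize A.card = n at *
    generalize C.card = c at *
    zify at *
    nlinarith

end Pool.PVG
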