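import Pool.Agent.Vis.Cut

/-!
Blockers of two-coloured point sets: definitions and basic facts
-/

namespace Pool.PVG

open Pool.Vis Finset

/-- Twice the signed area of the triangle `p q x`. -/
def ori (p q x : Pt) : ℝ := (q.1 - p.1) * (x.2 - p.2) - (q.2 - p.2) * (x.1 - p.1)

/-- Scalar product. -/
def dot (u p : Pt) : ℝ := u.1 * p.1 + u.2 * p.2

/-- Unit vectors. -/
def UV (u : Pt) : Prop := u.1 ^ 2 + u.2 ^ 2 = 1

/-- The quarter turn of a vector. -/
def rt (u : Pt) : Pt := (-u.2, u.1)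

open Classical in
/-- The points of `S` which are extreme in direction `u`. -/
noncomputable def face (u : Pt) (S : Finset Pt) : Finset Pt :=
  S.filter (fun x => ∀ y ∈ S, dot u y ≤ dot u x)

lemma mem_face {u : Pt} {S : Finset Pt} {x : Pt} :
    x ∈ face u S ↔ x ∈ S ∧ ∀ y ∈ S, dot u y ≤ dot u x := by
  classical
  unfold face
  rw [mem_filter]

/-- The smaller of the numbers of `A`-points and of `B`-points of `A ∪ B` which are extreme in
direction `u`. -/
noncomputable def mu (u : Pt) (A B : Finset Pt) : ℕ :=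
  min (face u (A ∪ B) ∩ A).card (face u (A ∪ B) ∩ B).card

/-- Some point of `T` is further in direction `u` than all the points of `S`. -/
def Beh (u : Pt) (S T : Finset Pt) : Prop := ∃ y ∈ T, ∀ x ∈ S, dot u x < dot u y

/-- The finite set `D` consists of unit vectors and contains all the unit normals of the lines
through two points of `S`. -/
def Cpl (D S : Finset Pt) : Prop :=
  (∀ u ∈ D, UV u) ∧ ∀ p ∈ S, ∀ q ∈ S, p ≠ q → ∀ u : Pt, UV u → dot u p = dot u q → u ∈ D

/-- `S1` is on the negative side and `S2` on the positive side of `ψ`; `g` is at most `0` on `S1`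
and at most `ψ` on `S2`. -/
structure Cf (S1 S2 : Finset Pt) (ψ g : Fn) : Prop where
  neg : ∀ x ∈ S1, ψ.ev x < 0
  pos : ∀ y ∈ S2, 0 < ψ.ev y
  le1 : ∀ x ∈ S1, g.ev x ≤ 0
  le2 : ∀ y ∈ S2, g.ev y ≤ ψ.ev y

/-- The pair `P` is a contact pair of `g`. -/
def Ct (S1 S2 : Finset Pt) (ψ g : Fn) (P : Pt × Pt) : Prop :=
  P.1 ∈ S1 ∧ P.2 ∈ S2 ∧ g.ev P.1 = 0 ∧ g.ev P.2 = ψ.ev P.2

/-- The functional measuring the position along the lines `ψ = constant`. -/
def eta (ψ : Fn) : Fn := ⟨-ψ.b, ψ.a, 0⟩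

/-- The order used for breaking ties. -/
noncomputable def key (ψ : Fn) (p : Pt) : ℝ ×ₗ ℝ := toLex ((eta ψ).ev p / ψ.ev p, 1 / ψ.ev p)

/-- `y` is the first contact point of `g` in `S2`. -/
def Ty1 (S2 : Finset Pt) (ψ g : Fn) (y : Pt) : Prop :=
  y ∈ S2 ∧ g.ev y = ψ.ev y ∧ ∀ z ∈ S2, g.ev z = ψ.ev z → key ψ y ≤ key ψ z

/-- `t` is the first contact point of `g` in `S1`. -/
def Ty2 (S1 : Finset Pt) (ψ g : Fn) (t : Pt) : Prop :=
  t ∈ S1 ∧ g.ev t = 0 ∧ ∀ z ∈ S1, g.ev z = 0 → key ψ t ≤ key ψ z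

/-- A star of contact pairs with centre in `S2`. -/
def St1 (S1 S2 : Finset Pt) (ψ g : Fn) (F : Finset (Pt × Pt)) : Prop :=
  (∀ P ∈ F, Ct S1 S2 ψ g P) ∧ ∃ y, Ty1 S2 ψ g y ∧ ∀ P ∈ F, P.2 = y

/-- A star of contact pairs with centre in `S1`. -/
def St2 (S1 S2 : Finset Pt) (ψ g : Fn) (F : Finset (Pt × Pt)) : Prop :=
  (∀ P ∈ F, Ct S1 S2 ψ g P) ∧ ∃ t, Ty2 S1 ψ g t ∧ ∀ P ∈ F, P.1 = t

/-- The position of the crossing point of the segment `P` with the line `ψ = 0`. -/
noncomputable def xi (ψ : Fn) (P : Pt × Pt) : ℝ :=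
  (ψ.ev P.2 * (eta ψ).ev P.1 - ψ.ev P.1 * (eta ψ).ev P.2) / (ψ.ev P.2 - ψ.ev P.1)

/-- Two pairs of indices which do not cross. -/
def NX (P Q : ℕ × ℕ) : Prop :=
  (P.1 ≤ Q.1 ∧ Q.2 ≤ P.2) ∨ (Q.1 ≤ P.1 ∧ P.2 ≤ Q.2) ∨ P.2 ≤ Q.1 ∨ Q.2 ≤ P.1

/-- The points `q 0, …, q (h-1)` are in weakly convex position, counterclockwise. -/
def OT (q : ℕ → Pt) (h : ℕ) : Prop :=
  ∀ i j l, i < j → j < l → l < h → 0 ≤ ori (q i) (q j) (q l)

/-- The points `q 0, …, q (h-1)` are pairwise distinct. -/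
def Inj (q : ℕ → Pt) (h : ℕ) : Prop := ∀ i < h, ∀ j < h, q i = q j → i = j

/-- The point `x` of `H` is visible from `o` in the boundary of `H`: some functional vanishes at
`x`, is at most `0` on `H` and negative at `o`. -/
def Bd (H : Finset Pt) (o x : Pt) : Prop :=
  ∃ φ : Fn, φ.ev x = 0 ∧ φ.ev o < 0 ∧ ∀ y ∈ H, φ.ev y ≤ 0

/-- The unit vectors of `D` in whose direction there are two extreme points of each colour. -/
noncomputable def Ric (D A B : Finset Pt) : Finset Pt := D.filter (fun u => 2 ≤ mu u A B)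

open Classical in
/-- The waste of the extreme sets of `A ∪ B` which are overtaken by `T`. -/
noncomputable def Wc (D A B T : Finset Pt) : ℕ :=
  ∑ u ∈ D, if Beh u (A ∪ B) T then mu u A B - 1 else 0

open Classical in
/-- The waste of the extreme sets of `A ∪ B` which are not overtaken by `T`. -/
noncomputable def Wo (D A B T : Finset Pt) : ℕ :=
  ∑ u ∈ D, if Beh u (A ∪ B) T then 0 else mu u A B - 1

/-- The total waste of the extreme sets of `A ∪ B`. -/
noncomputable def W (D A B : Finset Pt) : ℕ := ∑ u ∈ D, (mu u A B - 1)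

lemma W_eq (D A B T : Finset Pt) : W D A B = Wc D A B T + Wo D A B T := by
  classical
  unfold W Wc Wo
  rw [← sum_add_distrib]
  apply sum_congr rfl
  intro u _
  split_ifs <;> simp

lemma ori_self_left (p q : Pt) : ori p q p = 0 := by simp only [ori]; ring
lemma ori_self_right (p q : Pt) : ori p q q = 0 := by simp only [ori]; ring
lemma ori_cyc (p q x : Pt) : ori p q x = ori q x p := by simp only [ori]; ring
lemma ori_swap (p q x : Pt) : ori p q x = - ori q p x := by simp only [ori]; ring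

/-- The functional `ori p q`. -/
def orf (p q : Pt) : Fn := ⟨-(q.2 - p.2), q.1 - p.1, -(q.1 - p.1) * p.2 + (q.2 - p.2) * p.1⟩

lemma ev_orf (p q x : Pt) : (orf p q).ev x = ori p q x := by
  simp only [orf, Fn.ev, ori]; ring

lemma orf_NZ {p q : Pt} (h : p ≠ q) : (orf p q).NZ := by
  by_contra hc
  unfold Fn.NZ orf at hc
  push Not at hc
  apply h
  exact Prod.ext (by linarith [hc.2]) (by linarith [hc.1])

/-- The functional `dot u`. -/
def dtf (u : Pt) (c : ℝ) : Fn := ⟨u.1, u.2, -c⟩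

lemma ev_dtf (u : Pt) (c : ℝ) (x : Pt) : (dtf u c).ev x = dot u x - c := by
  simp only [dtf, Fn.ev, dot]; ring

lemma uv_ne {u : Pt} (h : UV u) : u ≠ 0 := by
  rintro rfl
  simp [UV] at h

end Pool.PVG
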