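import Pool.Agent.Vis.Graph
import Pool.Agent.PVG.Cutb
import Pool.Agent.PVG.Cutb3

namespace Pool.PVG

open Pool.Vis Finset

/-- The bounds for the visibility graph. -/
theorem graph_bound2 (P : Finset (ℝ × ℝ)) (hP2 : 2 ≤ P.card) :
    (4 * minDeg (visGraph P) + 2 ≤ 7 * vertexConn (visGraph P) ∧
    ∀ m l : ℕ, 2 ≤ m → (richLines P).card ≤ m → (∀ T ∈ richLines P, T.card ≤ l) →
      4 * minDeg (visGraph P) + 2 ≤ 6 * vertexConn (visGraph P) + (m - 2) * (l - 3)) ∧
    ∀ j : ℕ, 1 ≤ j → (∀ T ∈ richLines P, T.card ≤ 2 * j + 2) →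
      (4 * j - 2) * minDeg (visGraph P) + j ≤ (7 * j - 4) * vertexConn (visGraph P) := by
  classical
  set G := visGraph P with hG
  obtain ⟨p0, hp0⟩ : P.Nonempty := card_pos.mp (by omega)
  have hmin : ∀ v : P, minDeg G ≤ (G.neighborSet v).ncard := fun v => Nat.sInf_le ⟨v, rfl⟩
  have hne : {m : ℕ | ∃ S : Set P, S.ncard = m ∧
      (¬ (G.induce Sᶜ).Preconnected ∨ Sᶜ.ncard = 1)}.Nonempty :=
    ⟨_, ({⟨p0, hp0⟩}ᶜ : Set P), rfl, Or.inr (by rw [compl_compl, Set.ncard_singleton])⟩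
  obtain ⟨S, hS, hcase⟩ := Nat.sInf_mem hne
  have hconn : vertexConn G = S.ncard := hS.symm
  rw [hconn]
  rcases hcase with hcase | hcase
  · -- a disconnecting set
    have hex : ∃ u v : (Sᶜ : Set P), ¬ (G.induce Sᶜ).Reachable u v := by
      by_contra hcon
      push Not at hcon
      exact hcase hcon
    obtain ⟨u, v, huv⟩ := hex
    set R : P → Prop := fun x => ∃ h : x ∈ (Sᶜ : Set P), (G.induce Sᶜ).Reachable u ⟨x, h⟩ with hR
    set A := im R with hA
    set B := im (fun x : P => x ∉ S ∧ ¬ R x) with hB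
    set C := im (fun x : P => x ∈ S) with hC
    have hPe : P = (A ∪ B) ∪ C := by
      ext p
      rw [mem_union, mem_union, hA, hB, hC, mem_im, mem_im, mem_im]
      constructor
      · intro h
        by_cases h1 : (⟨p, h⟩ : P) ∈ S
        · exact Or.inr ⟨h, h1⟩
        · by_cases h2 : R ⟨p, h⟩
          · exact Or.inl (Or.inl ⟨h, h2⟩)
          · exact Or.inl (Or.inr ⟨h, h1, h2⟩)
      · rintro ((⟨h, _⟩ | ⟨h, _⟩) | ⟨h, _⟩) <;> exact h
    have hd : Disjoint A B := by
      rw [disjoint_left]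
      intro p h1 h2
      obtain ⟨h, h1⟩ := (mem_im _ p).mp h1
      obtain ⟨h', h2⟩ := (mem_im _ p).mp h2
      exact h2.2 h1
    have hAC : Disjoint A C := by
      rw [disjoint_left]
      intro p h1 h2
      obtain ⟨h, h1⟩ := (mem_im _ p).mp h1
      obtain ⟨h', h2⟩ := (mem_im _ p).mp h2
      exact h1.1 h2
    have hBC : Disjoint B C := by
      rw [disjoint_left]
      intro p h1 h2
      obtain ⟨h, h1⟩ := (mem_im _ p).mp h1
      obtain ⟨h', h2⟩ := (mem_im _ p).mp h2
      exact h1.1 h2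
    have hAn : A.Nonempty := ⟨(u.1 : Pt), (mem_im _ _).mpr ⟨u.1.2, u.2, by
      exact SimpleGraph.Reachable.refl _⟩⟩
    have hBn : B.Nonempty := ⟨(v.1 : Pt), (mem_im _ _).mpr ⟨v.1.2, v.2, by
      rintro ⟨h, h'⟩; exact huv h'⟩⟩
    have hno : ∀ a ∈ A, ∀ b ∈ B, ∃ z ∈ P, z ∈ openSegment ℝ a b := by
      intro a ha b hb
      obtain ⟨haP, haS, har⟩ := (mem_im _ a).mp ha
      obtain ⟨hbP, hbS, hbr⟩ := (mem_im _ b).mp hb
      by_contra hcon
      push Not at hcon
      have hab : a ≠ b := fun h => (disjoint_left.mp hd ha) (h ▸ hb)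
      have hadj : G.Adj ⟨a, haP⟩ ⟨b, hbP⟩ := by
        rw [hG]
        exact ⟨fun h => hab (congrArg Subtype.val h), hcon⟩
      apply hbr
      refine ⟨hbS, har.trans ?_⟩
      apply SimpleGraph.Adj.reachable
      rw [SimpleGraph.comap_adj]
      exact hadj
    have hdeg : ∀ a ∈ P, ∃ N : Finset Pt, N ⊆ P ∧ a ∉ N ∧
        (∀ y ∈ N, ∀ z ∈ P, z ∉ openSegment ℝ a y) ∧ minDeg G ≤ N.card := by
      intro a ha
      refine ⟨im (fun y : P => G.Adj ⟨a, ha⟩ y), ?_, ?_, ?_, ?_⟩
      · intro p hp; exact ((mem_im _ p).mp hp).1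
      · intro hp
        obtain ⟨h, h1⟩ := (mem_im _ a).mp hp
        exact G.loopless.irrefl _ h1
      · intro y hy
        obtain ⟨h, h1⟩ := (mem_im _ y).mp hy
        rw [hG] at h1
        exact h1.2
      · rw [card_im]
        exact hmin ⟨a, ha⟩
    have hCc : C.card = S.ncard := by
      rw [hC, card_im]; rfl
    have hmem : ∀ p ∈ A ∪ B, p ∈ P := fun p hp => by rw [hPe]; exact mem_union_left _ hp
    rw [← hCc]
    have hno' : ∀ b ∈ B, ∀ a ∈ A, ∃ z ∈ P, z ∈ openSegment ℝ b a := fun b hb a ha => by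
      obtain ⟨z, hz, hzs⟩ := hno a ha b hb
      exact ⟨z, hz, by rw [openSegment_symm]; exact hzs⟩
    rcases le_total A.card B.card with hle | hle
    · exact ⟨cutb P A B C hPe hd hAC hBC hAn hle hno (minDeg G)
        (fun a ha => hdeg a (hmem a (mem_union_left _ ha))),
        cutb3 P A B C hPe hd hAC hBC hAn hle hno (minDeg G)
        (fun a ha => hdeg a (hmem a (mem_union_left _ ha)))⟩
    · have hPe' : P = (B ∪ A) ∪ C := by rw [union_comm B A]; exact hPe
      exact ⟨cutb P B A C hPe' hd.symm hBC hAC hBn hle hno' (minDeg G)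
        (fun b hb => hdeg b (hmem b (mem_union_right _ hb))),
        cutb3 P B A C hPe' hd.symm hBC hAC hBn hle hno' (minDeg G)
        (fun b hb => hdeg b (hmem b (mem_union_right _ hb)))⟩
  · -- everything but one vertex removed
    have h1 := Set.ncard_add_ncard_compl S
    have h2 := hmin ⟨p0, hp0⟩
    have h3 : (G.neighborSet ⟨p0, hp0⟩).ncard + 1 ≤ Nat.card P := by
      have h4 : G.neighborSet ⟨p0, hp0⟩ ⊆ ({⟨p0, hp0⟩}ᶜ : Set P) := by
        intro y hy
        rw [Set.mem_compl_iff, Set.mem_singleton_iff]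
        rintro rfl
        exact G.loopless.irrefl _ hy
      have h5 := Set.ncard_le_ncard h4 (Set.toFinite _)
      have h6 := Set.ncard_add_ncard_compl ({⟨p0, hp0⟩} : Set P)
      rw [Set.ncard_singleton] at h6
      omega
    have h7 : Nat.card P = P.card := by simp
    have h8 : 1 ≤ S.ncard := by omega
    have h9 : minDeg G ≤ S.ncard := by omega
    refine ⟨⟨by omega, fun m l _ _ _ => ?_⟩, fun j hj _ => ?_⟩
    · have : 4 * minDeg G + 2 ≤ 6 * S.ncard := by omega
      exact this.trans (Nat.le_add_right _ _)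
    · exact cutb3_arith 1 j S.ncard (minDeg G) le_rfl hj h8 (Or.inl h9)

end Pool.PVG
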