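import Pool.Agent.PVG.Defs

namespace Pool.PVG

open Pool.Vis Finset

/- `q j = q i + β (q m - q i)` with `β ≠ 0, 1`. For `l` between `i` and `m` the three orientations of
`(i,l,m)`, `(i,l,j)`, `(l,m,j)` are `-f`, `-β f`, `(β-1) f` with `f = ori (q i) (q m) (q l)`; for `l`
between `m` and `j`: `f`, `(1-β) f`, `-β f`; for `l < i` or `l > j`: `f`, `β f`, `(β-1) f`; all are
`≥ 0`. If `β > 1` then `f = 0` for `i < l < j`; if `0 < β < 1`, `f = 0` for `m < l < j` and for
`l < i`, `l > j`; if `β < 0`, `f = 0` for `i < l < m` and for `l < i`, `l > j`. -/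
theorem flat (q : ℕ → Pt) (h : ℕ) (hOT : OT q h) (hinj : Inj q h) (i m j : ℕ) (him : i < m)
    (hmj : m < j) (hj : j < h) (hcol : ori (q i) (q m) (q j) = 0) :
    (q m ∈ openSegment ℝ (q i) (q j) ∧ ∀ l, i ≤ l → l ≤ j → ori (q i) (q m) (q l) = 0) ∨
    (q j ∈ openSegment ℝ (q i) (q m) ∧ (∀ l, m ≤ l → l ≤ j → ori (q i) (q m) (q l) = 0) ∧
      ∀ l < h, (l ≤ i ∨ j ≤ l) → ori (q i) (q m) (q l) = 0) ∨
    (q i ∈ openSegment ℝ (q m) (q j) ∧ (∀ l, i ≤ l → l ≤ m → ori (q i) (q m) (q l) = 0) ∧
      ∀ l < h, (l ≤ i ∨ j ≤ l) → ori (q i) (q m) (q l) = 0) := by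
  have hab : q i ≠ q m := fun e => absurd (hinj i (by omega) m (by omega) e) (by omega)
  have hac : q i ≠ q j := fun e => absurd (hinj i (by omega) j (by omega) e) (by omega)
  have hbc : q m ≠ q j := fun e => absurd (hinj m (by omega) j (by omega) e) (by omega)
  -- the parameter
  obtain ⟨β, hβ1, hβ2⟩ : ∃ β : ℝ, (q j).1 - (q i).1 = β * ((q m).1 - (q i).1) ∧
      (q j).2 - (q i).2 = β * ((q m).2 - (q i).2) := by
    set v1 := (q m).1 - (q i).1 with hv1
    set v2 := (q m).2 - (q i).2 with hv2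
    have hc : v1 * ((q j).2 - (q i).2) - v2 * ((q j).1 - (q i).1) = 0 := hcol
    have hn : v1 ^ 2 + v2 ^ 2 ≠ 0 := by
      intro h0
      have e1 : v1 = 0 := by nlinarith [sq_nonneg v1, sq_nonneg v2]
      have e2 : v2 = 0 := by nlinarith [sq_nonneg v1, sq_nonneg v2]
      apply hab
      exact Prod.ext (by linarith) (by linarith)
    refine ⟨(v1 * ((q j).1 - (q i).1) + v2 * ((q j).2 - (q i).2)) / (v1 ^ 2 + v2 ^ 2), ?_, ?_⟩
    · rw [div_mul_eq_mul_div, eq_div_iff hn]
      linear_combination (-v2) * hc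
    · rw [div_mul_eq_mul_div, eq_div_iff hn]
      linear_combination v1 * hc
  have hβ0 : β ≠ 0 := by
    rintro rfl
    apply hac
    exact Prod.ext (by linarith) (by linarith)
  have hβne : β ≠ 1 := by
    rintro rfl
    apply hbc
    exact Prod.ext (by linarith) (by linarith)
  have ej1 : (q j).1 = (q i).1 + β * ((q m).1 - (q i).1) := by linarith
  have ej2 : (q j).2 = (q i).2 + β * ((q m).2 - (q i).2) := by linarith
  -- orientations
  have o1 : ∀ x, ori (q i) x (q m) = - ori (q i) (q m) x := by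
    intro x; simp only [ori]; ring
  have o2 : ∀ x, ori (q i) x (q j) = - β * ori (q i) (q m) x := by
    intro x; simp only [ori]; rw [ej1, ej2]; ring
  have o3 : ∀ x, ori x (q m) (q j) = (β - 1) * ori (q i) (q m) x := by
    intro x; simp only [ori]; rw [ej1, ej2]; ring
  have o5 : ∀ x, ori x (q i) (q m) = ori (q i) (q m) x := by
    intro x; simp only [ori]; ring
  have o6 : ∀ x, ori x (q i) (q j) = β * ori (q i) (q m) x := by
    intro x; simp only [ori]; rw [ej1, ej2]; ring
  have o7 : ∀ x, ori (q i) (q j) x = β * ori (q i) (q m) x := by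
    intro x; simp only [ori]; rw [ej1, ej2]; ring
  have o8 : ∀ x, ori (q m) (q j) x = (β - 1) * ori (q i) (q m) x := by
    intro x; simp only [ori]; rw [ej1, ej2]; ring
  -- inequalities
  have L1 : ∀ l, i < l → l < m → ori (q i) (q m) (q l) ≤ 0 ∧ 0 ≤ - β * ori (q i) (q m) (q l) ∧
      0 ≤ (β - 1) * ori (q i) (q m) (q l) := by
    intro l h1 h2
    have a1 := hOT i l m h1 h2 (by omega)
    have a2 := hOT i l j h1 (by omega) hj
    have a3 := hOT l m j h2 hmj hj
    rw [o1] at a1; rw [o2] at a2; rw [o3] at a3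
    exact ⟨by linarith, a2, a3⟩
  have L2 : ∀ l, m < l → l < j → 0 ≤ ori (q i) (q m) (q l) ∧ 0 ≤ - β * ori (q i) (q m) (q l) := by
    intro l h1 h2
    have a1 := hOT i m l him h1 (by omega)
    have a2 := hOT i l j (by omega) h2 hj
    rw [o2] at a2
    exact ⟨a1, a2⟩
  have L3 : ∀ l < h, (l < i ∨ j < l) → 0 ≤ ori (q i) (q m) (q l) ∧
      0 ≤ β * ori (q i) (q m) (q l) ∧ 0 ≤ (β - 1) * ori (q i) (q m) (q l) := by
    intro l hl hlij
    rcases hlij with h1 | h1
    · have a1 := hOT l i m h1 him (by omega)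
      have a2 := hOT l i j h1 (by omega) hj
      have a3 := hOT l m j (by omega) hmj hj
      rw [o5] at a1; rw [o6] at a2; rw [o3] at a3
      exact ⟨a1, a2, a3⟩
    · have a1 := hOT i m l him (by omega) hl
      have a2 := hOT i j l (by omega) h1 hl
      have a3 := hOT m j l hmj h1 hl
      rw [o7] at a2; rw [o8] at a3
      exact ⟨a1, a2, a3⟩
  have z1 : ori (q i) (q m) (q i) = 0 := ori_self_left _ _
  have z2 : ori (q i) (q m) (q m) = 0 := ori_self_right _ _
  have key : ∀ t x : ℝ, t < 0 → 0 ≤ x → 0 ≤ t * x → x = 0 := by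
    intro t x ht hx htx
    rcases hx.eq_or_lt with h0 | h0
    · exact h0.symm
    · exact absurd (mul_neg_of_neg_of_pos ht h0) (not_lt.2 htx)
  have key' : ∀ t x : ℝ, 0 < t → x ≤ 0 → 0 ≤ t * x → x = 0 := by
    intro t x ht hx htx
    rcases hx.eq_or_lt with h0 | h0
    · exact h0
    · exact absurd (mul_neg_of_pos_of_neg ht h0) (not_lt.2 htx)
  rcases lt_trichotomy β 0 with hneg | hz | hpos
  · right; right
    refine ⟨⟨-β / (1 - β), 1 / (1 - β), ?_, ?_, ?_, ?_⟩, ?_, ?_⟩
    · exact div_pos (by linarith) (by linarith)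
    · exact div_pos one_pos (by linarith)
    · rw [← add_div, div_eq_one_iff_eq (by linarith)]; ring
    · have h1 : (1 - β) ≠ 0 := by linarith
      refine Prod.ext ?_ ?_
      · simp only [Prod.fst_add, Prod.smul_fst, smul_eq_mul]
        rw [ej1]; field_simp; ring
      · simp only [Prod.snd_add, Prod.smul_snd, smul_eq_mul]
        rw [ej2]; field_simp; ring
    · intro l h1 h2
      rcases h1.eq_or_lt with rfl | h1
      · exact z1
      rcases h2.eq_or_lt with rfl | h2
      · exact z2
      obtain ⟨a1, a2, a3⟩ := L1 l h1 h2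
      exact key' (-β) _ (by linarith) a1 a2
    · intro l hl hlij
      by_cases hli : l = i
      · rw [hli]; exact z1
      by_cases hlj : l = j
      · rw [hlj]; exact hcol
      obtain ⟨a1, a2, a3⟩ := L3 l hl (by omega)
      exact key β _ hneg a1 a2
  · exact absurd hz hβ0
  · rcases lt_or_gt_of_ne hβne with hlt | hgt
    · right; left
      refine ⟨⟨1 - β, β, by linarith, hpos, by ring, ?_⟩, ?_, ?_⟩
      · refine Prod.ext ?_ ?_
        · simp only [Prod.fst_add, Prod.smul_fst, smul_eq_mul]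
          rw [ej1]; ring
        · simp only [Prod.snd_add, Prod.smul_snd, smul_eq_mul]
          rw [ej2]; ring
      · intro l h1 h2
        rcases h1.eq_or_lt with rfl | h1
        · exact z2
        rcases h2.eq_or_lt with rfl | h2
        · exact hcol
        obtain ⟨a1, a2⟩ := L2 l h1 h2
        exact key (-β) _ (by linarith) a1 a2
      · intro l hl hlij
        by_cases hli : l = i
        · rw [hli]; exact z1
        by_cases hlj : l = j
        · rw [hlj]; exact hcol
        obtain ⟨a1, a2, a3⟩ := L3 l hl (by omega)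
        exact key (β - 1) _ (by linarith) a1 a3
    · left
      refine ⟨⟨1 - 1 / β, 1 / β, ?_, by positivity, by ring, ?_⟩, ?_⟩
      · have : 1 / β < 1 := by rw [div_lt_one hpos]; exact hgt
        linarith
      · refine Prod.ext ?_ ?_
        · simp only [Prod.fst_add, Prod.smul_fst, smul_eq_mul]
          rw [ej1]; field_simp; ring
        · simp only [Prod.snd_add, Prod.smul_snd, smul_eq_mul]
          rw [ej2]; field_simp; ring
      · intro l h1 h2
        rcases h1.eq_or_lt with rfl | h1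
        · exact z1
        rcases h2.eq_or_lt with rfl | h2
        · exact hcol
        rcases lt_trichotomy l m with h3 | h3 | h3
        · obtain ⟨a1, a2, a3⟩ := L1 l h1 h3
          exact key' (β - 1) _ (by linarith) a1 a3
        · rw [h3]; exact z2
        · obtain ⟨a1, a2⟩ := L2 l h3 h2
          exact key (-β) _ (by linarith) a1 a2

end Pool.PVG
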