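import Pool.Agent.PVG.Nci

namespace Pool.PVG

open Pool.Vis Finset

/-- The coordinate of `x` in the direction from `p` to `r`. -/
theorem gapd_seg (v x y z : Pt) (hz : z ∈ openSegment ℝ x y) :
    ∃ s t : ℝ, 0 < s ∧ 0 < t ∧ s + t = 1 ∧ dot v z = s * dot v x + t * dot v y := by
  obtain ⟨s, t, hs, ht, hst, he⟩ := ev_seg (dtf v 0) hz
  simp only [ev_dtf, sub_zero] at he
  exact ⟨s, t, hs, ht, hst, he⟩

theorem gapd_btw {v x y z : Pt} (hz : z ∈ openSegment ℝ x y) (h : dot v x < dot v z) :
    dot v z < dot v y := by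
  obtain ⟨s, t, hs, ht, hst, he⟩ := gapd_seg v x y z hz
  have h1 : s * dot v x < s * dot v z := mul_lt_mul_of_pos_left h hs
  have h2 : s * dot v z + t * dot v z = dot v z := by rw [← add_mul, hst, one_mul]
  have h3 : t * dot v z < t * dot v y := by linarith
  exact lt_of_mul_lt_mul_left h3 ht.le

theorem gapd_lt {v x y z : Pt} {r : ℝ} (hz : z ∈ openSegment ℝ x y) (hx : dot v x < r)
    (hy : dot v y ≤ r) : dot v z < r := by
  obtain ⟨s, t, hs, ht, hst, he⟩ := gapd_seg v x y z hz
  have h1 : s * dot v x < s * r := mul_lt_mul_of_pos_left hx hs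
  have h2 : t * dot v y ≤ t * r := mul_le_mul_of_nonneg_left hy ht.le
  have h3 : s * r + t * r = r := by rw [← add_mul, hst, one_mul]
  linarith

theorem gapd_gt {v x y z : Pt} {r : ℝ} (hz : z ∈ openSegment ℝ x y) (hx : r ≤ dot v x)
    (hy : r < dot v y) : r < dot v z := by
  obtain ⟨s, t, hs, ht, hst, he⟩ := gapd_seg v x y z hz
  have h1 : s * r ≤ s * dot v x := mul_le_mul_of_nonneg_left hx hs.le
  have h2 : t * r < t * dot v y := mul_lt_mul_of_pos_left hy ht
  have h3 : s * r + t * r = r := by rw [← add_mul, hst, one_mul]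
  linarith

theorem gapd_pos {x y : Pt} (h : x ≠ y) : dot (y - x) x < dot (y - x) y := by
  have h1 : 0 < (y.1 - x.1) ^ 2 + (y.2 - x.2) ^ 2 := by
    by_contra hc
    push Not at hc
    have h2 := sq_nonneg (y.1 - x.1)
    have h3 := sq_nonneg (y.2 - x.2)
    have h4 : (y.1 - x.1) ^ 2 = 0 := by linarith
    have h5 : (y.2 - x.2) ^ 2 = 0 := by linarith
    have h6 := pow_eq_zero_iff (two_ne_zero) |>.mp h4
    have h7 := pow_eq_zero_iff (two_ne_zero) |>.mp h5
    exact h (Prod.ext (by linarith) (by linarith))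
  simp only [dot, Prod.fst_sub, Prod.snd_sub]
  nlinarith

/- Disjointness of two collinear gaps. All four points are on the line of `q a`, `q (a+1)`. Let `q l`
be off the line. If `l < a` or `l > b + 1`: by `flat` for the triples `(a, a+1, b+1)` and
`(a, b, b+1)` (only the first case is possible, in the second and third the outside is flat) the order
on the line is `a, a+1, b, b+1` (`a + 1 = b` allowed). If `a + 1 < l < b`: for the triple
`(a, a+1, b+1)` the arc `a+1 .. b+1` is not flat, so `q a` is between `q (a+1)` and `q (b+1)`; for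
`(a+1, b, b+1)` the arc `a+1 .. b` is not flat, so `q (b+1)` is between `q (a+1)` and `q b`; the order
is `a+1, a, b+1, b` (or `q a`, `q (b+1)` in the weak order given by `flat` for `(a, b, b+1)`). In both
cases the open segments are disjoint. -/
theorem gapd (q : ℕ → Pt) (h : ℕ) (hOT : OT q h) (hinj : Inj q h) (a b : ℕ) (hab : a + 1 ≤ b)
    (hb : b + 1 < h) (h1 : ori (q a) (q (a + 1)) (q b) = 0)
    (h2 : ori (q a) (q (a + 1)) (q (b + 1)) = 0) (l : ℕ) (hl : l < h)
    (hl0 : ori (q a) (q (a + 1)) (q l) ≠ 0) (c : Pt)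
    (hc : c ∈ openSegment ℝ (q a) (q (a + 1))) (hc' : c ∈ openSegment ℝ (q b) (q (b + 1))) :
    False := by
  have hne : q a ≠ q (a + 1) := fun he => by
    have := hinj a (by omega) (a + 1) (by omega) he
    omega
  have hpos := gapd_pos hne
  set v : Pt := q (a + 1) - q a with hv
  have hl1 : l ≠ a := by rintro rfl; exact hl0 (ori_self_left _ _)
  have hl2 : l ≠ a + 1 := by rintro rfl; exact hl0 (ori_self_right _ _)
  have hl3 : l ≠ b := by rintro rfl; exact hl0 h1
  have hl4 : l ≠ b + 1 := by rintro rfl; exact hl0 h2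
  by_cases hout : l < a ∨ b + 1 < l
  · -- the outside is not flat
    have hneb : q a ≠ q b := fun he => by
      have := hinj a (by omega) b (by omega) he
      omega
    have h3 : ori (q a) (q b) (q (b + 1)) = 0 := ori_line hne (ori_self_left _ _) h1 h2
    have h4 : dot v (q (a + 1)) ≤ dot v (q b) := by
      rcases Nat.eq_or_lt_of_le hab with heq | hlt
      · rw [heq]
      · rcases flat q h hOT hinj a (a + 1) b (by omega) hlt (by omega) h1 with
          ⟨h5, -⟩ | ⟨-, -, h5⟩ | ⟨-, -, h5⟩
        · exact (gapd_btw h5 hpos).le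
        · exact absurd (h5 l hl (by omega)) hl0
        · exact absurd (h5 l hl (by omega)) hl0
    have h6 : dot v (q b) < dot v (q (b + 1)) := by
      have hx : ∀ l, ori (q a) (q b) (q l) = 0 → ori (q a) (q (a + 1)) (q l) = 0 := by
        intro l hl'
        refine ori_line hneb (ori_self_left _ _) ?_ hl'
        exact ori_line hne (ori_self_left _ _) h1 (ori_self_right _ _)
      rcases flat q h hOT hinj a b (b + 1) (by omega) (by omega) hb h3 with
        ⟨h5, -⟩ | ⟨-, -, h5⟩ | ⟨-, -, h5⟩
      · exact gapd_btw h5 (hpos.trans_le h4)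
      · exact absurd (hx l (h5 l hl (by omega))) hl0
      · exact absurd (hx l (h5 l hl (by omega))) hl0
    have h7 : dot v c < dot v (q (a + 1)) := gapd_lt hc hpos le_rfl
    have h8 : dot v (q b) < dot v c := gapd_gt hc' le_rfl h6
    linarith
  · have hin : a + 1 < l ∧ l < b := by omega
    have h4 : dot v (q b) < dot v (q a) := by
      rcases flat q h hOT hinj a (a + 1) b (by omega) (by omega) (by omega) h1 with
        ⟨-, h5⟩ | ⟨-, h5, -⟩ | ⟨h5, -⟩
      · exact absurd (h5 l (by omega) (by omega)) hl0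
      · exact absurd (h5 l (by omega) (by omega)) hl0
      · by_contra hcon
        push Not at hcon
        exact absurd (gapd_gt (openSegment_symm ℝ (q (a + 1)) (q b) ▸ h5) hcon hpos) (lt_irrefl _)
    have h6 : dot v (q (b + 1)) < dot v (q a) := by
      rcases flat q h hOT hinj a (a + 1) (b + 1) (by omega) (by omega) (by omega) h2 with
        ⟨-, h5⟩ | ⟨-, h5, -⟩ | ⟨h5, -⟩
      · exact absurd (h5 l (by omega) (by omega)) hl0
      · exact absurd (h5 l (by omega) (by omega)) hl0
      · by_contra hcon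
        push Not at hcon
        exact absurd (gapd_gt (openSegment_symm ℝ (q (a + 1)) (q (b + 1)) ▸ h5) hcon hpos)
          (lt_irrefl _)
    have h7 : dot v (q a) < dot v c := gapd_gt hc le_rfl hpos
    have h8 : dot v c < dot v (q a) := gapd_lt hc' h4 h6.le
    linarith

end Pool.PVG
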