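import Pool.Agent.PVG.Defs

namespace Pool.PVG

open Pool.Vis Finset

/- `(ψ, eta ψ, 1)` are independent, so `eta ψ p / ψ p` and `1 / ψ p` determine `p`. -/
theorem key_inj (ψ : Fn) (hψ : ψ.NZ) (p q : Pt) (hp : ψ.ev p ≠ 0) (hq : ψ.ev q ≠ 0)
    (h : key ψ p = key ψ q) : p = q := by
  have h1 := congrArg (fun x => (ofLex x).1) h
  have h2 := congrArg (fun x => (ofLex x).2) h
  simp only [key, ofLex_toLex] at h1 h2
  have h3 : ψ.ev p = ψ.ev q := by
    rw [one_div, one_div] at h2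
    exact inv_injective h2
  have h4 : (eta ψ).ev p = (eta ψ).ev q := by
    rw [h3] at h1
    field_simp at h1
    exact h1
  simp only [Fn.ev, eta] at h3 h4
  have hpos : 0 < ψ.a ^ 2 + ψ.b ^ 2 := by
    rcases hψ with h | h
    · positivity
    · positivity
  have e1 : (ψ.a ^ 2 + ψ.b ^ 2) * (p.1 - q.1) = 0 := by
    linear_combination ψ.a * h3 - ψ.b * h4
  have e2 : (ψ.a ^ 2 + ψ.b ^ 2) * (p.2 - q.2) = 0 := by
    linear_combination ψ.b * h3 + ψ.a * h4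
  have f1 := (mul_eq_zero.mp e1).resolve_left hpos.ne'
  have f2 := (mul_eq_zero.mp e2).resolve_left hpos.ne'
  exact Prod.ext (by linarith) (by linarith)

theorem key_lex {σ ρ A1 A1' A2 A2' B1 B1' B2 B2' : ℝ} (hσ : 0 < σ) (hρ : 0 < ρ)
    (hA : σ * (A2 - A2') = ρ * (A1 - A1')) (hB : σ * (B2 - B2') = ρ * (B1 - B1')) :
    (toLex (A1, B1) : ℝ ×ₗ ℝ) ≤ toLex (A1', B1') ↔ (toLex (A2, B2) : ℝ ×ₗ ℝ) ≤ toLex (A2', B2') := by
  have l1 : A1 < A1' ↔ A2 < A2' := by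
    constructor
    · intro h
      have h1 : σ * (A2 - A2') < 0 := by rw [hA]; exact mul_neg_of_pos_of_neg hρ (by linarith)
      by_contra hc
      push Not at hc
      have := mul_nonneg hσ.le (sub_nonneg.mpr hc)
      linarith
    · intro h
      have h1 : ρ * (A1 - A1') < 0 := by rw [← hA]; exact mul_neg_of_pos_of_neg hσ (by linarith)
      by_contra hc
      push Not at hc
      have := mul_nonneg hρ.le (sub_nonneg.mpr hc)
      linarith
  have l2 : A1 = A1' ↔ A2 = A2' := by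
    constructor
    · intro h
      have h1 : σ * (A2 - A2') = 0 := by rw [hA, h]; ring
      have := (mul_eq_zero.mp h1).resolve_left hσ.ne'
      linarith
    · intro h
      have h1 : ρ * (A1 - A1') = 0 := by rw [← hA, h]; ring
      have := (mul_eq_zero.mp h1).resolve_left hρ.ne'
      linarith
  have l3 : B1 ≤ B1' ↔ B2 ≤ B2' := by
    constructor
    · intro h
      by_contra hc
      push Not at hc
      have h1 : 0 < σ * (B2 - B2') := mul_pos hσ (by linarith)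
      have := mul_nonneg hρ.le (sub_nonneg.mpr h)
      nlinarith
    · intro h
      by_contra hc
      push Not at hc
      have h1 : 0 < ρ * (B1 - B1') := mul_pos hρ (by linarith)
      have := mul_nonneg hσ.le (sub_nonneg.mpr h)
      nlinarith
  rw [Prod.Lex.toLex_le_toLex, Prod.Lex.toLex_le_toLex]
  simp only
  rw [l1, l2, l3]

/- Write `c = (1-s) P.1 + s P.2 = (1-s') P'.1 + s' P'.2`, `0 < s, s' < 1`. Then
`s ψ(P.2) = s g(P.2) = g(c) = (1-s') g(P'.1) + s' g(P'.2) ≤ s' ψ(P'.2)` and symmetrically, so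
`s ψ(P.2) = s' ψ(P'.2) =: σ > 0` and all inequalities are equalities; comparing `ψ(c)` also
`(1-s) ψ(P.1) = (1-s') ψ(P'.1) =: -ρ < 0`. For every functional `η` we get
`η(c) = -ρ η(P.1)/ψ(P.1) + σ η(P.2)/ψ(P.2) = -ρ η(P'.1)/ψ(P'.1) + σ η(P'.2)/ψ(P'.2)`, i.e.
`σ (ζ(P.2) - ζ(P'.2)) = ρ (ζ(P.1) - ζ(P'.1))` with `ζ = η / ψ`; take `η = eta ψ` and `η = 1`
(`⟨0,0,1⟩`) and compare lexicographically. -/
theorem cross_core {S1 S2 : Finset Pt} {ψ g g' : Fn} (hg : Cf S1 S2 ψ g) (hg' : Cf S1 S2 ψ g')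
    {P P' : Pt × Pt} (hP : Ct S1 S2 ψ g P) (hP' : Ct S1 S2 ψ g' P') {c : Pt}
    (hc : c ∈ openSegment ℝ P.1 P.2) (hc' : c ∈ openSegment ℝ P'.1 P'.2) :
    (g.ev P'.1 = 0 ∧ g.ev P'.2 = ψ.ev P'.2) ∧ (g'.ev P.1 = 0 ∧ g'.ev P.2 = ψ.ev P.2) ∧
      (key ψ P.1 ≤ key ψ P'.1 ↔ key ψ P.2 ≤ key ψ P'.2) := by
  have hall : ∀ {p q : Pt}, c ∈ openSegment ℝ p q → ∃ r s : ℝ, 0 < r ∧ 0 < s ∧ r + s = 1 ∧
      ∀ f : Fn, f.ev c = r * f.ev p + s * f.ev q := by
    intro p q hc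
    obtain ⟨r, s, hr, hs, hrs, rfl⟩ := hc
    refine ⟨r, s, hr, hs, hrs, fun f => ?_⟩
    have h : r = 1 - s := by linarith
    subst h
    simp only [Fn.ev, Prod.fst_add, Prod.snd_add, Prod.smul_fst, Prod.smul_snd, smul_eq_mul]
    ring
  obtain ⟨r, s, hr, hs, hrs, hf⟩ := hall hc
  obtain ⟨r', s', hr', hs', hrs', hf'⟩ := hall hc'
  obtain ⟨p1, p2, p3, p4⟩ := hP
  obtain ⟨q1, q2, q3, q4⟩ := hP'
  have a1 : s * ψ.ev P.2 = r' * g.ev P'.1 + s' * g.ev P'.2 := by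
    have e1 := hf g
    have e2 := hf' g
    rw [p3, p4] at e1
    linarith
  have a2 : s' * ψ.ev P'.2 = r * g'.ev P.1 + s * g'.ev P.2 := by
    have e1 := hf g'
    have e2 := hf' g'
    rw [q3, q4] at e2
    linarith
  have b1 := mul_nonneg hr'.le (neg_nonneg.mpr (hg.le1 _ q1))
  have b2 := mul_nonneg hs'.le (sub_nonneg.mpr (hg.le2 _ q2))
  have b3 := mul_nonneg hr.le (neg_nonneg.mpr (hg'.le1 _ p1))
  have b4 := mul_nonneg hs.le (sub_nonneg.mpr (hg'.le2 _ p2))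
  have c1 : r' * (- g.ev P'.1) = 0 := by nlinarith
  have c2 : s' * (ψ.ev P'.2 - g.ev P'.2) = 0 := by nlinarith
  have c3 : r * (- g'.ev P.1) = 0 := by nlinarith
  have c4 : s * (ψ.ev P.2 - g'.ev P.2) = 0 := by nlinarith
  have d1 : g.ev P'.1 = 0 := by
    have := (mul_eq_zero.mp c1).resolve_left hr'.ne'
    linarith
  have d2 : g.ev P'.2 = ψ.ev P'.2 := by
    have := (mul_eq_zero.mp c2).resolve_left hs'.ne'
    linarith
  have d3 : g'.ev P.1 = 0 := by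
    have := (mul_eq_zero.mp c3).resolve_left hr.ne'
    linarith
  have d4 : g'.ev P.2 = ψ.ev P.2 := by
    have := (mul_eq_zero.mp c4).resolve_left hs.ne'
    linarith
  refine ⟨⟨d1, d2⟩, ⟨d3, d4⟩, ?_⟩
  have n1 := hg.neg _ p1
  have n2 := hg.neg _ q1
  have n3 := hg.pos _ p2
  have n4 := hg.pos _ q2
  have es : s * ψ.ev P.2 = s' * ψ.ev P'.2 := by
    rw [a1, d1, d2]; ring
  have er : r * ψ.ev P.1 = r' * ψ.ev P'.1 := by
    have e1 := hf ψ
    have e2 := hf' ψ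
    linarith
  have key2 : ∀ η : Fn, (s * ψ.ev P.2) * (η.ev P.2 / ψ.ev P.2 - η.ev P'.2 / ψ.ev P'.2) =
      (-(r * ψ.ev P.1)) * (η.ev P.1 / ψ.ev P.1 - η.ev P'.1 / ψ.ev P'.1) := by
    intro η
    have e1 := hf η
    have e2 := hf' η
    have t1 : (s * ψ.ev P.2) * (η.ev P.2 / ψ.ev P.2) = s * η.ev P.2 := by
      field_simp
    have t2 : (s * ψ.ev P.2) * (η.ev P'.2 / ψ.ev P'.2) = s' * η.ev P'.2 := by
      rw [es]; field_simp
    have t3 : (r * ψ.ev P.1) * (η.ev P.1 / ψ.ev P.1) = r * η.ev P.1 := by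
      have := n1.ne
      field_simp
    have t4 : (r * ψ.ev P.1) * (η.ev P'.1 / ψ.ev P'.1) = r' * η.ev P'.1 := by
      have := n2.ne
      rw [er]; field_simp
    rw [mul_sub, mul_sub, t1, t2, neg_mul, neg_mul, t3, t4]
    linarith
  have k1 := key2 (eta ψ)
  have k2 := key2 ⟨0, 0, 1⟩
  simp only [Fn.ev, zero_mul, zero_add] at k2
  have hσ : 0 < s * ψ.ev P.2 := mul_pos hs n3
  have hρ : 0 < -(r * ψ.ev P.1) := by
    have := mul_neg_of_pos_of_neg hr n1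
    linarith
  unfold key
  exact key_lex hσ hρ k1 k2

end Pool.PVG
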