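import Pool.Agent.PVG.Defs

namespace Pool.PVG

open Pool.Vis Finset

/- The pairs are nested (`NX` and `P.1 < u ≤ Q.2`); the number `v P` of the `x ∈ J` with `x < P.1` or
`P.2 < x` is at most `J.card - 2` and different for different pairs (if `P ≠ Q`, `P.1 ≤ Q.1`,
`Q.2 ≤ P.2` then `P.1` or `P.2` is counted for `Q` and not for `P`). -/
theorem line_count (F : Finset (ℕ × ℕ)) (J : Finset ℕ) (u : ℕ)
    (hF : ∀ P ∈ F, P.1 ∈ J ∧ P.2 ∈ J ∧ P.1 < u ∧ u ≤ P.2) (hn : ∀ P ∈ F, ∀ Q ∈ F, NX P Q) :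
    F.card ≤ J.card - 1 := by
  classical
  rcases F.eq_empty_or_nonempty with h0 | ⟨P0, hP0⟩
  · rw [h0]; simp
  have hJ2 : 2 ≤ J.card := by
    obtain ⟨h1, h2, h3, h4⟩ := hF P0 hP0
    have : ({P0.1, P0.2} : Finset ℕ) ⊆ J := by
      intro x hx
      rcases mem_insert.1 hx with h | h
      · rw [h]; exact h1
      · rw [mem_singleton.1 h]; exact h2
    have h5 := card_le_card this
    rwa [card_pair (by omega)] at h5
  have key : ∀ P ∈ F, ∀ Q ∈ F, P ≠ Q → P.1 ≤ Q.1 → Q.2 ≤ P.2 →
      (J.filter (fun x => x < P.1 ∨ P.2 < x)).card < (J.filter (fun x => x < Q.1 ∨ Q.2 < x)).card := by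
    intro P hP Q hQ hPQ h1 h2
    apply card_lt_card
    rw [Finset.ssubset_iff_of_subset]
    · by_cases h : P.1 = Q.1
      · have h' : P.2 ≠ Q.2 := fun h' => hPQ (Prod.ext h h')
        refine ⟨P.2, ?_, ?_⟩
        · rw [mem_filter]; exact ⟨(hF P hP).2.1, Or.inr (by omega)⟩
        · rw [mem_filter]; rintro ⟨-, h3⟩
          have := hF P hP
          omega
      · refine ⟨P.1, ?_, ?_⟩
        · rw [mem_filter]; exact ⟨(hF P hP).1, Or.inl (by omega)⟩
        · rw [mem_filter]; rintro ⟨-, h3⟩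
          have := hF P hP
          omega
    · intro x hx
      rw [mem_filter] at hx ⊢
      exact ⟨hx.1, by omega⟩
  have hinj : Set.InjOn (fun P : ℕ × ℕ => (J.filter (fun x => x < P.1 ∨ P.2 < x)).card) F := by
    intro P hP Q hQ hPQ
    by_contra hne
    simp only at hPQ
    have hP' : P ∈ F := hP
    have hQ' : Q ∈ F := hQ
    have h1 := hF P hP'
    have h2 := hF Q hQ'
    rcases hn P hP' Q hQ' with h | h | h | h
    · have := key P hP' Q hQ' hne h.1 h.2
      omega
    · have := key Q hQ' P hP' (Ne.symm hne) h.1 h.2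
      omega
    · omega
    · omega
  have hmaps : ∀ P ∈ F, (J.filter (fun x => x < P.1 ∨ P.2 < x)).card ∈ range (J.card - 1) := by
    intro P hP
    rw [mem_range]
    obtain ⟨h1, h2, h3, h4⟩ := hF P hP
    have hsub : (J.filter (fun x => x < P.1 ∨ P.2 < x)) ⊆ J \ {P.1, P.2} := by
      intro x hx
      rw [mem_filter] at hx
      rw [mem_sdiff, mem_insert, mem_singleton]
      exact ⟨hx.1, by omega⟩
    have h5 := card_le_card hsub
    have hsub2 : ({P.1, P.2} : Finset ℕ) ⊆ J := by
      intro x hx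
      rcases mem_insert.1 hx with h | h
      · rw [h]; exact h1
      · rw [mem_singleton.1 h]; exact h2
    rw [card_sdiff_of_subset hsub2, card_pair (by omega)] at h5
    omega
  have := card_le_card_of_injOn _ hmaps hinj
  rwa [card_range] at this

end Pool.PVG
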