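import Pool.Agent.PVG.Defs

namespace Pool.PVG

open Pool.Vis Finset

open Classical in
/-- The subsets `T` of `P` with at least five points which are the intersection of `P` with a
line. -/
noncomputable def richLines (P : Finset (ℝ × ℝ)) : Finset (Finset (ℝ × ℝ)) :=
  P.powerset.filter (fun T => 5 ≤ T.card ∧
    ∃ a b c : ℝ, (a ≠ 0 ∨ b ≠ 0) ∧ ∀ x ∈ P, x ∈ T ↔ a * x.1 + b * x.2 = c)

lemma mem_richLines {P T : Finset (ℝ × ℝ)} : T ∈ richLines P ↔ T ⊆ P ∧ 5 ≤ T.card ∧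
    ∃ a b c : ℝ, (a ≠ 0 ∨ b ≠ 0) ∧ ∀ x ∈ P, x ∈ T ↔ a * x.1 + b * x.2 = c := by
  classical
  unfold richLines
  rw [mem_filter, mem_powerset]

end Pool.PVG
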