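import Pool.Agent.PVG.Xi

namespace Pool.PVG

open Pool.Vis Finset

lemma lm_ct {S1 S2 : Finset Pt} {ψ g : Fn} {F : Finset (Pt × Pt)}
    (hF : St1 S1 S2 ψ g F ∨ St2 S1 S2 ψ g F) {P : Pt × Pt} (hP : P ∈ F) : Ct S1 S2 ψ g P := by
  rcases hF with hF | hF
  · exact hF.1 P hP
  · exact hF.1 P hP

lemma lm_z {S1 S2 : Finset Pt} {ψ g : Fn} (hg : Cf S1 S2 ψ g) {F : Finset (Pt × Pt)}
    (hF : St1 S1 S2 ψ g F ∨ St2 S1 S2 ψ g F) {P Q : Pt × Pt} (hP : P ∈ F) (hQ : Q ∈ F)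
    (h : xi ψ P < xi ψ Q) :
    ∃ z, 0 < ori P.1 P.2 z ∧ ∀ g' : Fn, Cf S1 S2 ψ g' → g'.ev z ≤ g.ev z := by
  rcases hF with ⟨hF, y, -, hy⟩ | ⟨hF, t, -, ht⟩
  · have hcP := hF P hP
    have hcQ := hF Q hQ
    refine ⟨Q.1, ?_, ?_⟩
    · have e : P.2 = Q.2 := (hy P hP).trans (hy Q hQ).symm
      have h1 : xi ψ (P.1, P.2) < xi ψ (Q.1, P.2) := by
        rw [e]
        rw [← e]
        have h2 : (Q.1, P.2) = Q := by rw [e]
        rw [h2]
        exact h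
      exact (xi_lt1 ψ P.1 Q.1 P.2 (hg.neg _ hcP.1) (hg.neg _ hcQ.1) (hg.pos _ hcP.2.1)).1 h1
    · intro g' hg'
      rw [hcQ.2.2.1]
      exact hg'.le1 _ hcQ.1
  · have hcP := hF P hP
    have hcQ := hF Q hQ
    refine ⟨Q.2, ?_, ?_⟩
    · have e : P.1 = Q.1 := (ht P hP).trans (ht Q hQ).symm
      have h1 : xi ψ (P.1, P.2) < xi ψ (P.1, Q.2) := by
        have h2 : (P.1, Q.2) = Q := by rw [e]
        rw [h2]
        exact h
      exact (xi_lt2 ψ P.1 P.2 Q.2 (hg.neg _ hcP.1) (hg.pos _ hcP.2.1) (hg.pos _ hcQ.2.1)).1 h1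
    · intro g' hg'
      rw [hcQ.2.2.2]
      exact hg'.le2 _ hcQ.2.1

/- Let `z` be the end point of `Q` which is not the centre of `F`, `z'` the end point of `Q'` which
is not the centre of `F'`; by `xi_lt1`, `xi_lt2` both have `ori P.1 P.2 > 0`. `δ = g - g'` vanishes
at `P.1` and `P.2`, so it is a multiple `κ · ori P.1 P.2` (`P.1 ≠ P.2`); `δ(z) ≥ 0` and `δ(z') ≤ 0`
(contact for one, the inequality for the other functional), so `κ = 0`. -/
theorem lm_eq {S1 S2 : Finset Pt} {ψ g g' : Fn} (hg : Cf S1 S2 ψ g) (hg' : Cf S1 S2 ψ g')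
    {F F' : Finset (Pt × Pt)} (hF : St1 S1 S2 ψ g F ∨ St2 S1 S2 ψ g F)
    (hF' : St1 S1 S2 ψ g' F' ∨ St2 S1 S2 ψ g' F') {P Q Q' : Pt × Pt} (hP : P ∈ F) (hP' : P ∈ F')
    (hQ : Q ∈ F) (hQ' : Q' ∈ F') (h : xi ψ P < xi ψ Q) (h' : xi ψ P < xi ψ Q') :
    ∀ x, g.ev x = g'.ev x := by
  obtain ⟨z, hz, hz1⟩ := lm_z hg hF hP hQ h
  obtain ⟨z', hz', hz1'⟩ := lm_z hg' hF' hP' hQ' h'
  have c1 := lm_ct hF hP
  have c2 := lm_ct hF' hP'
  have d1 := hz1 g' hg'
  have d2 := hz1' g hg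
  have hne : P.1 ≠ P.2 := by
    intro he
    have a1 := hg.neg _ c1.1
    have a2 := hg.pos _ c1.2.1
    rw [he] at a1
    linarith
  obtain ⟨p, q⟩ := P
  simp only at c1 c2 hne hz hz'
  have e1 : g.ev p = g'.ev p := by rw [c1.2.2.1, c2.2.2.1]
  have e2 : g.ev q = g'.ev q := by rw [c1.2.2.2, c2.2.2.2]
  have hN : 0 < (q.1 - p.1) ^ 2 + (q.2 - p.2) ^ 2 := by
    rcases eq_or_ne q.1 p.1 with h1 | h1
    · have h2 : q.2 ≠ p.2 := fun h2 => hne (Prod.ext h1.symm h2.symm)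
      have h3 : 0 < (q.2 - p.2) ^ 2 := by
        have := sub_ne_zero.mpr h2
        positivity
      nlinarith [sq_nonneg (q.1 - p.1)]
    · have h3 : 0 < (q.1 - p.1) ^ 2 := by
        have := sub_ne_zero.mpr h1
        positivity
      nlinarith [sq_nonneg (q.2 - p.2)]
  have key : ∀ x, ((q.1 - p.1) ^ 2 + (q.2 - p.2) ^ 2) * (g.ev x - g'.ev x) =
      ((g.b - g'.b) * (q.1 - p.1) - (g.a - g'.a) * (q.2 - p.2)) * ori p q x := by
    intro x
    simp only [Fn.ev, ori] at e1 e2 ⊢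
    linear_combination ((q.1 - p.1) ^ 2 + (q.2 - p.2) ^ 2) * e1 +
      ((q.1 - p.1) * (x.1 - p.1) + (q.2 - p.2) * (x.2 - p.2)) * (e2 - e1)
  have k1 := key z
  have k2 := key z'
  have hk : (g.b - g'.b) * (q.1 - p.1) - (g.a - g'.a) * (q.2 - p.2) = 0 := by
    apply le_antisymm
    · by_contra hcon
      push Not at hcon
      have := mul_pos hcon hz'
      rw [← k2] at this
      nlinarith
    · by_contra hcon
      push Not at hcon
      have := mul_neg_of_neg_of_pos hcon hz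
      rw [← k1] at this
      nlinarith
  intro x
  have k3 := key x
  rw [hk, zero_mul] at k3
  rcases mul_eq_zero.mp k3 with h1 | h1
  · exact absurd h1 hN.ne'
  · linarith

lemma lm_coef (ψ h : Fn) (p : Pt) (hp : ψ.ev p ≠ 0) :
    (ψ.a ^ 2 + ψ.b ^ 2) * (h.ev p / ψ.ev p) = (h.a * ψ.a + h.b * ψ.b) +
      (h.b * ψ.a - h.a * ψ.b) * ((eta ψ).ev p / ψ.ev p) +
      ((ψ.a ^ 2 + ψ.b ^ 2) * h.c - (h.a * ψ.a + h.b * ψ.b) * ψ.c) * (1 / ψ.ev p) := by
  field_simp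
  simp only [Fn.ev, eta]
  ring

lemma lm_real {v1 v2 w1 w2 b c b' c' : ℝ} (h1 : b * v1 + c * v2 = 0) (h2 : b * w1 + c * w2 = 0)
    (hne : b ≠ 0 ∨ c ≠ 0) (hD : b' * v1 + c' * v2 < 0) (hD' : 0 < b' * w1 + c' * w2)
    (hv : 0 < v1 ∨ (v1 = 0 ∧ 0 ≤ v2)) (hw : 0 < w1 ∨ (w1 = 0 ∧ 0 ≤ w2)) : False := by
  have hdet : v1 * w2 = v2 * w1 := by
    rcases hne with hb | hc
    · have : b * (v1 * w2 - v2 * w1) = 0 := by
        linear_combination w2 * h1 - v2 * h2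
      rcases mul_eq_zero.mp this with h | h
      · exact absurd h hb
      · linarith
    · have : c * (v1 * w2 - v2 * w1) = 0 := by
        linear_combination v1 * h2 - w1 * h1
      rcases mul_eq_zero.mp this with h | h
      · exact absurd h hc
      · linarith
  rcases hv with hv | ⟨hv, hv2⟩
  · rcases hw with hw | ⟨hw, hw2⟩
    · have e : (b' * w1 + c' * w2) * v1 = (b' * v1 + c' * v2) * w1 := by
        linear_combination c' * hdet
      have e1 : 0 < (b' * w1 + c' * w2) * v1 := mul_pos hD' hv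
      have e2 : (b' * v1 + c' * v2) * w1 < 0 := mul_neg_of_neg_of_pos hD hw
      linarith
    · subst hw
      have : v1 * w2 = 0 := by rw [hdet]; ring
      rcases mul_eq_zero.mp this with h | h
      · linarith
      · rw [h] at hD'
        linarith
  · subst hv
    have hv3 : v2 ≠ 0 := by
      rintro rfl
      linarith
    have hv4 : 0 < v2 := lt_of_le_of_ne hv2 (Ne.symm hv3)
    have hw0 : w1 = 0 := by
      have : v2 * w1 = 0 := by rw [← hdet]; ring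
      rcases mul_eq_zero.mp this with h | h
      · exact absurd h hv3
      · exact h
    have hc' : c' < 0 := by
      by_contra hcon
      push Not at hcon
      have := mul_nonneg hcon hv4.le
      linarith
    have hw2 : 0 ≤ w2 := by
      rcases hw with hw | hw
      · rw [hw0] at hw
        exact absurd hw (lt_irrefl 0)
      · exact hw.2
    rw [hw0] at hD'
    have := mul_nonpos_of_nonpos_of_nonneg hc'.le hw2
    linarith

lemma lm_lex {ψ : Fn} {p q : Pt} (h : key ψ p ≤ key ψ q) :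
    0 < (eta ψ).ev q / ψ.ev q - (eta ψ).ev p / ψ.ev p ∨
      ((eta ψ).ev q / ψ.ev q - (eta ψ).ev p / ψ.ev p = 0 ∧
        0 ≤ 1 / ψ.ev q - 1 / ψ.ev p) := by
  unfold key at h
  rw [Prod.Lex.toLex_le_toLex] at h
  rcases h with h | ⟨h, h2⟩
  · left
    simp only at h
    linarith
  · right
    simp only at h h2
    exact ⟨by linarith, by linarith⟩

/- By `lm_eq` `g = g'` as functions. `P = (t, y)` with `y` the first contact point in `S2` and `t` the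
first contact point in `S1`. `Q = (t1, y)`, `Q' = (t, y1)` with `ori t y t1 > 0`, `ori t y y1 > 0`,
`key t ≤ key t1`, `key y ≤ key y1`. The functional `ori t y` divided by `ψ` is `0` at `t`, `y`,
negative at `t1`, positive at `y1`. The points `t, t1` are on the line `g = 0` and `y, y1` on the line
`ψ = g`; in the coordinates `(eta ψ / ψ, 1 / ψ)` these lines are parallel: writing
`v = (1/ψ(t1) - 1/ψ(t), ζ(t1) - ζ(t))` and `v'` the same for `y1, y`, both are multiples of one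
vector, both lexicographically positive, so `v' = λ v` with `λ > 0`; then
`ori(y1)/ψ(y1) = λ ori(t1)/ψ(t1)`, a contradiction of signs. (Every functional divided by `ψ` is an
affine function of `(eta ψ / ψ, 1 / ψ)`.) -/
theorem lm_mix {S1 S2 : Finset Pt} {ψ g g' : Fn} (hg : Cf S1 S2 ψ g) (hg' : Cf S1 S2 ψ g')
    {F F' : Finset (Pt × Pt)} (hF : St1 S1 S2 ψ g F) (hF' : St2 S1 S2 ψ g' F')
    {P Q Q' : Pt × Pt} (hP : P ∈ F) (hP' : P ∈ F') (hQ : Q ∈ F) (hQ' : Q' ∈ F')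
    (h : xi ψ P < xi ψ Q) (h' : xi ψ P < xi ψ Q') : False := by
  have heq := lm_eq hg hg' (Or.inl hF) (Or.inr hF') hP hP' hQ hQ' h h'
  obtain ⟨cF, y, hy, hyF⟩ := hF
  obtain ⟨cF', t, ht, htF'⟩ := hF'
  obtain ⟨p, q⟩ := P
  obtain ⟨t1, q1⟩ := Q
  obtain ⟨p1, y1⟩ := Q'
  have e1 : q = y := hyF _ hP
  have e2 : q1 = y := hyF _ hQ
  have e3 : p = t := htF' _ hP'
  have e4 : p1 = t := htF' _ hQ'
  subst e1 e3
  subst e2 e4
  have cP := cF _ hP
  have cQ := cF _ hQ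
  have cQ' := cF' _ hQ'
  simp only [Ct] at cP cQ cQ'
  have n1 := hg.neg _ cP.1
  have n2 := hg.neg _ cQ.1
  have n3 := hg.pos _ cP.2.1
  have n4 := hg.pos _ cQ'.2.1
  have o1 := (xi_lt1 ψ _ _ _ n1 n2 n3).1 h
  have o2 := (xi_lt2 ψ _ _ _ n1 n3 n4).1 h'
  have k1 := lm_lex (ht.2.2 t1 cQ.1 (by rw [← heq]; exact cQ.2.2.1))
  have k2 := lm_lex (hy.2.2 y1 cQ'.2.1 (by rw [heq]; exact cQ'.2.2.2))
  have g1 := lm_coef ψ g _ n1.ne
  have g2 := lm_coef ψ g _ n2.ne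
  have g3 := lm_coef ψ g _ n3.ne'
  have g4 := lm_coef ψ g _ n4.ne'
  rw [cP.2.2.1, zero_div, mul_zero] at g1
  rw [cQ.2.2.1, zero_div, mul_zero] at g2
  rw [cP.2.2.2, div_self n3.ne', mul_one] at g3
  rw [heq, cQ'.2.2.2, div_self n4.ne', mul_one] at g4
  have f1 := lm_coef ψ (orf p1 q1) p1 n1.ne
  have f2 := lm_coef ψ (orf p1 q1) t1 n2.ne
  have f3 := lm_coef ψ (orf p1 q1) q1 n3.ne'
  have f4 := lm_coef ψ (orf p1 q1) y1 n4.ne'
  rw [ev_orf, ori_self_left, zero_div, mul_zero] at f1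
  rw [ev_orf] at f2 f4
  rw [ev_orf, ori_self_right, zero_div, mul_zero] at f3
  have hn0 : 0 < ψ.a ^ 2 + ψ.b ^ 2 := by
    by_contra hcon
    have h1 : ψ.a ^ 2 + ψ.b ^ 2 = 0 := le_antisymm (not_lt.mp hcon) (by positivity)
    have ha : ψ.a = 0 := by
      have : ψ.a ^ 2 = 0 := le_antisymm (by nlinarith [sq_nonneg ψ.b]) (sq_nonneg _)
      exact pow_eq_zero_iff (by norm_num) |>.mp this
    have hb : ψ.b = 0 := by
      have : ψ.b ^ 2 = 0 := le_antisymm (by nlinarith [sq_nonneg ψ.a]) (sq_nonneg _)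
      exact pow_eq_zero_iff (by norm_num) |>.mp this
    simp only [Fn.ev, ha, hb, zero_mul, zero_add] at n1 n3
    linarith
  have r1 : (ψ.a ^ 2 + ψ.b ^ 2) * (ori p1 q1 t1 / ψ.ev t1) < 0 :=
    mul_neg_of_pos_of_neg hn0 (div_neg_of_pos_of_neg o1 n2)
  have r2 : 0 < (ψ.a ^ 2 + ψ.b ^ 2) * (ori p1 q1 y1 / ψ.ev y1) :=
    mul_pos hn0 (div_pos o2 n4)
  refine lm_real (b := g.b * ψ.a - g.a * ψ.b)
    (c := (ψ.a ^ 2 + ψ.b ^ 2) * g.c - (g.a * ψ.a + g.b * ψ.b) * ψ.c)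
    (b' := (orf p1 q1).b * ψ.a - (orf p1 q1).a * ψ.b)
    (c' := (ψ.a ^ 2 + ψ.b ^ 2) * (orf p1 q1).c -
      ((orf p1 q1).a * ψ.a + (orf p1 q1).b * ψ.b) * ψ.c)
    ?_ ?_ ?_ ?_ ?_ k1 k2
  · linear_combination g1 - g2
  · linear_combination g3 - g4
  · by_contra hcon
    push Not at hcon
    rw [hcon.1, hcon.2, zero_mul, zero_mul, add_zero, add_zero] at g1 g3
    linarith
  · linarith
  · linarith

end Pool.PVG
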