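import Pool.Agent.PVG.Flat

namespace Pool.PVG

open Pool.Vis Finset

/- Points on the line of two points of a line: if `p ≠ q` and `ori p q x = 0`, `ori p q y = 0` then
`ori x y z = 0` whenever `ori p q z = 0`. -/
theorem ori_line {p q x y z : Pt} (hpq : p ≠ q) (hx : ori p q x = 0) (hy : ori p q y = 0)
    (hz : ori p q z = 0) : ori x y z = 0 := by
  simp only [ori] at hx hy hz ⊢
  by_cases h1 : q.1 - p.1 = 0
  · have h2 : q.2 - p.2 ≠ 0 := by
      intro h2
      exact hpq (Prod.ext (by linarith) (by linarith))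
    have key : (q.2 - p.2) *
        ((y.1 - x.1) * (z.2 - x.2) - (y.2 - x.2) * (z.1 - x.1)) = 0 := by
      linear_combination (z.2 - y.2) * hx + (x.2 - z.2) * hy + (y.2 - x.2) * hz
    exact (mul_eq_zero.mp key).resolve_left h2
  · have key : (q.1 - p.1) *
        ((y.1 - x.1) * (z.2 - x.2) - (y.2 - x.2) * (z.1 - x.1)) = 0 := by
      linear_combination (z.1 - y.1) * hx + (x.1 - z.1) * hy + (y.1 - x.1) * hz
    exact (mul_eq_zero.mp key).resolve_left h1

/-- Orientation of a pair at an outer index. -/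
theorem nci_nonneg {q : ℕ → Pt} {h : ℕ} (hOT : OT q h) {i j l : ℕ} (hij : i < j) (hj : j < h)
    (hl : l < h) (ho : l ≤ i ∨ j ≤ l) : 0 ≤ ori (q i) (q j) (q l) := by
  rcases ho with ho | ho
  · rcases Nat.eq_or_lt_of_le ho with rfl | ho
    · rw [ori_self_left]
    · rw [← ori_cyc]
      exact hOT l i j ho hij hj
  · rcases Nat.eq_or_lt_of_le ho with rfl | ho
    · rw [ori_self_right]
    · exact hOT i j l hij ho hl

/-- If a functional is nonnegative at the ends and zero inside, it is zero at the ends. -/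
theorem nci_zero {p r x y c : Pt} (hx : 0 ≤ ori p r x) (hy : 0 ≤ ori p r y)
    (hc : c ∈ openSegment ℝ p r) (hc' : c ∈ openSegment ℝ x y) :
    ori p r x = 0 ∧ ori p r y = 0 := by
  have h0 : (orf p r).ev c = 0 :=
    seg_zero (orf p r) hc (by rw [ev_orf, ori_self_left]) (by rw [ev_orf, ori_self_right])
  obtain ⟨s, t, hs, ht, hst, he⟩ := ev_seg (orf p r) hc'
  rw [h0, ev_orf, ev_orf] at he
  have h1 : 0 ≤ s * ori p r x := mul_nonneg hs.le hx
  have h2 : 0 ≤ t * ori p r y := mul_nonneg ht.le hy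
  have h3 : s * ori p r x = 0 := by linarith
  have h4 : t * ori p r y = 0 := by linarith
  exact ⟨(mul_eq_zero.mp h3).resolve_left hs.ne', (mul_eq_zero.mp h4).resolve_left ht.ne'⟩

/- Let `Q` be nested in `P`: `ori (q Q.1) (q Q.2)` is `≥ 0` at `q P.1`, `q P.2`, and `0` at `c`, which
is between them; so it is `0` at both; use `ori_line`. If `P.2 ≤ Q.1`: `ori (q P.1) (q P.2)` is `≥ 0`
at `q Q.1`, `q Q.2`. -/
theorem nci (q : ℕ → Pt) (h : ℕ) (hOT : OT q h) (hinj : Inj q h) (P Q : ℕ × ℕ) (hP : P.1 < P.2)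
    (hPh : P.2 < h) (hQ : Q.1 < Q.2) (hQh : Q.2 < h) (hn : NX P Q) (c : Pt)
    (hc : c ∈ openSegment ℝ (q P.1) (q P.2)) (hc' : c ∈ openSegment ℝ (q Q.1) (q Q.2)) :
    ori (q P.1) (q P.2) (q Q.1) = 0 ∧ ori (q P.1) (q P.2) (q Q.2) = 0 := by
  rcases hn with ⟨h1, h2⟩ | ⟨h1, h2⟩ | h1 | h1
  · have hz := nci_zero (nci_nonneg hOT hQ hQh (l := P.1) (by omega) (Or.inl h1))
      (nci_nonneg hOT hQ hQh (l := P.2) (by omega) (Or.inr h2)) hc' hc
    have hne : q Q.1 ≠ q Q.2 := fun he => hQ.ne (hinj Q.1 (by omega) Q.2 hQh he)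
    exact ⟨ori_line hne hz.1 hz.2 (ori_self_left _ _), ori_line hne hz.1 hz.2 (ori_self_right _ _)⟩
  · exact nci_zero (nci_nonneg hOT hP hPh (l := Q.1) (by omega) (Or.inl h1))
      (nci_nonneg hOT hP hPh (l := Q.2) (by omega) (Or.inr h2)) hc hc'
  · exact nci_zero (nci_nonneg hOT hP hPh (l := Q.1) (by omega) (Or.inr h1))
      (nci_nonneg hOT hP hPh (l := Q.2) (by omega) (Or.inr (by omega))) hc hc'
  · exact nci_zero (nci_nonneg hOT hP hPh (l := Q.1) (by omega) (Or.inl (by omega)))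
      (nci_nonneg hOT hP hPh (l := Q.2) (by omega) (Or.inl h1)) hc hc'

end Pool.PVG
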