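import Pool.Agent.PVG.Defs

namespace Pool.PVG

open Pool.Vis Finset

private lemma Outer_face {u : Pt} {S1 S2 S : Finset Pt} (hS : ∀ z ∈ S, z ∈ S1 ∨ z ∈ S2)
    (h2 : S2 ⊆ S) (hn : ¬ Beh u S2 S1) : face u S2 ⊆ face u S := by
  intro x hx
  obtain ⟨hxS, hxm⟩ := mem_face.1 hx
  refine mem_face.2 ⟨h2 hxS, fun z hz => ?_⟩
  rcases hS z hz with h | h
  · by_contra hc
    rw [not_le] at hc
    exact hn ⟨z, h, fun w hw => (hxm w hw).trans_lt hc⟩
  · exact hxm z h

private lemma Outer_nb {u : Pt} {S1 S2 : Finset Pt} (h : Beh u S1 S2) : ¬ Beh u S2 S1 := by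
  rintro ⟨x, hx, hxm⟩
  obtain ⟨y, hy, hym⟩ := h
  exact lt_asymm (hxm y hy) (hym x hx)

private lemma Outer_mu {u : Pt} {A B A2 B2 S : Finset Pt} (hS : S = A ∪ B)
    (hA : A2 ⊆ A) (hB : B2 ⊆ B) (hf : face u (A2 ∪ B2) ⊆ face u S) :
    mu u A2 B2 ≤ mu u A B := by
  classical
  subst hS
  unfold mu
  exact min_le_min (card_le_card (inter_subset_inter hf hA))
    (card_le_card (inter_subset_inter hf hB))

/- Direction by direction: if `Beh u S1 S2` then not `Beh u S2 S1`, the extreme set of `S1 ∪ S2` is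
that of `S2` and `mu u A B = mu u A2 B2`; symmetric; if neither, the extreme set of the union is the
union of the two extreme sets, `mu u A B ≥ mu u A1 B1 + mu u A2 B2`. -/
theorem outer_le (D A1 B1 A2 B2 : Finset Pt) (hA : Disjoint A1 A2) (hB : Disjoint B1 B2)
    (h1 : (A1 ∪ B1).Nonempty) (h2 : (A2 ∪ B2).Nonempty) :
    Wo D A1 B1 (A2 ∪ B2) + Wo D A2 B2 (A1 ∪ B1) ≤ W D (A1 ∪ A2) (B1 ∪ B2) := by
  classical
  unfold Wo W
  rw [← sum_add_distrib]
  refine sum_le_sum fun u _ => ?_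
  have hS12 : ∀ z ∈ (A1 ∪ A2) ∪ (B1 ∪ B2), z ∈ A1 ∪ B1 ∨ z ∈ A2 ∪ B2 := by
    intro z hz
    simp only [mem_union] at hz ⊢
    tauto
  have hS21 : ∀ z ∈ (A1 ∪ A2) ∪ (B1 ∪ B2), z ∈ A2 ∪ B2 ∨ z ∈ A1 ∪ B1 := fun z hz =>
    (hS12 z hz).symm
  have hs1 : A1 ∪ B1 ⊆ (A1 ∪ A2) ∪ (B1 ∪ B2) :=
    union_subset_union subset_union_left subset_union_left
  have hs2 : A2 ∪ B2 ⊆ (A1 ∪ A2) ∪ (B1 ∪ B2) :=
    union_subset_union subset_union_right subset_union_right
  by_cases hb1 : Beh u (A1 ∪ B1) (A2 ∪ B2)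
  · have hb2 := Outer_nb hb1
    rw [if_pos hb1, if_neg hb2, zero_add]
    have := Outer_mu (A := A1 ∪ A2) (B := B1 ∪ B2) rfl subset_union_right subset_union_right
      (Outer_face hS12 hs2 hb2)
    omega
  · by_cases hb2 : Beh u (A2 ∪ B2) (A1 ∪ B1)
    · rw [if_neg hb1, if_pos hb2, add_zero]
      have := Outer_mu (A := A1 ∪ A2) (B := B1 ∪ B2) rfl subset_union_left subset_union_left
        (Outer_face hS21 hs1 hb1)
      omega
    · rw [if_neg hb1, if_neg hb2]
      have f1 := Outer_face hS21 hs1 hb1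
      have f2 := Outer_face hS12 hs2 hb2
      have hmu : mu u A1 B1 + mu u A2 B2 ≤ mu u (A1 ∪ A2) (B1 ∪ B2) := by
        have cA : (face u (A1 ∪ B1) ∩ A1).card + (face u (A2 ∪ B2) ∩ A2).card ≤
            (face u ((A1 ∪ A2) ∪ (B1 ∪ B2)) ∩ (A1 ∪ A2)).card := by
          rw [← card_union_of_disjoint (disjoint_of_subset_left inter_subset_right
            (disjoint_of_subset_right inter_subset_right hA))]
          exact card_le_card (union_subset (inter_subset_inter f1 subset_union_left)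
            (inter_subset_inter f2 subset_union_right))
        have cB : (face u (A1 ∪ B1) ∩ B1).card + (face u (A2 ∪ B2) ∩ B2).card ≤
            (face u ((A1 ∪ A2) ∪ (B1 ∪ B2)) ∩ (B1 ∪ B2)).card := by
          rw [← card_union_of_disjoint (disjoint_of_subset_left inter_subset_right
            (disjoint_of_subset_right inter_subset_right hB))]
          exact card_le_card (union_subset (inter_subset_inter f1 subset_union_left)
            (inter_subset_inter f2 subset_union_right))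
        unfold mu
        omega
      omega

end Pool.PVG
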