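import Pool.Agent.PVG.Sleeve
import Pool.Agent.PVG.Outer
import Pool.Agent.PVG.Cpx

namespace Pool.PVG

open Pool.Vis Finset

lemma rpr_mu_one {u : Pt} {A B : Finset Pt} (ha : ∃ a ∈ A, a ∈ face u (A ∪ B))
    (hb : ∃ b ∈ B, b ∈ face u (A ∪ B)) : 1 ≤ mu u A B := by
  classical
  obtain ⟨a, ha, ha'⟩ := ha
  obtain ⟨b, hb, hb'⟩ := hb
  unfold mu
  apply le_min
  · exact card_pos.2 ⟨a, mem_inter.2 ⟨ha', ha⟩⟩
  · exact card_pos.2 ⟨b, mem_inter.2 ⟨hb', hb⟩⟩

/- The hypothesis `hex` of `sleeve` for a split. If some point of `S2` has `w > 0`: `u` = the unit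
vector in direction `(w.a, w.b)` (it is in `D` by completeness, as `a ≠ b` are on `w = 0`), `a`, `b`
are extreme in `S1` and `Beh u S1 S2`. Otherwise `w = 0` on `S2`; as `S1 ∪ S2` is not collinear some
point of `S1` has `w < 0`; take `u` = the unit vector in direction `-(w.a, w.b)`: all of `S2` is
extreme, both colours occur, and `Beh u S2 S1`. -/
theorem split_hex (D A B A1 B1 A2 B2 : Finset Pt) (hnc : ¬ Coll (A ∪ B)) (hD : Cpl D (A ∪ B))
    (hA : A1 ∪ A2 = A) (hB : B1 ∪ B2 = B) (hd : Disjoint A B) (hA2 : A2.Nonempty)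
    (hB2 : B2.Nonempty) (w : Fn) (hw : w.NZ) (h1 : ∀ p ∈ A1 ∪ B1, w.ev p ≤ 0)
    (h2 : ∀ p ∈ A2 ∪ B2, 0 ≤ w.ev p) (ha : ∃ a ∈ A1, w.ev a = 0) (hb : ∃ b ∈ B1, w.ev b = 0) :
    ∃ u ∈ D, (Beh u (A1 ∪ B1) (A2 ∪ B2) ∧ 1 ≤ mu u A1 B1) ∨
      (Beh u (A2 ∪ B2) (A1 ∪ B1) ∧ 1 ≤ mu u A2 B2) := by
  classical
  obtain ⟨a, ha1, ha0⟩ := ha
  obtain ⟨b, hb1, hb0⟩ := hb
  have hpos : 0 < w.a ^ 2 + w.b ^ 2 := by
    rcases hw with h | h
    · have := sq_pos_of_ne_zero h
      positivity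
    · have := sq_pos_of_ne_zero h
      positivity
  set r := Real.sqrt (w.a ^ 2 + w.b ^ 2) with hr
  have hr0 : 0 < r := Real.sqrt_pos.2 hpos
  have hr2 : r ^ 2 = w.a ^ 2 + w.b ^ 2 := Real.sq_sqrt hpos.le
  have hdot : ∀ (s : ℝ) (p : Pt), dot (s * (w.a / r), s * (w.b / r)) p = s * (w.ev p - w.c) / r := by
    intro s p
    simp only [dot, Fn.ev]
    field_simp
    ring
  have huv : ∀ s : ℝ, s ^ 2 = 1 → UV (s * (w.a / r), s * (w.b / r)) := by
    intro s hs
    show (s * (w.a / r)) ^ 2 + (s * (w.b / r)) ^ 2 = 1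
    have : (s * (w.a / r)) ^ 2 + (s * (w.b / r)) ^ 2 = s ^ 2 * ((w.a ^ 2 + w.b ^ 2) / r ^ 2) := by
      field_simp
    rw [this, hs, hr2, div_self hpos.ne', one_mul]
  have haA : a ∈ A := by rw [← hA]; exact mem_union_left _ ha1
  have hbB : b ∈ B := by rw [← hB]; exact mem_union_left _ hb1
  have hab : a ≠ b := by
    rintro rfl
    exact disjoint_left.1 hd haA hbB
  have hmemD : ∀ s : ℝ, s ^ 2 = 1 → ((s * (w.a / r), s * (w.b / r)) : Pt) ∈ D := by
    intro s hs
    refine hD.2 a (mem_union_left _ haA) b (mem_union_right _ hbB) hab _ (huv s hs) ?_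
    rw [hdot, hdot, ha0, hb0]
  by_cases hex : ∃ y ∈ A2 ∪ B2, 0 < w.ev y
  · obtain ⟨y, hy, hy0⟩ := hex
    refine ⟨_, hmemD 1 (by norm_num), Or.inl ⟨⟨y, hy, fun x hx => ?_⟩, rpr_mu_one ⟨a, ha1, ?_⟩
      ⟨b, hb1, ?_⟩⟩⟩
    · rw [hdot, hdot]
      apply div_lt_div_of_pos_right _ hr0
      linarith [h1 x hx]
    · rw [mem_face]
      refine ⟨mem_union_left _ ha1, fun x hx => ?_⟩
      rw [hdot, hdot]
      apply div_le_div_of_nonneg_right _ hr0.le
      linarith [h1 x hx]
    · rw [mem_face]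
      refine ⟨mem_union_right _ hb1, fun x hx => ?_⟩
      rw [hdot, hdot]
      apply div_le_div_of_nonneg_right _ hr0.le
      linarith [h1 x hx]
  · push Not at hex
    have hz : ∀ y ∈ A2 ∪ B2, w.ev y = 0 := fun y hy => le_antisymm (hex y hy) (h2 y hy)
    have hx : ∃ x ∈ A1 ∪ B1, w.ev x < 0 := by
      by_contra hcon
      push Not at hcon
      apply hnc
      refine ⟨w, hw, fun p hp => ?_⟩
      rw [← hA, ← hB] at hp
      have hp' : p ∈ A1 ∪ B1 ∨ p ∈ A2 ∪ B2 := by
        simp only [mem_union] at hp ⊢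
        tauto
      rcases hp' with h | h
      · exact le_antisymm (h1 p h) (hcon p h)
      · exact hz p h
    obtain ⟨x, hx, hx0⟩ := hx
    obtain ⟨a2, ha2⟩ := hA2
    obtain ⟨b2, hb2⟩ := hB2
    refine ⟨_, hmemD (-1) (by norm_num), Or.inr ⟨⟨x, hx, fun y hy => ?_⟩, rpr_mu_one ⟨a2, ha2, ?_⟩
      ⟨b2, hb2, ?_⟩⟩⟩
    · rw [hdot, hdot, hz y hy]
      apply div_lt_div_of_pos_right _ hr0
      linarith
    · rw [mem_face]
      refine ⟨mem_union_left _ ha2, fun y hy => ?_⟩
      rw [hdot, hdot, hz y hy, hz a2 (mem_union_left _ ha2)]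
    · rw [mem_face]
      refine ⟨mem_union_right _ hb2, fun y hy => ?_⟩
      rw [hdot, hdot, hz y hy, hz b2 (mem_union_right _ hb2)]

lemma rpr_hull_neg {S : Finset Pt} {ψ : Fn} (h : ∀ p ∈ S, ψ.ev p < 0) {c : Pt}
    (hc : c ∈ convexHull ℝ (S : Set Pt)) : ψ.ev c < 0 := by
  have hconv : Convex ℝ {p : Pt | ψ.ev p < 0} := by
    rw [convex_iff_openSegment_subset]
    intro p hp q hq z hz
    exact seg_neg_l ψ hz hp (le_of_lt hq)
  exact convexHull_min (s := (S : Set Pt)) (fun p hp => h p hp) hconv hc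

lemma rpr_hull_pos {S : Finset Pt} {ψ : Fn} (h : ∀ p ∈ S, 0 < ψ.ev p) {c : Pt}
    (hc : c ∈ convexHull ℝ (S : Set Pt)) : 0 < ψ.ev c := by
  have hconv : Convex ℝ {p : Pt | 0 < ψ.ev p} := by
    rw [convex_iff_openSegment_subset]
    intro p hp q hq z hz
    exact seg_pos_l ψ hz hp (le_of_lt hq)
  exact convexHull_min (s := (S : Set Pt)) (fun p hp => h p hp) hconv hc

lemma rpr_blk_hull {A B C A1 B1 : Finset Pt} (h : Blk A B C) (hA : A1 ⊆ A) (hB : B1 ⊆ B)
    {C1 : Finset Pt} (hC : ∀ c ∈ C, c ∈ convexHull ℝ ((A1 ∪ B1 : Finset Pt) : Set Pt) → c ∈ C1) :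
    Blk A1 B1 C1 := by
  classical
  intro a ha b hb
  obtain ⟨c, hc, hc'⟩ := h a (hA ha) b (hB hb)
  refine ⟨c, hC c hc ?_, hc'⟩
  have ha' : a ∈ convexHull ℝ ((A1 ∪ B1 : Finset Pt) : Set Pt) :=
    subset_convexHull ℝ _ (by exact_mod_cast mem_union_left _ ha)
  have hb' : b ∈ convexHull ℝ ((A1 ∪ B1 : Finset Pt) : Set Pt) :=
    subset_convexHull ℝ _ (by exact_mod_cast mem_union_right _ hb)
  exact (convex_convexHull ℝ _).openSegment_subset ha' hb' hc'

/- Strong induction on `n`. Collinear case: `C` is not empty and `W_coll`. Otherwise `sep` gives the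
parts; `C1`, `C2` = the points of `C` in the two convex hulls (disjoint because of `ψ`), they block
the parts (an open segment is in the hull of its end points); induction for both; `Z` from `sleeve`
is disjoint from `C1` and `C2`; `W_eq` for both parts and `outer_le`. -/
theorem rprime (D : Finset Pt) : ∀ (n : ℕ) (A B C : Finset Pt), A.card = n → B.card = n → 1 ≤ n →
    Disjoint A B → Cpl D (A ∪ B) → Blk A B C → 2 * n ≤ C.card + 1 + W D A B := by
  classical
  intro n
  induction n using Nat.strong_induction_on with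
  | _ n ih =>
    intro A B C hA hB hn hd hD hblk
    by_cases hc : Coll (A ∪ B)
    · have hW := W_coll D A B n hn hd hA hB hD hc
      obtain ⟨a, ha⟩ := card_pos.1 (by omega : 0 < A.card)
      obtain ⟨b, hb⟩ := card_pos.1 (by omega : 0 < B.card)
      obtain ⟨c, hcC, _⟩ := hblk a ha b hb
      have hC : 0 < C.card := card_pos.2 ⟨c, hcC⟩
      omega
    · obtain ⟨A1, A2, B1, B2, hAu, hAd, hBu, hBd, hc1, hc2, hn1, hn2, ψ, w, h1, h2, h3, h4, hNZ,
        ha, hb⟩ := sep A B hd (hA.trans hB.symm) hc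
      have hA12 : A1.card + A2.card = n := by rw [← card_union_of_disjoint hAd, hAu, hA]
      have hp1 : 1 ≤ A1.card := card_pos.mpr hn1
      have hp2 : 1 ≤ A2.card := card_pos.mpr hn2
      have hA1s : A1 ⊆ A := by rw [← hAu]; exact subset_union_left
      have hA2s : A2 ⊆ A := by rw [← hAu]; exact subset_union_right
      have hB1s : B1 ⊆ B := by rw [← hBu]; exact subset_union_left
      have hB2s : B2 ⊆ B := by rw [← hBu]; exact subset_union_right
      have hd1 : Disjoint A1 B1 := disjoint_of_subset_left hA1s (disjoint_of_subset_right hB1s hd)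
      have hd2 : Disjoint A2 B2 := disjoint_of_subset_left hA2s (disjoint_of_subset_right hB2s hd)
      have hblk' : Blk (A1 ∪ A2) (B1 ∪ B2) C := by rw [hAu, hBu]; exact hblk
      have hB2n : B2.Nonempty := card_pos.1 (by omega)
      have hex := split_hex D A B A1 B1 A2 B2 hc hD hAu hBu hd hn2 hB2n w hNZ h3 h4 ha hb
      obtain ⟨Z, hZC, hZ, hZcard⟩ := sleeve D hD.1 A1 B1 A2 B2 C hd1 hd2 ψ h1 h2 hblk' hex
      set C1 := C.filter (fun c => c ∈ convexHull ℝ ((A1 ∪ B1 : Finset Pt) : Set Pt)) with hC1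
      set C2 := C.filter (fun c => c ∈ convexHull ℝ ((A2 ∪ B2 : Finset Pt) : Set Pt)) with hC2
      have hb1 : Blk A1 B1 C1 := rpr_blk_hull hblk hA1s hB1s
        (fun c hc hc' => mem_filter.2 ⟨hc, hc'⟩)
      have hb2 : Blk A2 B2 C2 := rpr_blk_hull hblk hA2s hB2s
        (fun c hc hc' => mem_filter.2 ⟨hc, hc'⟩)
      have hdC : Disjoint C1 C2 := by
        rw [disjoint_left]
        intro c hc hc'
        have e1 := rpr_hull_neg h1 (mem_filter.1 hc).2
        have e2 := rpr_hull_pos h2 (mem_filter.1 hc').2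
        linarith
      have hdZ : Disjoint (C1 ∪ C2) Z := by
        rw [disjoint_left]
        intro c hc hc'
        rcases mem_union.1 hc with h | h
        · exact (hZ c hc').1 (mem_filter.1 h).2
        · exact (hZ c hc').2 (mem_filter.1 h).2
      have hcard : C1.card + C2.card + Z.card ≤ C.card := by
        rw [← card_union_of_disjoint hdC, ← card_union_of_disjoint hdZ]
        apply card_le_card
        apply union_subset _ hZC
        exact union_subset (filter_subset _ _) (filter_subset _ _)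
      have i1 := ih A1.card (by omega) A1 B1 C1 rfl hc1.symm hp1 hd1
        (hD.mono (union_subset_union hA1s hB1s)) hb1
      have i2 := ih A2.card (by omega) A2 B2 C2 rfl hc2.symm hp2 hd2
        (hD.mono (union_subset_union hA2s hB2s)) hb2
      have w1 := W_eq D A1 B1 (A2 ∪ B2)
      have w2 := W_eq D A2 B2 (A1 ∪ B1)
      have ho := outer_le D A1 B1 A2 B2 hAd hBd
        (hn1.mono subset_union_left) (hn2.mono subset_union_left)
      rw [hAu, hBu] at ho
      omega

end Pool.PVG
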