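import Pool.Agent.PVG.Defs

namespace Pool.PVG

open Pool.Vis Finset

/- Let `h1 = max dot u` on `S1` (attained on `face u S1`), `w = dot u - h1`; `τ` is the minimum of
`ψ(y)/w(y)` over the `y ∈ S2` with `w(y) > 0`, `g = τ w`; the contact points in `S2` are exactly the
minimising points; `y` is the one with the smallest key. -/
theorem star1 (S1 S2 : Finset Pt) (ψ : Fn) (h1 : ∀ x ∈ S1, ψ.ev x < 0) (h2 : ∀ y ∈ S2, 0 < ψ.ev y)
    (u : Pt) (hne : S1.Nonempty) (hb : Beh u S1 S2) :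
    ∃ (g : Fn) (τ : ℝ) (y : Pt), 0 < τ ∧ g.a = τ * u.1 ∧ g.b = τ * u.2 ∧ Cf S1 S2 ψ g ∧
      Ty1 S2 ψ g y ∧ ∀ x ∈ face u S1, g.ev x = 0 := by
  classical
  obtain ⟨x0, hx0, hmax⟩ := S1.exists_max_image (dot u) hne
  obtain ⟨y0, hy0, hy0'⟩ := hb
  have hT : (S2.filter (fun y => dot u x0 < dot u y)).Nonempty :=
    ⟨y0, mem_filter.2 ⟨hy0, hy0' x0 hx0⟩⟩
  obtain ⟨y1, hy1, hmin⟩ := (S2.filter (fun y => dot u x0 < dot u y)).exists_min_image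
    (fun y => ψ.ev y / (dot u y - dot u x0)) hT
  rw [mem_filter] at hy1
  obtain ⟨hy1S, hy1w⟩ := hy1
  set τ : ℝ := ψ.ev y1 / (dot u y1 - dot u x0) with hτ
  have hw1 : 0 < dot u y1 - dot u x0 := sub_pos.2 hy1w
  have hτ0 : 0 < τ := div_pos (h2 y1 hy1S) hw1
  let g : Fn := ⟨τ * u.1, τ * u.2, -(τ * dot u x0)⟩
  have hg : ∀ p : Pt, g.ev p = τ * (dot u p - dot u x0) := by
    intro p
    show τ * u.1 * p.1 + τ * u.2 * p.2 + -(τ * dot u x0) = τ * (dot u p - dot u x0)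
    simp only [dot]
    ring
  have hgy1 : g.ev y1 = ψ.ev y1 := by
    rw [hg, hτ]
    exact div_mul_cancel₀ _ hw1.ne'
  have hcf : Cf S1 S2 ψ g := by
    refine ⟨h1, h2, ?_, ?_⟩
    · intro x hx
      rw [hg]
      exact mul_nonpos_of_nonneg_of_nonpos hτ0.le (sub_nonpos.2 (hmax x hx))
    · intro y hy
      rw [hg]
      by_cases hw : dot u x0 < dot u y
      · have h3 := hmin y (mem_filter.2 ⟨hy, hw⟩)
        have hw' : 0 < dot u y - dot u x0 := sub_pos.2 hw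
        have h4 : τ ≤ ψ.ev y / (dot u y - dot u x0) := h3
        rwa [le_div_iff₀ hw'] at h4
      · have h3 : τ * (dot u y - dot u x0) ≤ 0 :=
          mul_nonpos_of_nonneg_of_nonpos hτ0.le (sub_nonpos.2 (not_lt.1 hw))
        exact h3.trans (h2 y hy).le
  have hZ : (S2.filter (fun z => g.ev z = ψ.ev z)).Nonempty :=
    ⟨y1, mem_filter.2 ⟨hy1S, hgy1⟩⟩
  obtain ⟨y, hy, hkey⟩ := (S2.filter (fun z => g.ev z = ψ.ev z)).exists_min_image (key ψ) hZ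
  rw [mem_filter] at hy
  refine ⟨g, τ, y, hτ0, rfl, rfl, hcf, ⟨hy.1, hy.2, fun z hz hz' =>
    hkey z (mem_filter.2 ⟨hz, hz'⟩)⟩, ?_⟩
  intro x hx
  rw [mem_face] at hx
  rw [hg]
  have h3 : dot u x = dot u x0 := le_antisymm (hmax x hx.1) (hx.2 x0 hx0)
  rw [h3, sub_self, mul_zero]

/- The same with the roles of the sets exchanged: `w = dot u - max dot u` on `S2`, `τ` the minimum of
`-ψ(t)/w(t)` over the `t ∈ S1` with `w(t) > 0`, `g = ψ + τ w`. -/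
theorem star2 (S1 S2 : Finset Pt) (ψ : Fn) (h1 : ∀ x ∈ S1, ψ.ev x < 0) (h2 : ∀ y ∈ S2, 0 < ψ.ev y)
    (u : Pt) (hne : S2.Nonempty) (hb : Beh u S2 S1) :
    ∃ (g : Fn) (τ : ℝ) (t : Pt), 0 < τ ∧ g.a = ψ.a + τ * u.1 ∧ g.b = ψ.b + τ * u.2 ∧
      Cf S1 S2 ψ g ∧ Ty2 S1 ψ g t ∧ ∀ y ∈ face u S2, g.ev y = ψ.ev y := by
  classical
  obtain ⟨x0, hx0, hmax⟩ := S2.exists_max_image (dot u) hne
  obtain ⟨y0, hy0, hy0'⟩ := hb
  have hT : (S1.filter (fun y => dot u x0 < dot u y)).Nonempty :=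
    ⟨y0, mem_filter.2 ⟨hy0, hy0' x0 hx0⟩⟩
  obtain ⟨y1, hy1, hmin⟩ := (S1.filter (fun y => dot u x0 < dot u y)).exists_min_image
    (fun y => -ψ.ev y / (dot u y - dot u x0)) hT
  rw [mem_filter] at hy1
  obtain ⟨hy1S, hy1w⟩ := hy1
  set τ : ℝ := -ψ.ev y1 / (dot u y1 - dot u x0) with hτ
  have hw1 : 0 < dot u y1 - dot u x0 := sub_pos.2 hy1w
  have hτ0 : 0 < τ := div_pos (neg_pos.2 (h1 y1 hy1S)) hw1
  let g : Fn := ⟨ψ.a + τ * u.1, ψ.b + τ * u.2, ψ.c - τ * dot u x0⟩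
  have hg : ∀ p : Pt, g.ev p = ψ.ev p + τ * (dot u p - dot u x0) := by
    intro p
    show (ψ.a + τ * u.1) * p.1 + (ψ.b + τ * u.2) * p.2 + (ψ.c - τ * dot u x0) = _
    simp only [dot, Fn.ev]
    ring
  have hgy1 : g.ev y1 = 0 := by
    rw [hg, hτ, div_mul_cancel₀ _ hw1.ne']
    ring
  have hcf : Cf S1 S2 ψ g := by
    refine ⟨h1, h2, ?_, ?_⟩
    · intro y hy
      rw [hg]
      by_cases hw : dot u x0 < dot u y
      · have h3 := hmin y (mem_filter.2 ⟨hy, hw⟩)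
        have hw' : 0 < dot u y - dot u x0 := sub_pos.2 hw
        have h4 : τ ≤ -ψ.ev y / (dot u y - dot u x0) := h3
        rw [le_div_iff₀ hw'] at h4
        linarith
      · have h3 : τ * (dot u y - dot u x0) ≤ 0 :=
          mul_nonpos_of_nonneg_of_nonpos hτ0.le (sub_nonpos.2 (not_lt.1 hw))
        linarith [h1 y hy]
    · intro x hx
      rw [hg]
      have h3 := mul_nonpos_of_nonneg_of_nonpos hτ0.le (sub_nonpos.2 (hmax x hx))
      linarith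
  have hZ : (S1.filter (fun z => g.ev z = 0)).Nonempty :=
    ⟨y1, mem_filter.2 ⟨hy1S, hgy1⟩⟩
  obtain ⟨y, hy, hkey⟩ := (S1.filter (fun z => g.ev z = 0)).exists_min_image (key ψ) hZ
  rw [mem_filter] at hy
  refine ⟨g, τ, y, hτ0, rfl, rfl, hcf, ⟨hy.1, hy.2, fun z hz hz' =>
    hkey z (mem_filter.2 ⟨hz, hz'⟩)⟩, ?_⟩
  intro x hx
  rw [mem_face] at hx
  rw [hg]
  have h3 : dot u x = dot u x0 := le_antisymm (hmax x hx.1) (hx.2 x0 hx0)
  rw [h3, sub_self, mul_zero, add_zero]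

end Pool.PVG
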