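import Pool.Agent.PVG.Abs
import Pool.Agent.PVG.Cross
import Pool.Agent.PVG.Lm
import Pool.Agent.PVG.Stars

namespace Pool.PVG

open Pool.Vis Finset

lemma sleeve_grad {f g : Fn} (h : ∀ x, f.ev x = g.ev x) : f.a = g.a ∧ f.b = g.b := by
  have h0 := h (0, 0)
  have h1 := h (1, 0)
  have h2 := h (0, 1)
  simp only [Fn.ev] at h0 h1 h2
  constructor <;> linarith

lemma sleeve_dir {u v : Pt} {s t : ℝ} (hu : UV u) (hv : UV v) (hs : 0 < s) (ht : 0 < t)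
    (h1 : s * u.1 = t * v.1) (h2 : s * u.2 = t * v.2) : u = v := by
  unfold UV at hu hv
  have h3 : s ^ 2 = t ^ 2 := by
    have e1 : s ^ 2 = (s * u.1) ^ 2 + (s * u.2) ^ 2 := by
      linear_combination (-s ^ 2) * hu
    have e2 : t ^ 2 = (t * v.1) ^ 2 + (t * v.2) ^ 2 := by
      linear_combination (-t ^ 2) * hv
    rw [e1, e2, h1, h2]
  have h4 : s = t := by nlinarith
  subst h4
  exact Prod.ext (mul_left_cancel₀ hs.ne' h1) (mul_left_cancel₀ hs.ne' h2)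

lemma sleeve_st1 (A1 B1 A2 B2 C : Finset Pt) (ψ : Fn)
    (h1 : ∀ p ∈ A1 ∪ B1, ψ.ev p < 0) (h2 : ∀ p ∈ A2 ∪ B2, 0 < ψ.ev p)
    (hblk : Blk (A1 ∪ A2) (B1 ∪ B2) C) (hne : (A1 ∪ B1).Nonempty) (u : Pt)
    (hb : Beh u (A1 ∪ B1) (A2 ∪ B2)) :
    ∃ (g : Fn) (τ : ℝ) (F : Finset (Pt × Pt)), 0 < τ ∧ g.a = τ * u.1 ∧ g.b = τ * u.2 ∧
      Cf (A1 ∪ B1) (A2 ∪ B2) ψ g ∧ St1 (A1 ∪ B1) (A2 ∪ B2) ψ g F ∧ mu u A1 B1 ≤ F.card ∧
      ∀ P ∈ F, ∃ c ∈ C, c ∈ openSegment ℝ P.1 P.2 := by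
  classical
  obtain ⟨g, τ, y, hτ, ha, hb', hcf, hy, hface⟩ := star1 (A1 ∪ B1) (A2 ∪ B2) ψ h1 h2 u hne hb
  have hinj : Function.Injective (fun t : Pt => (t, y)) := fun s t h => congrArg Prod.fst h
  rcases mem_union.mp hy.1 with hyA | hyB
  · refine ⟨g, τ, (face u (A1 ∪ B1) ∩ B1).image (fun t => (t, y)), hτ, ha, hb', hcf,
      ⟨?_, y, hy, ?_⟩, ?_, ?_⟩
    · intro P hP
      obtain ⟨t, ht, rfl⟩ := mem_image.mp hP
      obtain ⟨ht1, ht2⟩ := mem_inter.mp ht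
      exact ⟨(mem_face.mp ht1).1, hy.1, hface t ht1, hy.2.1⟩
    · intro P hP
      obtain ⟨t, _, rfl⟩ := mem_image.mp hP
      rfl
    · rw [card_image_of_injective _ hinj]
      exact min_le_right _ _
    · intro P hP
      obtain ⟨t, ht, rfl⟩ := mem_image.mp hP
      obtain ⟨ht1, ht2⟩ := mem_inter.mp ht
      obtain ⟨c, hc, hs⟩ := hblk y (mem_union_right _ hyA) t (mem_union_left _ ht2)
      exact ⟨c, hc, by rw [openSegment_symm]; exact hs⟩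
  · refine ⟨g, τ, (face u (A1 ∪ B1) ∩ A1).image (fun t => (t, y)), hτ, ha, hb', hcf,
      ⟨?_, y, hy, ?_⟩, ?_, ?_⟩
    · intro P hP
      obtain ⟨t, ht, rfl⟩ := mem_image.mp hP
      obtain ⟨ht1, ht2⟩ := mem_inter.mp ht
      exact ⟨(mem_face.mp ht1).1, hy.1, hface t ht1, hy.2.1⟩
    · intro P hP
      obtain ⟨t, _, rfl⟩ := mem_image.mp hP
      rfl
    · rw [card_image_of_injective _ hinj]
      exact min_le_left _ _
    · intro P hP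
      obtain ⟨t, ht, rfl⟩ := mem_image.mp hP
      obtain ⟨ht1, ht2⟩ := mem_inter.mp ht
      obtain ⟨c, hc, hs⟩ := hblk t (mem_union_left _ ht2) y (mem_union_right _ hyB)
      exact ⟨c, hc, hs⟩

lemma sleeve_st2 (A1 B1 A2 B2 C : Finset Pt) (ψ : Fn)
    (h1 : ∀ p ∈ A1 ∪ B1, ψ.ev p < 0) (h2 : ∀ p ∈ A2 ∪ B2, 0 < ψ.ev p)
    (hblk : Blk (A1 ∪ A2) (B1 ∪ B2) C) (hne : (A2 ∪ B2).Nonempty) (u : Pt)
    (hb : Beh u (A2 ∪ B2) (A1 ∪ B1)) :
    ∃ (g : Fn) (τ : ℝ) (F : Finset (Pt × Pt)), 0 < τ ∧ g.a = ψ.a + τ * u.1 ∧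
      g.b = ψ.b + τ * u.2 ∧
      Cf (A1 ∪ B1) (A2 ∪ B2) ψ g ∧ St2 (A1 ∪ B1) (A2 ∪ B2) ψ g F ∧ mu u A2 B2 ≤ F.card ∧
      ∀ P ∈ F, ∃ c ∈ C, c ∈ openSegment ℝ P.1 P.2 := by
  classical
  obtain ⟨g, τ, t, hτ, ha, hb', hcf, ht, hface⟩ := star2 (A1 ∪ B1) (A2 ∪ B2) ψ h1 h2 u hne hb
  have hinj : Function.Injective (fun y : Pt => (t, y)) := fun s t h => congrArg Prod.snd h
  rcases mem_union.mp ht.1 with htA | htB
  · refine ⟨g, τ, (face u (A2 ∪ B2) ∩ B2).image (fun y => (t, y)), hτ, ha, hb', hcf,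
      ⟨?_, t, ht, ?_⟩, ?_, ?_⟩
    · intro P hP
      obtain ⟨y, hy, rfl⟩ := mem_image.mp hP
      obtain ⟨hy1, hy2⟩ := mem_inter.mp hy
      exact ⟨ht.1, (mem_face.mp hy1).1, ht.2.1, hface y hy1⟩
    · intro P hP
      obtain ⟨y, _, rfl⟩ := mem_image.mp hP
      rfl
    · rw [card_image_of_injective _ hinj]
      exact min_le_right _ _
    · intro P hP
      obtain ⟨y, hy, rfl⟩ := mem_image.mp hP
      obtain ⟨hy1, hy2⟩ := mem_inter.mp hy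
      obtain ⟨c, hc, hs⟩ := hblk t (mem_union_left _ htA) y (mem_union_right _ hy2)
      exact ⟨c, hc, hs⟩
  · refine ⟨g, τ, (face u (A2 ∪ B2) ∩ A2).image (fun y => (t, y)), hτ, ha, hb', hcf,
      ⟨?_, t, ht, ?_⟩, ?_, ?_⟩
    · intro P hP
      obtain ⟨y, hy, rfl⟩ := mem_image.mp hP
      obtain ⟨hy1, hy2⟩ := mem_inter.mp hy
      exact ⟨ht.1, (mem_face.mp hy1).1, ht.2.1, hface y hy1⟩
    · intro P hP
      obtain ⟨y, _, rfl⟩ := mem_image.mp hP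
      rfl
    · rw [card_image_of_injective _ hinj]
      exact min_le_left _ _
    · intro P hP
      obtain ⟨y, hy, rfl⟩ := mem_image.mp hP
      obtain ⟨hy1, hy2⟩ := mem_inter.mp hy
      obtain ⟨c, hc, hs⟩ := hblk y (mem_union_right _ hy2) t (mem_union_left _ htB)
      exact ⟨c, hc, by rw [openSegment_symm]; exact hs⟩

lemma sleeve_sum (D A B T : Finset Pt) (F : Pt → Finset (Pt × Pt))
    (hF : ∀ u, Beh u (A ∪ B) T → mu u A B ≤ (F u).card) (J : Finset Pt)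
    (hJ : ∀ u, u ∈ J ↔ u ∈ D ∧ Beh u (A ∪ B) T ∧ 1 ≤ mu u A B) :
    Wc D A B T ≤ ∑ u ∈ J, ((F u).card - 1) := by
  classical
  have hJs : J ⊆ D := fun u hu => ((hJ u).mp hu).1
  unfold Wc
  rw [← sum_subset hJs (f := fun u => if Beh u (A ∪ B) T then mu u A B - 1 else 0)]
  · apply sum_le_sum
    intro u hu
    obtain ⟨_, h2, _⟩ := (hJ u).mp hu
    rw [if_pos h2]
    exact Nat.sub_le_sub_right (hF u h2) 1
  · intro u hu hnu
    split_ifs with h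
    · by_contra hc
      exact hnu ((hJ u).mpr ⟨hu, h, by omega⟩)
    · rfl

/- Index set: the `u ∈ D` with `Beh u S1 S2` (type 1) and the `u ∈ D` with `Beh u S2 S1` (type 2), as
`Sum` or as two images; only those with a nonempty star. Star of type 1: the pairs `(t, y)` with `y`
from `star1` and `t ∈ face u S1` of the colour different from `y`; it has at least `mu u A1 B1`
elements. Type 2 symmetric. Every pair of the union has a blocker on its open segment (`hblk`, after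
exchanging the ends if necessary); blockers of different pairs are different (`cross_star`) and not
in the hulls (`out_hull`). Count with `abs_count`, `X = xi ψ`: `xi_inj`, and if `P` is in two stars
and has larger elements in both then `lm_eq` (same type: then the gradients `τ u = τ' u'` agree, so
`u = u'` as both are unit vectors) or `lm_mix` gives a contradiction. The stars with `mu ≥ 1` are
nonempty, the others contribute `0` to `Wc`. -/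
theorem sleeve (D : Finset Pt) (hD : ∀ u ∈ D, UV u) (A1 B1 A2 B2 C : Finset Pt)
    (hd1 : Disjoint A1 B1) (hd2 : Disjoint A2 B2) (ψ : Fn)
    (h1 : ∀ p ∈ A1 ∪ B1, ψ.ev p < 0) (h2 : ∀ p ∈ A2 ∪ B2, 0 < ψ.ev p)
    (hblk : Blk (A1 ∪ A2) (B1 ∪ B2) C)
    (hex : ∃ u ∈ D, (Beh u (A1 ∪ B1) (A2 ∪ B2) ∧ 1 ≤ mu u A1 B1) ∨
      (Beh u (A2 ∪ B2) (A1 ∪ B1) ∧ 1 ≤ mu u A2 B2)) :
    ∃ Z ⊆ C, (∀ c ∈ Z, c ∉ convexHull ℝ ((A1 ∪ B1 : Finset Pt) : Set Pt) ∧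
        c ∉ convexHull ℝ ((A2 ∪ B2 : Finset Pt) : Set Pt)) ∧
      1 + Wc D A1 B1 (A2 ∪ B2) + Wc D A2 B2 (A1 ∪ B1) ≤ Z.card := by
  classical
  have hmune : ∀ (u : Pt) (A B : Finset Pt), 1 ≤ mu u A B → (A ∪ B).Nonempty := by
    intro u A B h
    have h3 : 1 ≤ (face u (A ∪ B) ∩ A).card := h.trans (min_le_left _ _)
    obtain ⟨x, hx⟩ := card_pos.mp (Nat.lt_of_lt_of_le Nat.zero_lt_one h3)
    exact ⟨x, mem_union_left _ (mem_inter.mp hx).2⟩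
  have hne : (A1 ∪ B1).Nonempty ∧ (A2 ∪ B2).Nonempty := by
    obtain ⟨u, _, ⟨⟨y, hy, _⟩, hm⟩ | ⟨⟨y, hy, _⟩, hm⟩⟩ := hex
    · exact ⟨hmune u A1 B1 hm, ⟨y, hy⟩⟩
    · exact ⟨⟨y, hy⟩, hmune u A2 B2 hm⟩
  have : Inhabited Fn := ⟨ψ⟩
  have s1 := sleeve_st1 A1 B1 A2 B2 C ψ h1 h2 hblk hne.1
  have s2 := sleeve_st2 A1 B1 A2 B2 C ψ h1 h2 hblk hne.2
  choose! g1 τ1 F1 a1 a2 a3 a4 a5 a6 a7 using s1
  choose! g2 τ2 F2 b1 b2 b3 b4 b5 b6 b7 using s2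
  set J1 := D.filter (fun u => Beh u (A1 ∪ B1) (A2 ∪ B2) ∧ 1 ≤ mu u A1 B1) with hJ1
  set J2 := D.filter (fun u => Beh u (A2 ∪ B2) (A1 ∪ B1) ∧ 1 ≤ mu u A2 B2) with hJ2
  have m1 : ∀ u, u ∈ J1 ↔ u ∈ D ∧ Beh u (A1 ∪ B1) (A2 ∪ B2) ∧ 1 ≤ mu u A1 B1 := by
    intro u; rw [hJ1, mem_filter]
  have m2 : ∀ u, u ∈ J2 ↔ u ∈ D ∧ Beh u (A2 ∪ B2) (A1 ∪ B1) ∧ 1 ≤ mu u A2 B2 := by
    intro u; rw [hJ2, mem_filter]
  set J : Finset (Pt ⊕ Pt) := J1.disjSum J2 with hJ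
  set F : Pt ⊕ Pt → Finset (Pt × Pt) := Sum.elim F1 F2 with hF
  -- every star with its functional
  have key : ∀ j ∈ J, ∃ g : Fn, Cf (A1 ∪ B1) (A2 ∪ B2) ψ g ∧
      (St1 (A1 ∪ B1) (A2 ∪ B2) ψ g (F j) ∨ St2 (A1 ∪ B1) (A2 ∪ B2) ψ g (F j)) := by
    rintro (u | u) hu
    · rw [hJ, inl_mem_disjSum, m1] at hu
      exact ⟨g1 u, a4 u hu.2.1, Or.inl (a5 u hu.2.1)⟩
    · rw [hJ, inr_mem_disjSum, m2] at hu
      exact ⟨g2 u, b4 u hu.2.1, Or.inr (b5 u hu.2.1)⟩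
  have hcount := abs_count J F (xi ψ) ?_ ?_ ?_ ?_
  · -- blockers
    have hbl : ∀ P ∈ J.biUnion F, ∃ c ∈ C, c ∈ openSegment ℝ P.1 P.2 := by
      intro P hP
      obtain ⟨j, hj, hPj⟩ := mem_biUnion.mp hP
      rcases j with u | u
      · rw [hJ, inl_mem_disjSum, m1] at hj
        exact a7 u hj.2.1 P hPj
      · rw [hJ, inr_mem_disjSum, m2] at hj
        exact b7 u hj.2.1 P hPj
    choose! b hbC hbs using hbl
    refine ⟨(J.biUnion F).image b, ?_, ?_, ?_⟩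
    · intro c hc
      obtain ⟨P, hP, rfl⟩ := mem_image.mp hc
      exact hbC P hP
    · intro c hc
      obtain ⟨P, hP, rfl⟩ := mem_image.mp hc
      obtain ⟨j, hj, hPj⟩ := mem_biUnion.mp hP
      obtain ⟨g, hg, hst⟩ := key j hj
      refine out_hull hg (P := P) ?_ (hbs P hP)
      rcases hst with h | h
      · exact h.1 P hPj
      · exact h.1 P hPj
    · rw [card_image_of_injOn]
      · refine le_trans ?_ hcount
        rw [hJ, sum_disjSum, add_assoc]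
        apply Nat.add_le_add_left
        apply Nat.add_le_add
        · exact sleeve_sum D A1 B1 (A2 ∪ B2) F1 a6 J1 m1
        · exact sleeve_sum D A2 B2 (A1 ∪ B1) F2 b6 J2 m2
      · intro P hP Q hQ hPQ
        have hP' : P ∈ J.biUnion F := hP
        have hQ' : Q ∈ J.biUnion F := hQ
        obtain ⟨i, hi, hPi⟩ := mem_biUnion.mp hP'
        obtain ⟨j, hj, hQj⟩ := mem_biUnion.mp hQ'
        obtain ⟨g, hg, hst⟩ := key i hi
        obtain ⟨g', hg', hst'⟩ := key j hj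
        refine cross_star hg hg' hst hst' hPi hQj (hbs P hP') ?_
        have := hbs Q hQ'
        rwa [← hPQ] at this
  · obtain ⟨u, hu, h | h⟩ := hex
    · exact ⟨Sum.inl u, by rw [hJ, inl_mem_disjSum, m1]; exact ⟨hu, h⟩⟩
    · exact ⟨Sum.inr u, by rw [hJ, inr_mem_disjSum, m2]; exact ⟨hu, h⟩⟩
  · rintro (u | u) hu
    · rw [hJ, inl_mem_disjSum, m1] at hu
      have := a6 u hu.2.1
      exact card_pos.mp (by have h3 := hu.2.2; simp only [hF, Sum.elim_inl]; omega)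
    · rw [hJ, inr_mem_disjSum, m2] at hu
      have := b6 u hu.2.1
      exact card_pos.mp (by have h3 := hu.2.2; simp only [hF, Sum.elim_inr]; omega)
  · intro j hj P hP Q hQ h
    obtain ⟨g, hg, hst⟩ := key j hj
    exact xi_inj hg hst hP hQ h
  · intro i hi j hj hij P hPi hPj
    by_contra hcon
    push Not at hcon
    obtain ⟨⟨Q, hQ, hPQ⟩, Q', hQ', hPQ'⟩ := hcon
    rcases i with u | u <;> rcases j with v | v
    · rw [hJ, inl_mem_disjSum, m1] at hi hj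
      have h3 := lm_eq (a4 u hi.2.1) (a4 v hj.2.1) (Or.inl (a5 u hi.2.1)) (Or.inl (a5 v hj.2.1))
        hPi hPj hQ hQ' hPQ hPQ'
      obtain ⟨h4, h5⟩ := sleeve_grad h3
      rw [a2 u hi.2.1, a2 v hj.2.1] at h4
      rw [a3 u hi.2.1, a3 v hj.2.1] at h5
      exact hij (congrArg Sum.inl (sleeve_dir (hD u hi.1) (hD v hj.1) (a1 u hi.2.1) (a1 v hj.2.1)
        h4 h5))
    · rw [hJ, inl_mem_disjSum, m1] at hi
      rw [hJ, inr_mem_disjSum, m2] at hj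
      exact lm_mix (a4 u hi.2.1) (b4 v hj.2.1) (a5 u hi.2.1) (b5 v hj.2.1) hPi hPj hQ hQ' hPQ hPQ'
    · rw [hJ, inr_mem_disjSum, m2] at hi
      rw [hJ, inl_mem_disjSum, m1] at hj
      exact lm_mix (a4 v hj.2.1) (b4 u hi.2.1) (a5 v hj.2.1) (b5 u hi.2.1) hPj hPi hQ' hQ hPQ' hPQ
    · rw [hJ, inr_mem_disjSum, m2] at hi hj
      have h3 := lm_eq (b4 u hi.2.1) (b4 v hj.2.1) (Or.inr (b5 u hi.2.1)) (Or.inr (b5 v hj.2.1))
        hPi hPj hQ hQ' hPQ hPQ'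
      obtain ⟨h4, h5⟩ := sleeve_grad h3
      rw [b2 u hi.2.1, b2 v hj.2.1] at h4
      rw [b3 u hi.2.1, b3 v hj.2.1] at h5
      exact hij (congrArg Sum.inr (sleeve_dir (hD u hi.1) (hD v hj.1) (b1 u hi.2.1) (b1 v hj.2.1)
        (by linarith) (by linarith)))

end Pool.PVG
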