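import Pool.Agent.PVG.Defs

namespace Pool.PVG

open Pool.Vis Finset

private lemma NX_refl (P : ℕ × ℕ) : NX P P := Or.inl ⟨le_rfl, le_rfl⟩

private lemma NX_symm {P Q : ℕ × ℕ} (h : NX P Q) : NX Q P := by
  unfold NX at *
  tauto

private lemma NX_insert {F : Finset (ℕ × ℕ)} {A : ℕ × ℕ} (hF : ∀ P ∈ F, ∀ Q ∈ F, NX P Q)
    (hA : ∀ P ∈ F, NX A P) : ∀ P ∈ insert A F, ∀ Q ∈ insert A F, NX P Q := by
  intro P hP Q hQ
  rcases mem_insert.1 hP with h1 | h1
  · rcases mem_insert.1 hQ with h2 | h2
    · rw [h1, h2]
      exact NX_refl _
    · rw [h1]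
      exact hA Q h2
  · rcases mem_insert.1 hQ with h2 | h2
    · rw [h2]
      exact NX_symm (hA P h1)
    · exact hF P h1 Q h2

/- Induction on `j - i`. If `j = i + 1`: `F = {(i, j)}`, `u = j`. If `f (i+1) = f i`: add `(i, j)` to
the family of `(i+1, j)`. If `f (j-1) = f j`: add `(i, j)` to the family of `(i, j-1)`. If neither,
`f (i+1) = f j ≠ f i = f (j-1)`, so `i + 1 < j - 1`: add `(i, j)` and `(i, i+1)` to the family of
`(i+1, j-1)`. -/
theorem walk (f : ℕ → Bool) : ∀ i j : ℕ, i < j → f i ≠ f j →
    ∃ (F : Finset (ℕ × ℕ)) (u : ℕ), i < u ∧ u ≤ j ∧ F.card = j - i ∧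
      (∀ P ∈ F, i ≤ P.1 ∧ P.1 < P.2 ∧ P.2 ≤ j ∧ f P.1 ≠ f P.2) ∧
      (∀ P ∈ F, P.2 = P.1 + 1 ∨ (P.1 < u ∧ u ≤ P.2)) ∧ ∀ P ∈ F, ∀ Q ∈ F, NX P Q := by
  suffices H : ∀ n i j : ℕ, j - i = n → i < j → f i ≠ f j →
      ∃ (F : Finset (ℕ × ℕ)) (u : ℕ), i < u ∧ u ≤ j ∧ F.card = j - i ∧
        (∀ P ∈ F, i ≤ P.1 ∧ P.1 < P.2 ∧ P.2 ≤ j ∧ f P.1 ≠ f P.2) ∧
        (∀ P ∈ F, P.2 = P.1 + 1 ∨ (P.1 < u ∧ u ≤ P.2)) ∧ ∀ P ∈ F, ∀ Q ∈ F, NX P Q from
    fun i j => H (j - i) i j rfl
  intro n
  induction n using Nat.strong_induction_on with
  | _ n ih =>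
  intro i j hn hij hf
  rcases Nat.lt_or_ge (i + 1) j with h1 | h1
  · by_cases ha : f (i + 1) = f i
    · obtain ⟨F, u, hu1, hu2, hc, hp, hu, hx⟩ := ih (j - (i + 1)) (by omega) (i + 1) j rfl h1
        (by rw [ha]; exact hf)
      refine ⟨insert (i, j) F, u, by omega, hu2, ?_, ?_, ?_, ?_⟩
      · rw [card_insert_of_notMem, hc]
        · omega
        · intro h
          have := (hp _ h).1
          simp only at this
          omega
      · intro P hP
        rcases mem_insert.1 hP with rfl | hP
        · exact ⟨le_rfl, hij, le_rfl, hf⟩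
        · obtain ⟨a, b, c, d⟩ := hp P hP
          exact ⟨by omega, b, c, d⟩
      · intro P hP
        rcases mem_insert.1 hP with rfl | hP
        · right
          exact ⟨by simp only; omega, hu2⟩
        · exact hu P hP
      · refine NX_insert hx fun P hP => ?_
        obtain ⟨a, b, c, d⟩ := hp P hP
        exact Or.inl ⟨by simp only; omega, c⟩
    · by_cases hb : f (j - 1) = f j
      · obtain ⟨F, u, hu1, hu2, hc, hp, hu, hx⟩ := ih (j - 1 - i) (by omega) i (j - 1) rfl
          (by omega) (by rw [hb]; exact hf)
        refine ⟨insert (i, j) F, u, by omega, by omega, ?_, ?_, ?_, ?_⟩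
        · rw [card_insert_of_notMem, hc]
          · omega
          · intro h
            have := (hp _ h).2.2.1
            simp only at this
            omega
        · intro P hP
          rcases mem_insert.1 hP with rfl | hP
          · exact ⟨le_rfl, hij, le_rfl, hf⟩
          · obtain ⟨a, b, c, d⟩ := hp P hP
            exact ⟨by omega, b, by omega, d⟩
        · intro P hP
          rcases mem_insert.1 hP with rfl | hP
          · right
            exact ⟨hu1, by simp only; omega⟩
          · exact hu P hP
        · refine NX_insert hx fun P hP => ?_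
          obtain ⟨a, b, c, d⟩ := hp P hP
          exact Or.inl ⟨a, by simp only; omega⟩
      · have e1 : f (i + 1) = f j := by
          revert ha hf
          cases f (i + 1) <;> cases f i <;> cases f j <;> simp
        have e2 : f (j - 1) = f i := by
          revert hb hf
          cases f (j - 1) <;> cases f i <;> cases f j <;> simp
        have h2 : i + 1 ≠ j - 1 := by
          intro h
          rw [h, e2] at e1
          exact hf e1
        obtain ⟨F, u, hu1, hu2, hc, hp, hu, hx⟩ := ih (j - 1 - (i + 1)) (by omega) (i + 1) (j - 1)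
          rfl (by omega) (by rw [e1, e2]; exact fun h => hf h.symm)
        refine ⟨insert (i, j) (insert (i, i + 1) F), u, by omega, by omega, ?_, ?_, ?_, ?_⟩
        · rw [card_insert_of_notMem, card_insert_of_notMem, hc]
          · omega
          · intro h
            have := (hp _ h).1
            simp only at this
            omega
          · intro h
            rcases mem_insert.1 h with h | h
            · rw [Prod.mk.injEq] at h
              omega
            · have := (hp _ h).1
              simp only at this
              omega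
        · intro P hP
          rcases mem_insert.1 hP with rfl | hP
          · exact ⟨le_rfl, hij, le_rfl, hf⟩
          · rcases mem_insert.1 hP with rfl | hP
            · exact ⟨le_rfl, by simp only; omega, by simp only; omega, fun h => ha h.symm⟩
            · obtain ⟨a, b, c, d⟩ := hp P hP
              exact ⟨by omega, b, by omega, d⟩
        · intro P hP
          rcases mem_insert.1 hP with rfl | hP
          · right
            exact ⟨by simp only; omega, by simp only; omega⟩
          · rcases mem_insert.1 hP with rfl | hP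
            · left
              rfl
            · exact hu P hP
        · refine NX_insert (NX_insert hx fun P hP => ?_) fun P hP => ?_
          · obtain ⟨a, b, c, d⟩ := hp P hP
            exact Or.inr (Or.inr (Or.inl a))
          · rcases mem_insert.1 hP with rfl | hP
            · exact Or.inl ⟨le_rfl, by simp only; omega⟩
            · obtain ⟨a, b, c, d⟩ := hp P hP
              exact Or.inl ⟨by simp only; omega, by simp only; omega⟩
  · have h2 : j = i + 1 := by omega
    subst h2
    refine ⟨{(i, i + 1)}, i + 1, by omega, le_rfl, by simp, ?_, ?_, ?_⟩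
    · intro P hP
      rw [mem_singleton] at hP
      subst hP
      exact ⟨le_rfl, by simp only; omega, le_rfl, hf⟩
    · intro P hP
      rw [mem_singleton] at hP
      subst hP
      left
      rfl
    · intro P hP Q hQ
      rw [mem_singleton] at hP hQ
      subst hP
      subst hQ
      exact NX_refl _

end Pool.PVG
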