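import Pool.Agent.PVG.Defs

namespace Pool.PVG

open Pool.Vis Finset

private lemma ab_pos (ψ : Fn) (t y : Pt) (ht : ψ.ev t < 0) (hy : 0 < ψ.ev y) :
    0 < ψ.a ^ 2 + ψ.b ^ 2 := by
  rcases (by positivity : 0 ≤ ψ.a ^ 2 + ψ.b ^ 2).eq_or_lt with h | h
  · exfalso
    have h1 : ψ.a = 0 := by nlinarith [sq_nonneg ψ.a, sq_nonneg ψ.b]
    have h2 : ψ.b = 0 := by nlinarith [sq_nonneg ψ.a, sq_nonneg ψ.b]
    simp only [Fn.ev, h1, h2] at ht hy
    linarith
  · exact h

/- Let `p0 = (ψ(y) t - ψ(t) y) / (ψ(y) - ψ(t))`, the point of the segment with `ψ = 0`, and `p1` the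
same for the second pair; `xi` is `eta ψ` at these points. Both are on the line `ψ = 0`, and along
this line `ori t y` is an increasing function of `eta ψ` (slope `(ψ(y) - ψ(t)) / (a² + b²)`).
`ori t y p0 = 0` and `ori t y p1` is a positive multiple of `ori t y z` (`z = t1` or `z = y1`). -/
theorem xi_lt1 (ψ : Fn) (t t1 y : Pt) (ht : ψ.ev t < 0) (ht1 : ψ.ev t1 < 0) (hy : 0 < ψ.ev y) :
    xi ψ (t, y) < xi ψ (t1, y) ↔ 0 < ori t y t1 := by
  have hab := ab_pos ψ t y ht hy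
  have key : ((ψ.ev y * (eta ψ).ev t1 - ψ.ev t1 * (eta ψ).ev y) * (ψ.ev y - ψ.ev t)) -
      ((ψ.ev y * (eta ψ).ev t - ψ.ev t * (eta ψ).ev y) * (ψ.ev y - ψ.ev t1)) =
      ψ.ev y * ((ψ.a ^ 2 + ψ.b ^ 2) * ori t y t1) := by
    simp only [Fn.ev, eta, ori]
    ring
  unfold xi
  simp only
  rw [div_lt_div_iff₀ (by linarith) (by linarith), ← sub_pos, key]
  constructor
  · intro h
    exact (mul_pos_iff_of_pos_left hab).1 ((mul_pos_iff_of_pos_left hy).1 h)
  · intro h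
    positivity

theorem xi_lt2 (ψ : Fn) (t y y1 : Pt) (ht : ψ.ev t < 0) (hy : 0 < ψ.ev y) (hy1 : 0 < ψ.ev y1) :
    xi ψ (t, y) < xi ψ (t, y1) ↔ 0 < ori t y y1 := by
  have hab := ab_pos ψ t y ht hy
  have key : ((ψ.ev y1 * (eta ψ).ev t - ψ.ev t * (eta ψ).ev y1) * (ψ.ev y - ψ.ev t)) -
      ((ψ.ev y * (eta ψ).ev t - ψ.ev t * (eta ψ).ev y) * (ψ.ev y1 - ψ.ev t)) =
      (-ψ.ev t) * ((ψ.a ^ 2 + ψ.b ^ 2) * ori t y y1) := by
    simp only [Fn.ev, eta, ori]
    ring
  have ht' : 0 < -ψ.ev t := by linarith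
  unfold xi
  simp only
  rw [div_lt_div_iff₀ (by linarith) (by linarith), ← sub_pos, key]
  constructor
  · intro h
    exact (mul_pos_iff_of_pos_left hab).1 ((mul_pos_iff_of_pos_left ht').1 h)
  · intro h
    positivity

private lemma col_eq (g : Fn) (t y z : Pt) (h0 : ori t y z = 0) (ht : g.ev t = 0) (hz : g.ev z = 0)
    (hy : g.ev y ≠ 0) : z = t := by
  have e1 : g.a * (z.1 - t.1) + g.b * (z.2 - t.2) = 0 := by
    simp only [Fn.ev] at ht hz
    linarith
  have e2 : g.a * (y.1 - t.1) + g.b * (y.2 - t.2) = g.ev y := by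
    simp only [Fn.ev] at ht ⊢
    linarith
  have e3 : (y.1 - t.1) * (z.2 - t.2) - (y.2 - t.2) * (z.1 - t.1) = 0 := h0
  have f1 : g.ev y * (z.1 - t.1) = 0 := by
    rw [← e2]
    linear_combination (y.1 - t.1) * e1 - g.b * e3
  have f2 : g.ev y * (z.2 - t.2) = 0 := by
    rw [← e2]
    linear_combination (y.2 - t.2) * e1 + g.a * e3
  have g1 := (mul_eq_zero.1 f1).resolve_left hy
  have g2 := (mul_eq_zero.1 f2).resolve_left hy
  exact Prod.ext (by linarith) (by linarith)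

/- By `xi_lt1`, `xi_lt2` (used in both directions) equality of `xi` means that the two pairs are
collinear; the line contains the centre, where `g` (or `ψ - g`) is not `0`, and the two other end
points, where it is `0`; so these coincide. -/
theorem xi_inj {S1 S2 : Finset Pt} {ψ g : Fn} (hg : Cf S1 S2 ψ g) {F : Finset (Pt × Pt)}
    (hF : St1 S1 S2 ψ g F ∨ St2 S1 S2 ψ g F) {P Q : Pt × Pt} (hP : P ∈ F) (hQ : Q ∈ F)
    (h : xi ψ P = xi ψ Q) : P = Q := by
  obtain ⟨t, y⟩ := P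
  obtain ⟨t1, y1⟩ := Q
  rcases hF with ⟨hct, c, hc, hcF⟩ | ⟨hct, c, hc, hcF⟩
  · have ey : y = c := hcF _ hP
    have ey1 : y1 = c := hcF _ hQ
    obtain ⟨a1, a2, a3, a4⟩ := hct _ hP
    obtain ⟨b1, b2, b3, b4⟩ := hct _ hQ
    simp only at a1 a2 a3 a4 b1 b2 b3 b4
    subst ey1
    subst ey
    have ht := hg.neg t a1
    have ht1 := hg.neg t1 b1
    have hy := hg.pos y a2
    have c1 : ¬ 0 < ori t y t1 := by
      rw [← xi_lt1 ψ t t1 y ht ht1 hy, h]
      exact lt_irrefl _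
    have c2 : ¬ 0 < ori t1 y t := by
      rw [← xi_lt1 ψ t1 t y ht1 ht hy, h]
      exact lt_irrefl _
    have c3 : ori t1 y t = - ori t y t1 := by simp only [ori]; ring
    have c4 : ori t y t1 = 0 := by
      rw [c3] at c2
      linarith [not_lt.1 c1, not_lt.1 c2]
    have := col_eq g t y t1 c4 a3 b3 (by rw [a4]; exact hy.ne')
    rw [this]
  · have et : t = c := hcF _ hP
    have et1 : t1 = c := hcF _ hQ
    obtain ⟨a1, a2, a3, a4⟩ := hct _ hP
    obtain ⟨b1, b2, b3, b4⟩ := hct _ hQ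
    simp only at a1 a2 a3 a4 b1 b2 b3 b4
    subst et1
    subst et
    have ht := hg.neg t a1
    have hy := hg.pos y a2
    have hy1 := hg.pos y1 b2
    have c1 : ¬ 0 < ori t y y1 := by
      rw [← xi_lt2 ψ t y y1 ht hy hy1, h]
      exact lt_irrefl _
    have c2 : ¬ 0 < ori t y1 y := by
      rw [← xi_lt2 ψ t y1 y ht hy1 hy, h]
      exact lt_irrefl _
    have c3 : ori t y1 y = - ori t y y1 := by simp only [ori]; ring
    have c4 : ori t y y1 = 0 := by
      rw [c3] at c2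
      linarith [not_lt.1 c1, not_lt.1 c2]
    have c5 : ori y t y1 = 0 := by
      have : ori y t y1 = - ori t y y1 := by simp only [ori]; ring
      rw [this, c4, neg_zero]
    have e1 : (ψ.comb g (-1)).ev y = 0 := by rw [ev_comb, a4]; ring
    have e2 : (ψ.comb g (-1)).ev y1 = 0 := by rw [ev_comb, b4]; ring
    have e3 : (ψ.comb g (-1)).ev t ≠ 0 := by rw [ev_comb, a3]; simpa using ht.ne
    have := col_eq (ψ.comb g (-1)) y t y1 c5 e1 e2 e3
    rw [this]

end Pool.PVG
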