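import Pool.Agent.PVG.Walk
import Pool.Agent.PVG.LineC
import Pool.Agent.PVG.Badl
import Pool.Agent.PVG.Gapd

namespace Pool.PVG

open Pool.Vis Finset

/-- The blockers of good pairs are different. -/
theorem zidx_inj (q : ℕ → Pt) (h : ℕ) (hOT : OT q h) (hinj : Inj q h)
    (hnc : ∀ i < h, ∀ j < h, i ≠ j → ∃ l < h, ori (q i) (q j) (q l) ≠ 0) (P Q : ℕ × ℕ)
    (hP : P.1 < P.2) (hPh : P.2 < h) (hQ : Q.1 < Q.2) (hQh : Q.2 < h) (hn : NX P Q)
    (hgP : P.2 = P.1 + 1 ∨ ∀ m < h, m ≠ P.1 → m ≠ P.2 → ori (q P.1) (q P.2) (q m) ≠ 0)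
    (hgQ : Q.2 = Q.1 + 1 ∨ ∀ m < h, m ≠ Q.1 → m ≠ Q.2 → ori (q Q.1) (q Q.2) (q m) ≠ 0)
    (c : Pt) (hc : c ∈ openSegment ℝ (q P.1) (q P.2))
    (hc' : c ∈ openSegment ℝ (q Q.1) (q Q.2)) : P = Q := by
  have hn' : NX Q P := by
    unfold NX at hn ⊢
    omega
  have e1 := nci q h hOT hinj P Q hP hPh hQ hQh hn c hc hc'
  have e2 := nci q h hOT hinj Q P hQ hQh hP hPh hn' c hc' hc
  rcases hgP with hgP | hgP
  · rcases hgQ with hgQ | hgQ
    · rcases lt_trichotomy P.1 Q.1 with hlt | heq | hlt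
      · exfalso
        obtain ⟨l, hl, hl0⟩ := hnc P.1 (by omega) P.2 hPh (by omega)
        rw [hgP] at e1 hl0 hc
        rw [hgQ] at e1 hc'
        exact gapd q h hOT hinj P.1 Q.1 (by omega) (by omega) e1.1 e1.2 l hl hl0 c hc hc'
      · exact Prod.ext heq (by omega)
      · exfalso
        obtain ⟨l, hl, hl0⟩ := hnc Q.1 (by omega) Q.2 hQh (by omega)
        rw [hgQ] at e2 hl0 hc'
        rw [hgP] at e2 hc
        exact gapd q h hOT hinj Q.1 P.1 (by omega) (by omega) e2.1 e2.2 l hl hl0 c hc' hc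
    · have h1 : P.1 = Q.1 ∨ P.1 = Q.2 := by
        by_contra hcon
        push Not at hcon
        exact hgQ P.1 (by omega) hcon.1 hcon.2 e2.1
      have h2 : P.2 = Q.1 ∨ P.2 = Q.2 := by
        by_contra hcon
        push Not at hcon
        exact hgQ P.2 (by omega) hcon.1 hcon.2 e2.2
      exact Prod.ext (by omega) (by omega)
  · have h1 : Q.1 = P.1 ∨ Q.1 = P.2 := by
      by_contra hcon
      push Not at hcon
      exact hgP Q.1 (by omega) hcon.1 hcon.2 e1.1
    have h2 : Q.2 = P.1 ∨ Q.2 = P.2 := by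
      by_contra hcon
      push Not at hcon
      exact hgP Q.2 (by omega) hcon.1 hcon.2 e1.2
    exact Prod.ext (by omega) (by omega)

/- Take `F`, `u` from `walk` for `i = 0`, `j = h - 1` (`h - 1` pairs). Bad pairs: the pairs with
`P.2 ≠ P.1 + 1` for which some `m ≠ P.1, P.2` has `ori (q P.1) (q P.2) (q m) = 0`. By `badl` they are
on the line of `q 0`, `q (h-1)` or on the line of `q (u-1)`, `q u`; by `line_count` (with `J` the
set of the indices on the line, `J.card ≤ L`) there are at most `2 (L - 1)` of them (note `2 ≤ L` by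
`hL`, as the line of two points contains both). The good pairs get different blockers: a common
blocker gives four collinear points by `nci`; two different pairs have at least three different
indices, so a pair which is not of the form `(a, a+1)` would be bad; two different pairs
`(a, a+1)`, `(b, b+1)` are excluded by `gapd`. Hence `h - 1 - 2 (L - 1) ≤ C.card`. -/
theorem zidx (q : ℕ → Pt) (h : ℕ) (f : ℕ → Bool) (A B C : Finset Pt) (h2 : 2 ≤ h) (hOT : OT q h)
    (hinj : Inj q h) (hf : ∀ i < h, (f i = true → q i ∈ A) ∧ (f i = false → q i ∈ B))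
    (hne : f 0 ≠ f (h - 1)) (L : ℕ)
    (hL : ∀ i < h, ∀ j < h, i ≠ j →
      ((range h).filter (fun l => ori (q i) (q j) (q l) = 0)).card ≤ L)
    (hnc : ∀ i < h, ∀ j < h, i ≠ j → ∃ l < h, ori (q i) (q j) (q l) ≠ 0)
    (hblk : Blk A B C) : h + 1 ≤ C.card + 2 * L := by
  classical
  obtain ⟨F, u, hu0, huh, hFc, hF1, hF2, hNX⟩ := walk f 0 (h - 1) (by omega) hne
  -- lines
  have hcount : ∀ i < h, ∀ j < h, i ≠ j →
      (F.filter (fun P => (P.1 < u ∧ u ≤ P.2) ∧ ori (q i) (q j) (q P.1) = 0 ∧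
        ori (q i) (q j) (q P.2) = 0)).card ≤ L - 1 := by
    intro i hi j hj hij
    have h1 := line_count (F.filter (fun P => (P.1 < u ∧ u ≤ P.2) ∧
      ori (q i) (q j) (q P.1) = 0 ∧ ori (q i) (q j) (q P.2) = 0))
      ((range h).filter (fun l => ori (q i) (q j) (q l) = 0)) u ?_ ?_
    · exact h1.trans (Nat.sub_le_sub_right (hL i hi j hj hij) 1)
    · intro P hP
      obtain ⟨hPF, ⟨hPu, hPu'⟩, hP1, hP2⟩ := mem_filter.mp hP
      have h3 := hF1 P hPF
      exact ⟨mem_filter.mpr ⟨mem_range.mpr (by omega), hP1⟩,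
        mem_filter.mpr ⟨mem_range.mpr (by omega), hP2⟩, hPu, hPu'⟩
    · intro P hP Q hQ
      exact hNX P (mem_filter.mp hP).1 Q (mem_filter.mp hQ).1
  have hL2 : 2 ≤ L := by
    have h1 := hL 0 (by omega) (h - 1) (by omega) (by omega)
    have h3 : ({0, h - 1} : Finset ℕ) ⊆
        (range h).filter (fun l => ori (q 0) (q (h - 1)) (q l) = 0) := by
      intro x hx
      rcases mem_insert.mp hx with rfl | hx
      · exact mem_filter.mpr ⟨mem_range.mpr (by omega), ori_self_left _ _⟩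
      · rw [mem_singleton] at hx
        subst hx
        exact mem_filter.mpr ⟨mem_range.mpr (by omega), ori_self_right _ _⟩
    have h4 := card_le_card h3
    rw [card_pair (by omega)] at h4
    omega
  -- good pairs
  let Good : ℕ × ℕ → Prop := fun P => P.2 = P.1 + 1 ∨
    ∀ m < h, m ≠ P.1 → m ≠ P.2 → ori (q P.1) (q P.2) (q m) ≠ 0
  have hbad : F.filter (fun P => ¬ Good P) ⊆
      F.filter (fun P => (P.1 < u ∧ u ≤ P.2) ∧ ori (q 0) (q (h - 1)) (q P.1) = 0 ∧
        ori (q 0) (q (h - 1)) (q P.2) = 0) ∪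
      F.filter (fun P => (P.1 < u ∧ u ≤ P.2) ∧ ori (q (u - 1)) (q u) (q P.1) = 0 ∧
        ori (q (u - 1)) (q u) (q P.2) = 0) := by
    intro P hP
    obtain ⟨hPF, hPg⟩ := mem_filter.mp hP
    have h3 := hF1 P hPF
    have h4 : P.1 < u ∧ u ≤ P.2 := by
      rcases hF2 P hPF with h4 | h4
      · exact absurd (Or.inl h4) hPg
      · exact h4
    have h5 : ∃ m, m < h ∧ m ≠ P.1 ∧ m ≠ P.2 ∧ ori (q P.1) (q P.2) (q m) = 0 := by
      by_contra hcon
      push Not at hcon
      exact hPg (Or.inr hcon)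
    obtain ⟨m, hm, hm1, hm2, hm3⟩ := h5
    rw [mem_union, mem_filter, mem_filter]
    rcases badl q h hOT hinj u P.1 P.2 m h4.1 h4.2 (by omega) hm hm1 hm2 hm3 with h6 | h6
    · exact Or.inl ⟨hPF, h4, h6⟩
    · exact Or.inr ⟨hPF, h4, h6⟩
  have hbadc : (F.filter (fun P => ¬ Good P)).card ≤ (L - 1) + (L - 1) := by
    refine (card_le_card hbad).trans ((card_union_le _ _).trans ?_)
    exact Nat.add_le_add (hcount 0 (by omega) (h - 1) (by omega) (by omega))
      (hcount (u - 1) (by omega) u (by omega) (by omega))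
  -- blockers
  have hbl : ∀ P ∈ F, ∃ c ∈ C, c ∈ openSegment ℝ (q P.1) (q P.2) := by
    intro P hPF
    have h3 := hF1 P hPF
    obtain ⟨h31, h32, h33, h34⟩ := h3
    have h5 := hf P.1 (by omega)
    have h6 := hf P.2 (by omega)
    cases h7 : f P.1
    · have h8 : f P.2 = true := by
        cases h9 : f P.2
        · exact absurd (h7.trans h9.symm) h34
        · rfl
      obtain ⟨c, hc, hc'⟩ := hblk (q P.2) (h6.1 h8) (q P.1) (h5.2 h7)
      rw [openSegment_symm] at hc'
      exact ⟨c, hc, hc'⟩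
    · have h8 : f P.2 = false := by
        cases h9 : f P.2
        · rfl
        · exact absurd (h7.trans h9.symm) h34
      exact hblk (q P.1) (h5.1 h7) (q P.2) (h6.2 h8)
  choose! g hgC hgs using hbl
  have hgood : (F.filter (fun P => Good P)).card ≤ C.card := by
    refine card_le_card_of_injOn g (fun P hP => hgC P (mem_filter.mp hP).1) ?_
    intro P hP Q hQ hPQ
    obtain ⟨hPF, hPg⟩ := mem_filter.mp hP
    obtain ⟨hQF, hQg⟩ := mem_filter.mp hQ
    have h3 := hF1 P hPF
    have h4 := hF1 Q hQF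
    refine zidx_inj q h hOT hinj hnc P Q h3.2.1 (by omega) h4.2.1 (by omega)
      (hNX P hPF Q hQF) hPg hQg (g P) (hgs P hPF) ?_
    rw [hPQ]
    exact hgs Q hQF
  have htot := card_filter_add_card_filter_not (s := F) (fun P => Good P)
  omega

end Pool.PVG
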